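import Pool.Agent.Lib.MP_753083_pr.Num

set_option autoImplicit false
set_option linter.unusedSectionVars false
open Finset Filter Topology

namespace Pool.Agent.Lib.MP_753083_pr

lemma pow_le_exp_mul {x y : ℝ} (hx : 0 ≤ x) (h : x ≤ Real.exp y) (n : ℕ) :
    x ^ n ≤ Real.exp (y * n) := by
  rw [mul_comm, Real.exp_nat_mul]; exact pow_le_pow_left₀ hx h n

lemma exp_one_le : Real.exp 1 ≤ 3 := by linarith [Real.exp_one_lt_d9]

lemma le_exp_self (x : ℝ) : x ≤ Real.exp x := by linarith [Real.add_one_le_exp x]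

lemma term1 {n : ℕ} {l w p : ℝ} (hn : 2 ≤ n) (hl : (n : ℝ) = Real.exp l) (hl1 : 1 ≤ l)
    (hw1 : w ≤ l) (hp : p * n = l + Real.log l + w) (hp0 : 0 ≤ p) (hp1 : p ≤ 1) :
    n * ((1 - p) ^ (n - 1) + n * (p * (1 - p) ^ (n - 2))) ≤ 36 * Real.exp (-w) := by
  have a0 : 0 ≤ 1 - p := by linarith
  have a1 : (1 - p) ^ (n - 1) ≤ (1 - p) ^ (n - 2) := pow_le_pow_of_le_one a0 (by linarith) (by omega)
  have a2 : (1 - p) ^ (n - 2) ≤ Real.exp (-(p * (n - 2))) :=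
    pow_le_exp a0 le_rfl hp0 (by rw [Nat.cast_sub hn]; norm_num)
  have a3 : Real.log l ≤ l := (Real.log_le_sub_one_of_pos (by linarith)).trans (by linarith)
  have a4 : Real.exp (-(p * (n - 2))) * (n * l) = Real.exp (2 * p) * Real.exp (-w) := by
    rw [show -(p * (n - 2)) = 2 * p + -w + (-l + -Real.log l) by linarith, Real.exp_add,
      Real.exp_add, Real.exp_add, Real.exp_neg l, Real.exp_neg (Real.log l),
      Real.exp_log (by linarith), hl]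
    field_simp
  have a5 : Real.exp (2 * p) ≤ 9 := by
    calc _ ≤ Real.exp (1 + 1) := Real.exp_le_exp.2 (by linarith)
      _ ≤ 3 * 3 := by
        rw [Real.exp_add]; exact mul_le_mul exp_one_le exp_one_le (by positivity) (by norm_num)
      _ = 9 := by norm_num
  have a6 : (0 : ℝ) ≤ n := by positivity
  have a7 := pow_nonneg a0 (n - 2)
  calc _ ≤ n * ((1 - p) ^ (n - 2) + n * (p * (1 - p) ^ (n - 2))) := by gcongr
    _ = n * (1 + p * n) * (1 - p) ^ (n - 2) := by ring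
    _ ≤ n * (4 * l) * Real.exp (-(p * (n - 2))) := by gcongr; linarith
    _ = 4 * (Real.exp (-(p * (n - 2))) * (n * l)) := by ring
    _ ≤ 4 * (9 * Real.exp (-w)) := by rw [a4]; gcongr
    _ = _ := by ring

lemma term_rho {t : ℕ} {n l p0 z : ℝ} (ht : (700 : ℝ) ≤ t) (hl1 : (t : ℝ) ^ 10 ≤ l)
    (hzn : z * n = l) (hn0 : 0 < n) (c10 : 9 / 10 * z ≤ p0) :
    (10 : ℝ) ^ (28 * t ^ 9) * Real.exp (-(9 / 10 * p0 * (89 / 100 * n))) ≤
      Real.exp (-(3 / 5 * l)) := by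
  have a1 : (10 : ℝ) ≤ Real.exp 3 := by
    rw [show (3 : ℝ) = 1 + 1 + 1 by norm_num, Real.exp_add, Real.exp_add]
    have := Real.exp_one_gt_d9
    nlinarith [mul_self_nonneg (Real.exp 1 - 2.7)]
  refine (mul_le_mul_of_nonneg_right (pow_le_exp_mul (by norm_num) a1 _) (by positivity)).trans ?_
  rw [← Real.exp_add]
  apply Real.exp_le_exp.2
  push_cast
  have a2 : 700 * (t : ℝ) ^ 9 ≤ t ^ 10 := by
    rw [pow_succ' (t : ℝ) 9]; gcongr
  have a3 : 9 / 10 * z * n ≤ p0 * n := by gcongr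
  have a4 : (0 : ℝ) ≤ t ^ 10 := by positivity
  linarith

lemma four_pow_le (n : ℕ) : (4 : ℝ) ^ n ≤ Real.exp (2 * n) :=
  pow_le_exp_mul (by norm_num) (by
    rw [show (2 : ℝ) = 1 + 1 by norm_num, Real.exp_add]
    nlinarith [Real.exp_one_gt_d9]) n

lemma term6 {n : ℕ} {t m1 p0 z : ℝ} (ht : 2 ≤ t) (hn0 : (0 : ℝ) < n) (hz0 : 0 ≤ z)
    (h1 : t ^ 10 ≤ z * n) (h2 : n ≤ t ^ 4 * m1) (c10 : 9 / 10 * z ≤ p0) :
    (4 : ℝ) ^ n * Real.exp (-(p0 * m1 ^ 2)) ≤ Real.exp (-n) := by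
  refine (mul_le_mul_of_nonneg_right (four_pow_le n) (by positivity)).trans ?_
  rw [← Real.exp_add]
  apply Real.exp_le_exp.2
  have ht0 : 0 < t := by linarith
  have a0 : 3 * t ^ 8 ≤ 9 / 10 * t ^ 10 := by
    have a : t ^ 10 = t * t * t ^ 8 := by ring
    have b : 4 * t ^ 8 ≤ t * t * t ^ 8 := by gcongr; nlinarith
    have c : 0 < t ^ 8 := by positivity
    linarith
  have a1 : t ^ 8 * (n * (3 * n)) ≤ t ^ 8 * (n * (p0 * m1 ^ 2)) := by
    calc t ^ 8 * (n * (3 * n)) = 3 * t ^ 8 * n ^ 2 := by ring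
      _ ≤ 9 / 10 * t ^ 10 * n ^ 2 := by gcongr
      _ ≤ 9 / 10 * (z * n) * (t ^ 4 * m1) ^ 2 := by gcongr
      _ = t ^ 8 * (n * (9 / 10 * z * m1 ^ 2)) := by ring
      _ ≤ _ := by gcongr
  have a2 := le_of_mul_le_mul_left (le_of_mul_le_mul_left a1 (by positivity)) hn0
  linarith

lemma term7 {k n m' : ℕ} {u z : ℝ} (hn : 1000 ≤ n) (hm0 : 0 < m') (hz0 : 0 ≤ z)
    (h1 : u ≤ z * n) (h2 : 2000 * ((k : ℝ) + 3) * n ≤ u * m') :
    (k : ℝ) ^ n * (4 ^ n * Real.exp (-(z / 10 / 2 * (m' * n / 80 : ℕ)))) ≤ Real.exp (-n) := by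
  have hkn : (k : ℝ) ^ n ≤ Real.exp (k * n) := pow_le_exp_mul (by positivity) (le_exp_self _) n
  have h4 := four_pow_le n
  have a1 : m' * n ≤ 100 * (m' * n / 80) := by
    have : n ≤ m' * n := Nat.le_mul_of_pos_left _ hm0
    omega
  have a2 : (m' : ℝ) * n ≤ 100 * (m' * n / 80 : ℕ) := by exact_mod_cast a1
  have a3 : 2000 * ((k : ℝ) + 3) * n ≤ z * (100 * (m' * n / 80 : ℕ)) := by
    calc _ ≤ u * m' := h2
      _ ≤ z * n * m' := by gcongr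
      _ = z * (m' * n) := by ring
      _ ≤ _ := by gcongr
  calc _ ≤ Real.exp (k * n) * (Real.exp (2 * n) *
        Real.exp (-(z / 10 / 2 * (m' * n / 80 : ℕ)))) := by gcongr
    _ ≤ _ := by
      rw [← Real.exp_add, ← Real.exp_add]
      apply Real.exp_le_exp.2
      linarith

lemma term8 {k n : ℕ} {z : ℝ} (hn : 10000000 ≤ n) (hz0 : 0 ≤ z)
    (h1 : 10 ^ 15 * ((k : ℝ) + 3) ≤ z * n) :
    (k : ℝ) ^ n * (((1 / (4 * 10 ^ 6) : ℝ) ^ n)⁻¹ *
      Real.exp (z / 10 / 2 * (1 / (4 * 10 ^ 6)) * n ^ 2) *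
      Real.exp (-(z / 10 / 2 * (n ^ 2 / 10 ^ 6 : ℕ)))) ≤ Real.exp (-n) := by
  have hkn : (k : ℝ) ^ n ≤ Real.exp (k * n) := pow_le_exp_mul (by positivity) (le_exp_self _) n
  have a1 : n ^ 2 ≤ 2000000 * (n ^ 2 / 10 ^ 6) := by
    have : n ≤ n ^ 2 := Nat.le_self_pow (by omega) _
    omega
  have a2 : (n : ℝ) ^ 2 ≤ 2000000 * (n ^ 2 / 10 ^ 6 : ℕ) := by exact_mod_cast a1
  have a3 : ((1 / (4 * 10 ^ 6) : ℝ) ^ n)⁻¹ ≤ Real.exp (4 * 10 ^ 6 * n) := by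
    rw [← inv_pow, one_div, inv_inv]
    exact pow_le_exp_mul (by norm_num) (le_exp_self _) n
  have a4 : z * n ^ 2 ≤ z * (2000000 * (n ^ 2 / 10 ^ 6 : ℕ)) := by gcongr
  have a5 : 10 ^ 15 * ((k : ℝ) + 3) * (n : ℝ) ≤ z * n ^ 2 := by
    rw [pow_two, ← mul_assoc z]; exact mul_le_mul_of_nonneg_right h1 (by positivity)
  calc _ ≤ Real.exp (k * n) * (Real.exp (4 * 10 ^ 6 * n) *
        Real.exp (z / 10 / 2 * (1 / (4 * 10 ^ 6)) * n ^ 2) *
        Real.exp (-(z / 10 / 2 * (n ^ 2 / 10 ^ 6 : ℕ)))) := by gcongr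
    _ ≤ _ := by
      rw [← Real.exp_add, ← Real.exp_add, ← Real.exp_add]
      apply Real.exp_le_exp.2
      have b1 : 0 ≤ (k : ℝ) * n := by positivity
      have b2 : 0 ≤ (n : ℝ) := by positivity
      linarith

lemma cond1 {k C t m1 z n : ℝ} (hk0 : 0 ≤ k) (hk : k ≤ C) (ht : 1 ≤ t) (ht2 : 2016 * C ^ 2 ≤ t)
    (hz0 : 0 ≤ z) (hm : 0 ≤ m1) (h1 : z * n ≤ 2 * t ^ 10) (h2 : t ^ 4 * m1 ≤ 2 * n) :
    2 * Real.exp 1 * (3 * (k * z)) * (2 * (2 * k * m1) * (6 * t + 1)) ≤ t ^ 8 := by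
  have hC : 0 ≤ C := hk0.trans hk
  have a1 : z * m1 ≤ 4 * t ^ 6 := by
    have : t ^ 4 * (z * m1) ≤ t ^ 4 * (4 * t ^ 6) := by
      calc _ = z * (t ^ 4 * m1) := by ring
        _ ≤ z * (2 * n) := by gcongr
        _ = 2 * (z * n) := by ring
        _ ≤ 2 * (2 * t ^ 10) := by gcongr
        _ = _ := by ring
    exact le_of_mul_le_mul_left this (by positivity)
  calc _ = 24 * Real.exp 1 * k ^ 2 * (z * m1) * (6 * t + 1) := by ring
    _ ≤ 24 * 3 * C ^ 2 * (4 * t ^ 6) * (7 * t) := by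
      gcongr
      · exact exp_one_le
      · linarith
    _ = (2016 * C ^ 2) * t ^ 7 := by ring
    _ ≤ t * t ^ 7 := by gcongr
    _ = _ := by ring

lemma cond2 {k C t m' z n : ℝ} (hk0 : 0 ≤ k) (hk : k ≤ C) (ht : 1 ≤ t) (ht2 : 2016 * C ^ 2 ≤ t)
    (hz0 : 0 ≤ z) (hm : 0 ≤ m') (h1 : z * n ≤ 2 * t ^ 10) (h2 : t ^ 10 * m' ≤ 2 * C * n) :
    2 * Real.exp 1 * (3 * (k * z)) * (2 * m') ≤ t := by
  have hC : 0 ≤ C := hk0.trans hk
  have a1 : z * m' ≤ 4 * C := by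
    have : t ^ 10 * (z * m') ≤ t ^ 10 * (4 * C) := by
      calc _ = z * (t ^ 10 * m') := by ring
        _ ≤ z * (2 * C * n) := by gcongr
        _ = 2 * C * (z * n) := by ring
        _ ≤ 2 * C * (2 * t ^ 10) := by gcongr
        _ = _ := by ring
    exact le_of_mul_le_mul_left this (by positivity)
  calc _ = 12 * Real.exp 1 * k * (z * m') := by ring
    _ ≤ 12 * 3 * C * (4 * C) := by
      gcongr
      exact exp_one_le
    _ = 144 * C ^ 2 := by ring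
    _ ≤ t := by nlinarith [sq_nonneg C]

lemma cond3 {t T : ℕ} {n sm : ℝ} (hn0 : 0 < n) (a1 : n ≤ t ^ 10 * sm) (a2 : t ≤ T) :
    Real.exp 1 * n / sm * (1 / 2) ^ T ≤ 3 * (t : ℝ) ^ 10 * (1 / 2) ^ t := by
  have a3 : 0 < sm := by
    by_contra a3
    have := mul_nonpos_of_nonneg_of_nonpos (show (0:ℝ) ≤ t ^ 10 by positivity) (not_lt.1 a3)
    linarith
  refine mul_le_mul ?_ (pow_le_pow_of_le_one (by norm_num) (by norm_num) a2) (by positivity)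
    (by positivity)
  rw [div_le_iff₀ a3, mul_assoc]
  exact mul_le_mul exp_one_le a1 hn0.le (by norm_num)

lemma size1 {n t : ℕ} {l : ℝ} (ht : (24 : ℝ) ≤ t) (hl : (n : ℝ) = Real.exp l)
    (hl1 : (t : ℝ) ^ 10 ≤ l) (hl2 : l ≤ 2 * (t : ℝ) ^ 10) : t ^ 30 ≤ n ∧ n ≤ 2 ^ (3 * t ^ 10) := by
  constructor
  · have a1 := Real.pow_div_factorial_le_exp ((t : ℝ) ^ 10) (by positivity) 4
    have a2 : Real.exp ((t : ℝ) ^ 10) ≤ n := hl ▸ Real.exp_le_exp.2 hl1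
    have a3 : (t : ℝ) ≤ t ^ 10 := le_self_pow₀ (by linarith) (by omega)
    have a4 : (t : ℝ) ^ 30 ≤ n := by
      refine le_trans ?_ (a1.trans a2)
      rw [le_div_iff₀ (by positivity), show ((t : ℝ) ^ 10) ^ 4 = t ^ 30 * t ^ 10 by ring]
      refine mul_le_mul_of_nonneg_left ?_ (by positivity)
      norm_num [Nat.factorial]; linarith
    exact_mod_cast a4
  · have a1 : Real.exp 2 ≤ 8 := by
      rw [show (2 : ℝ) = 1 + 1 by norm_num, Real.exp_add]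
      nlinarith [Real.exp_one_lt_d9, Real.exp_pos 1]
    have a2 : (n : ℝ) ≤ 2 ^ (3 * t ^ 10) := by
      calc (n : ℝ) ≤ Real.exp ((t ^ 10 : ℕ) * 2) := by
            rw [hl]; apply Real.exp_le_exp.2; push_cast; linarith
        _ ≤ 8 ^ (t ^ 10) := by rw [Real.exp_nat_mul]; gcongr
        _ = _ := by rw [pow_mul]; norm_num
    exact_mod_cast a2

lemma split_p {k p z : ℝ} (hk : 1 ≤ k) (hz0 : 0 ≤ z) (c3 : z ≤ p) (c4 : p ≤ 3 * z)
    (c5 : k * z ≤ 1 / 10) : ∃ p0, 0 ≤ p0 ∧ 9 / 10 * z ≤ p0 ∧ k * p0 ≤ 1 ∧ k * p ≤ 3 * (k * z) ∧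
      p ≤ 1 ∧ p = p0 + z / 10 - k * p0 * (z / 10) := by
  have c6 : z ≤ k * z := le_mul_of_one_le_left hz0 hk
  obtain ⟨p0, hp0⟩ : ∃ p0, p0 = (p - z / 10) / (1 - k * (z / 10)) := ⟨_, rfl⟩
  have c7 : 0 < 1 - k * (z / 10) := by linarith
  have c8 : p0 * (1 - k * (z / 10)) = p - z / 10 := by rw [hp0, div_mul_cancel₀ _ c7.ne']
  have c9 : 0 ≤ p0 := by rw [hp0]; exact div_nonneg (by linarith) c7.le
  have c11 : k * p ≤ 3 * (k * z) := by nlinarith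
  have c12 : p0 ≤ p := by
    rw [hp0, div_le_iff₀ c7]
    nlinarith [mul_nonneg hz0 (show 0 ≤ 1 - k * p by linarith)]
  refine ⟨p0, c9, ?_, by nlinarith, c11, by linarith, by linarith⟩
  nlinarith [mul_nonneg c9 (mul_nonneg (by linarith : (0:ℝ) ≤ k) hz0)]

theorem fail_real {K : Type*} [Fintype K] [DecidableEq K] [Nonempty K] (c0 : K) {k n t C : ℕ}
    (hk : Fintype.card K = k) (hC : C = 2000 * (k + 3))
    (ht1 : 2 ^ (4800 * C) ≤ t) (ht2 : 10 ^ 15 * C ^ 2 ≤ t) {l w : ℝ}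
    (hl : (n : ℝ) = Real.exp l) (hl1 : (t : ℝ) ^ 10 ≤ l) (hl2 : l ≤ 2 * (t : ℝ) ^ 10)
    (hw0 : 0 ≤ w) (hw1 : w ≤ l) (hx : 3 * (t : ℝ) ^ 10 * (1 / 2) ^ t ≤ 1 / 2)
    {r : K → ℝ} (hr : ∀ j, (l + Real.log l + w) / n ≤ r j) (hr1 : ∑ j, r j ≤ 1) :
    Ex (fun _ : Sym2 (Fin n) => wv r) (fun f => one (¬ All c0 n f)) ≤
      k * (36 * Real.exp (-w)) + 4 * (3 * k * l) ^ 4 * k ^ 2 * Real.exp (-(1 / 5 * l)) +
      k * l * Real.exp (-(3 / 5 * l)) + 6 * k / t + 12 * ((t : ℝ) ^ 10 * (1 / 2) ^ t) +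
      (k + 2) * Real.exp (-n) := by
  have hk1 : 1 ≤ k := hk ▸ Fintype.card_pos
  have hC2 : C ≤ C ^ 2 := Nat.le_self_pow (by omega) _
  have ht3 : 10 ^ 15 * (k + 3) ≤ t := by omega
  have ht0 : 0 < t := by omega
  have hk1' : (1 : ℝ) ≤ k := by exact_mod_cast hk1
  have hC' : (C : ℝ) = 2000 * (k + 3) := by rw [hC]; push_cast; ring
  have ht2' : 2016 * (C : ℝ) ^ 2 ≤ t := by exact_mod_cast (show 2016 * C ^ 2 ≤ t by omega)
  have ht3' : 10 ^ 15 * ((k : ℝ) + 3) ≤ t := by exact_mod_cast ht3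
  have hkC : (k : ℝ) ≤ C := by rw [hC']; linarith
  have ht1' : (1 : ℝ) ≤ t := by exact_mod_cast ht0
  obtain ⟨hn1, hn2⟩ := size1 (by linarith) hl hl1 hl2
  obtain ⟨m1, hm1⟩ : ∃ m1, m1 = n / t ^ 4 + 1 := ⟨_, rfl⟩
  obtain ⟨m', hm'⟩ : ∃ m', m' = C * n / t ^ 10 + 1 := ⟨_, rfl⟩
  obtain ⟨⟨b1, b2, b3, b4⟩, b5, hh, hnum⟩ := nat_params hk1 hC ht1 hn1 hn2 (by omega) hm1 hm'
  have hm0 : 0 < m' := hm' ▸ Nat.succ_pos _
  have htn : t ≤ n := (Nat.le_self_pow (by omega) _).trans hn1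
  have hn11 : (t : ℝ) ^ 11 ≤ n := by
    exact_mod_cast (Nat.pow_le_pow_right ht0 (show 11 ≤ 30 by omega)).trans hn1
  clear ht1 ht2 hn1 hn2 hm1 hm' hC2
  have b1' : (n : ℝ) ≤ t ^ 4 * m1 := by exact_mod_cast b1
  have b2' : (t : ℝ) ^ 4 * m1 ≤ 2 * n := by exact_mod_cast b2
  have b3' : (C : ℝ) * n ≤ t ^ 10 * m' := by exact_mod_cast b3
  have b4' : (t : ℝ) ^ 10 * m' ≤ 2 * C * n := by exact_mod_cast b4
  clear b1 b2 b3 b4
  have htu : (t : ℝ) ≤ t ^ 10 := le_self_pow₀ ht1' (by omega)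
  have hl0 : 1 ≤ l := by linarith
  have hn0 : (0 : ℝ) < n := hl ▸ Real.exp_pos _
  have hm0' : (0 : ℝ) < m' := by exact_mod_cast hm0
  have b6 : (n : ℝ) ≤ t ^ 10 * m' := le_trans (le_mul_of_one_le_left hn0.le (by linarith)) b3'
  obtain ⟨W1, -, hW1⟩ := Finset.exists_subset_card_eq (s := (univ : Finset (Fin n)))
    (n := n - n / 10) (by simp)
  have hW2 : W1ᶜ.card = n / 10 := by rw [Finset.card_compl, hW1, Fintype.card_fin]; omega
  have hW3 : 89 / 100 * (n : ℝ) + 5 ≤ W1.card := by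
    have a1 : 89 * n + 500 ≤ 100 * W1.card := by rw [hW1]; omega
    have a2 : 89 * (n : ℝ) + 500 ≤ 100 * W1.card := by exact_mod_cast a1
    linarith
  rw [← hk, ← hW1, ← hW2] at hnum
  obtain ⟨p, hp⟩ : ∃ p, p = (l + Real.log l + w) / n := ⟨_, rfl⟩
  rw [← hp] at hr
  have hpn : p * n = l + Real.log l + w := by rw [hp, div_mul_cancel₀ _ hn0.ne']
  have c1 : Real.log l ≤ l := (Real.log_le_sub_one_of_pos (by linarith)).trans (by linarith)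
  have c2 : 0 ≤ Real.log l := Real.log_nonneg hl0
  obtain ⟨z, hz⟩ : ∃ z, z = l / n := ⟨_, rfl⟩
  have hzn : z * n = l := by rw [hz, div_mul_cancel₀ _ hn0.ne']
  have hz0 : 0 ≤ z := by rw [hz]; positivity
  have c3 : z ≤ p := by rw [hz, hp]; gcongr; linarith
  have c4 : p ≤ 3 * z := by rw [hz, hp, ← mul_div_assoc]; gcongr; linarith
  have c5 : k * z ≤ 1 / 10 := by
    rw [hz, ← mul_div_assoc, div_le_iff₀ hn0]
    have a2 : (k : ℝ) * l ≤ (t / 20) * (2 * t ^ 10) := by gcongr; linarith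
    have a3 : (t / 20 : ℝ) * (2 * t ^ 10) = 1 / 10 * t ^ 11 := by ring
    linarith
  obtain ⟨p0, c9, c10, c13, c11, c12, hpp⟩ := split_p hk1' hz0 c3 c4 c5
  have c14 : z * n ≤ 2 * t ^ 10 := by linarith
  have c15 : (t : ℝ) ^ 10 ≤ z * n := by linarith
  have c16 : (n : ℝ) * (3 * (k * z)) = 3 * k * l := by rw [← hzn]; ring
  have hfb := fail_bound c0 (V := Fin n) (Fintype.card_fin n) hnum b5 (p0 := p0) (p1 := z / 10)
    (τ := 1 / (4 * 10 ^ 6)) c9 (by linarith) (by rw [hk]; exact c13) (by rw [hk]; linarith)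
    (by rw [hk]; exact hpp) (by norm_num) (by norm_num) hr hr1
  have hgb := good_bound (K := K) (V := Fin n) (W1 := W1) (D := 6 * t) (T0 := t) (T1 := t ^ 8)
    (d0 := 28 * t ^ 9) (m1 := m1) (m' := m') (E0 := n * t ^ 11) (Fintype.card_fin n)
    (p0 := p0) (p1 := z / 10) (p := p) (R := 3 * (k * z)) (g := 89 / 100 * n)
    (x0 := 3 * (t : ℝ) ^ 10 * (1 / 2) ^ t) (x1 := 3 * (t : ℝ) ^ 10 * (1 / 2) ^ t)
    c9 (by linarith) (by rw [hk]; exact c13) (by rw [hk]; linarith) (by rw [hk]; exact hpp) c12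
    (by rw [hk]; exact c11)
    (by rw [c16, mul_assoc]; linarith [one_le_mul_of_one_le_of_one_le hk1' hl0]) hW3
    hm0 (Nat.mul_pos (by exact_mod_cast hn0) (by positivity))
    (by
      rw [hk]; push_cast
      exact cond1 (by positivity) hkC ht1' ht2' hz0 (by positivity) c14 b2')
    (Nat.one_le_pow _ _ ht0)
    (cond3 hn0 (by
      rw [hk]; push_cast
      calc (n : ℝ) ≤ t ^ 4 * m1 := b1'
        _ = t ^ 4 * (1 * (1 * 1 * m1) * 1) := by ring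
        _ ≤ _ := by
          gcongr
          · norm_num
          · norm_num
          · norm_num
          · linarith) (Nat.le_self_pow (by omega) _))
    hx
    (by
      push_cast
      exact cond2 (by positivity) hkC ht1' ht2' hz0 hm0'.le c14 b4')
    ht0 (cond3 hn0 (by push_cast; rw [mul_left_comm]; linarith) le_rfl) hx
  rw [hk] at hfb hgb
  refine hfb.trans ((add_le_add hgb le_rfl).trans ?_)
  clear hfb hgb hnum
  have hρ := term_rho (t := t) (by linarith) hl1 hzn hn0 c10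
  have T1 := term1 (n := n) (by omega) hl hl0 hw1 hpn (by linarith) c12
  have T1' : (n : ℝ) * (k * ((1 - p) ^ (n - 1) + n * (p * (1 - p) ^ (n - 2)))) ≤
      k * (36 * Real.exp (-w)) := by
    rw [mul_left_comm]; gcongr
  have T2 : 4 * ((n : ℝ) * (n * (3 * (k * z))) ^ 4 * (k ^ 2 *
      ((10 : ℝ) ^ (28 * t ^ 9) * Real.exp (-(9 / 10 * p0 * (89 / 100 * n)))) ^ 2)) ≤
      4 * (3 * k * l) ^ 4 * k ^ 2 * Real.exp (-(1 / 5 * l)) := by
    have a2 : (n : ℝ) * Real.exp (-(3 / 5 * l)) ^ 2 = Real.exp (-(1 / 5 * l)) := by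
      rw [hl, pow_two, ← Real.exp_add, ← Real.exp_add]; congr 1; ring
    rw [c16, ← a2]
    calc _ ≤ 4 * ((n : ℝ) * (3 * k * l) ^ 4 * (k ^ 2 * Real.exp (-(3 / 5 * l)) ^ 2)) := by gcongr
      _ = _ := by ring
  have T3 : 1 / (m' : ℝ) * (n * (k *
      ((10 : ℝ) ^ (28 * t ^ 9) * Real.exp (-(9 / 10 * p0 * (89 / 100 * n)))))) ≤
      k * l * Real.exp (-(3 / 5 * l)) := by
    have a1 : 1 / (m' : ℝ) * n ≤ l := by
      rw [one_div, ← div_eq_inv_mul, div_le_iff₀ hm0']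
      exact b6.trans (by gcongr)
    calc _ ≤ 1 / (m' : ℝ) * (n * (k * Real.exp (-(3 / 5 * l)))) := by gcongr
      _ = k * (1 / (m' : ℝ) * n) * Real.exp (-(3 / 5 * l)) := by ring
      _ ≤ _ := by gcongr
  have T4 : 1 / ((n * t ^ 11 : ℕ) : ℝ) * (n ^ 2 * (3 * (k * z))) ≤ 6 * k / t := by
    push_cast
    calc _ = 3 * k * (z * n) / t ^ 11 := by field_simp
      _ ≤ 3 * k * (2 * t ^ 10) / t ^ 11 := by gcongr
      _ = _ := by field_simp; ring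
  have T6 := term6 (by linarith) hn0 hz0 c15 b1' c10
  have T7 := term7 (k := k) (by omega) hm0 hz0 c15 (hC' ▸ b3')
  have T8 := term8 (k := k) (n := n) (by omega) hz0 (by linarith)
  have T6' : (k : ℝ) * (4 ^ n * Real.exp (-(p0 * m1 ^ 2))) ≤ k * Real.exp (-n) := by gcongr
  rw [mul_add ((k : ℝ) ^ n)]
  linarith

end Pool.Agent.Lib.MP_753083_pr
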