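import Pool.Agent.Lib.MP_753083_pr.Tree

set_option autoImplicit false
set_option linter.unusedSectionVars false
open Finset

namespace Pool.Agent.Lib.MP_753083_pr

variable {V K : Type*} [Fintype V] [DecidableEq V] [Fintype K] [DecidableEq K]

lemma closure {Adj : V → Finset V} {T0 m' : ℕ} (hm' : 0 < m')
    (hsp : ∀ S : Finset V, S.card ≤ 2 * m' → ∑ u ∈ S, (Adj u ∩ S).card ≤ T0 * S.card)
    {B : Finset V} (hB : B.card ≤ m') (W : Finset V) :
    ∃ R : Finset V, B ⊆ R ∧ R ⊆ B ∪ W ∧ R.card ≤ 2 * m' ∧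
      ∀ v ∈ W, v ∉ R → (Adj v ∩ R).card ≤ 2 * T0 := by
  classical
  let P : Finset V → Prop := fun R => B ⊆ R ∧ R ⊆ B ∪ W ∧ R.card ≤ B.card + m' ∧
    (2 * T0 + 1) * R.card ≤ (2 * T0 + 1) * B.card + ∑ u ∈ R, (Adj u ∩ R).card
  obtain ⟨R, hR, hmax⟩ := Finset.exists_max_image (univ.filter P) Finset.card
    ⟨B, by simp [P]⟩
  obtain ⟨h1, h2, h3, h4⟩ : P R := (Finset.mem_filter.1 hR).2
  refine ⟨R, h1, h2, by omega, fun v hv hvR => ?_⟩
  by_contra hcon
  have h5 := hsp R (by omega)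
  have h6 : R.card < B.card + m' := by
    by_contra h7
    have h8 : R.card = B.card + m' := by omega
    rw [h8] at h4 h5
    nlinarith
  have h7 : P (insert v R) := by
    refine ⟨h1.trans (Finset.subset_insert _ _),
      Finset.insert_subset (Finset.mem_union_right _ hv) h2,
      by rw [Finset.card_insert_of_notMem hvR]; omega, ?_⟩
    rw [Finset.card_insert_of_notMem hvR, Finset.sum_insert hvR]
    have a1 : (Adj v ∩ R).card ≤ (Adj v ∩ insert v R).card :=
      Finset.card_le_card (Finset.inter_subset_inter_left (Finset.subset_insert _ _))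
    have a2 : ∑ u ∈ R, (Adj u ∩ R).card ≤ ∑ u ∈ R, (Adj u ∩ insert v R).card :=
      Finset.sum_le_sum fun u _ =>
        Finset.card_le_card (Finset.inter_subset_inter_left (Finset.subset_insert _ _))
    rw [mul_add]
    omega
  have h8 := hmax _ (Finset.mem_filter.2 ⟨Finset.mem_univ _, h7⟩)
  rw [Finset.card_insert_of_notMem hvR] at h8
  omega

lemma card_inter_le_of_subset {A Z Z1 Z2 : Finset V} (h : Z ⊆ Z1 ∪ Z2) :
    (A ∩ Z).card ≤ (A ∩ Z1).card + (A ∩ Z2).card := by
  refine le_trans (Finset.card_le_card ?_) (Finset.card_union_le _ _)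
  rw [← Finset.inter_union_distrib_left]
  exact Finset.inter_subset_inter_left h

lemma card_inter_insert_le (A Z : Finset V) (r : V) :
    (A ∩ insert r Z).card ≤ (A ∩ Z).card + 1 := by
  refine le_trans (Finset.card_le_card ?_) (Finset.card_insert_le r _)
  intro y hy
  simp only [Finset.mem_inter, Finset.mem_insert] at hy ⊢
  tauto

theorem cover {X W1 B : Finset V} {G : V → K → Finset V} {Adj P : V → Finset V}
    {ok : V → V → K → Prop} {m D D' T0 T2 M hh m1 m' Lm : ℕ} (c : ℕ → K)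
    (hexp : ∀ A ⊆ Lb K X, A.card ≤ 2 * m → D * A.card ≤ (A.biUnion (Gm G)).card)
    (hbig : ∀ A ⊆ Lb K X, m ≤ A.card → M ≤ (A.biUnion (Gm G)).card)
    (hW : ∀ v j, G v j ⊆ W1) (hD : D' + (T2 + 2 * T0 + 2) ≤ D) (hD' : 2 ≤ D')
    (hok : ∀ v j, ∀ y ∈ G v j, ok v y j ∧ ok y v j)
    (hjoin : ∀ j (A B : Finset V), Disjoint A B → m1 ≤ A.card → m1 ≤ B.card →
      ∃ x ∈ A, ∃ y ∈ B, ok x y j)
    (hh2 : 2 ≤ hh) (hm1 : m1 ≤ D' ^ hh)
    (hGA : ∀ v j, G v j ⊆ Adj v) (hm' : 0 < m')
    (hsp : ∀ S : Finset V, S.card ≤ 2 * m' → ∑ u ∈ S, (Adj u ∩ S).card ≤ T0 * S.card)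
    (hB : B.card ≤ m') (hBX : ∀ v ∈ B, v ∉ X) (hX : X.card ≤ m')
    (hP : ∀ v ∈ X, ∀ j j', ∃ u ∈ P v, ∃ w ∈ P v, u ≠ w ∧ ok u v j ∧ ok v w j')
    (hPX : ∀ v ∈ X, ∀ u ∈ P v, u ∉ X)
    (hPd : ∀ v ∈ X, ∀ v' ∈ X, v ≠ v' → Disjoint (P v) (P v'))
    (hY : ∀ u ∉ X, (Adj u ∩ (X ∪ X.biUnion P)).card ≤ T2)
    (hW1 : (X ∪ X.biUnion P).card + m' < W1.card)
    (hLm : 3 * m' * (2 * hh + 3) + 2 ≤ Lm)
    (hM : Lm + 1 + 2 * (D * D' ^ hh) + 2 * m * D < M) :
    ∃ (q : ℕ → V) (len : ℕ), 2 ≤ len ∧ len ≤ Lm ∧ (∀ i ≤ len, ∀ j ≤ len, q i = q j → i = j) ∧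
      (∀ i < len, ok (q i) (q (i + 1)) (c i)) ∧ q 0 ∉ X ∧ q 0 ∉ B ∧ q len ∉ X ∧ q len ∉ B ∧
      (∀ v ∈ X, ∃ i ≤ len, q i = v) ∧ (∀ v ∈ B, ∃ i ≤ len, q i = v) ∧
      ∀ i ≤ len, q i ∈ X ∪ X.biUnion P ∨ q i ∈ B ∨ q i ∈ W1 := by
  classical
  obtain ⟨Y, hYd⟩ : ∃ Y, Y = X ∪ X.biUnion P := ⟨_, rfl⟩
  rw [← hYd] at hY hW1 ⊢
  have hXY : X ⊆ Y := hYd ▸ Finset.subset_union_left
  have hPY : ∀ v ∈ X, ∀ u ∈ P v, u ∈ Y := fun v hv u hu =>
    hYd ▸ Finset.mem_union_right _ (Finset.mem_biUnion.2 ⟨v, hv, hu⟩)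
  obtain ⟨a0, ha1, ha2⟩ : ∃ a0 ∈ W1, a0 ∉ Y ∪ B := by
    apply Finset.exists_mem_notMem_of_card_lt_card
    have := Finset.card_union_le Y B
    omega
  rw [Finset.mem_union, not_or] at ha2
  obtain ⟨T, hT⟩ : ∃ T, T = T2 + 2 * T0 + 2 := ⟨_, rfl⟩
  rw [← hT] at hD
  have hXZ : X ⊆ insert a0 Y := hXY.trans (Finset.subset_insert _ _)
  have hd0 : ∀ u ∉ X, (Adj u ∩ insert a0 Y).card ≤ T2 + 1 := fun u hu =>
    (card_inter_insert_le _ _ _).trans (by have := hY u hu; omega)
  have hGle : ∀ u j (Z : Finset V), (G u j ∩ Z).card ≤ (Adj u ∩ Z).card := fun u j Z =>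
    Finset.card_le_card (Finset.inter_subset_inter_right (hGA u j))
  have hd1 : ∀ u ∉ X, ∀ j, (G u j ∩ insert a0 Y).card ≤ T := fun u hu j =>
    (hGle _ _ _).trans ((hd0 u hu).trans (by omega))
  -- phase 1
  have ph1 : ∀ X' : Finset V, X' ⊆ X → ∃ q len par, St X W1 G m D ok c (insert a0 Y) q len par ∧
      q 0 = a0 ∧ len ≤ X'.card * (2 * hh + 3) ∧ (∀ v ∈ X', ∃ i ≤ len, q i = v) ∧
      ∀ v ∈ X, v ∉ X' → ∀ i ≤ len, q i ≠ v ∧ q i ∉ P v := by
    intro X'
    induction X' using Finset.induction_on with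
    | empty =>
      intro _
      refine ⟨fun _ => a0, 0, fun _ => none, ⟨fun i hi j hj _ => by omega, by simp, ?_, by simp,
        by simp, by simp, by simp, fun h => ha2.1 (hXY h)⟩, rfl, by simp, by simp, ?_⟩
      · intro A hA hc
        refine (hexp A hA hc).trans (le_of_eq ?_)
        congr 1
        ext y; simp [Nb]
      · intro v hv _ i _
        exact ⟨fun h => ha2.1 (hXY ((show a0 = v from h) ▸ hv)), fun h => ha2.1 (hPY v hv _ h)⟩
    | insert v X' hv ih =>
      intro hsub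
      have hvX : v ∈ X := hsub (Finset.mem_insert_self _ _)
      obtain ⟨q, len, par, h1, h2, h3, h4, h5⟩ := ih ((Finset.subset_insert _ _).trans hsub)
      have hc := Finset.card_le_card hsub
      rw [Finset.card_insert_of_notMem hv] at hc ⊢
      have hlen : len + 2 * hh + 3 ≤ (X'.card + 1) * (2 * hh + 3) := by rw [add_mul]; omega
      have hlen2 : (X'.card + 1) * (2 * hh + 3) ≤ 3 * m' * (2 * hh + 3) :=
        Nat.mul_le_mul_right _ (by omega)
      obtain ⟨u, hu, w, hw, huw, o1, o2⟩ := hP v hvX (c (len + 2 * hh + 1)) (c (len + 2 * hh + 1 + 1))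
      have huZ : u ∈ insert a0 Y := Finset.mem_insert_of_mem (hPY v hvX u hu)
      have hwZ : w ∈ insert a0 Y := Finset.mem_insert_of_mem (hPY v hvX w hw)
      obtain ⟨q1, p1, s1, s2, s3, s4⟩ := h1.conn hbig hW hXZ hD hD' hok hjoin (by omega) hm1
        (by omega) huZ (hPX v hvX u hu) (fun i hi h => (h5 v hvX hv i hi).2 (h ▸ hu))
        (hd1 _ h1.endX) (hd1 _ (hPX v hvX u hu))
        (fun z _ hz _ => hd1 z fun h => hz (hXZ h))
      have hav : ∀ z ∈ insert a0 Y, z ≠ u → (∀ i ≤ len, q i ≠ z) → ∀ i ≤ len + 2 * hh + 1, q1 i ≠ z := by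
        intro z hz hzu hzq i hi
        by_cases a : i ≤ len
        · rw [s3 i a]; exact hzq i a
        · by_cases a' : i ≤ len + 2 * hh
          · intro h; exact s4 i (by omega) a' (h ▸ hz)
          · obtain rfl : i = len + 2 * hh + 1 := by omega
            rw [s2]; exact hzu.symm
      have hvw : v ≠ w := fun h => hPX v hvX w hw (h ▸ hvX)
      have hvu : v ≠ u := fun h => hPX v hvX u hu (h ▸ hvX)
      have s5 := s1.block (hXZ hvX) hwZ (hPX v hvX w hw) hvw
        (hav v (hXZ hvX) hvu fun i hi => (h5 v hvX hv i hi).1)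
        (hav w hwZ huw.symm fun i hi h => (h5 v hvX hv i hi).2 (h ▸ hw))
        (by rw [s2]; exact o1) o2
      refine ⟨_, _, _, s5, by simp [s3 0 (Nat.zero_le _), h2], by omega, fun z hz => ?_,
        fun z hz hz' i hi => ?_⟩
      · rcases Finset.mem_insert.1 hz with rfl | hz
        · exact ⟨len + 2 * hh + 1 + 1, by omega, by simp⟩
        · obtain ⟨i, hi, rfl⟩ := h4 z hz
          exact ⟨i, by omega, by simp [show i ≤ len + 2 * hh + 1 by omega, s3 i hi]⟩
      · rw [Finset.mem_insert, not_or] at hz'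
        have hd := hPd z hz v hvX hz'.1
        try dsimp only
        split_ifs with a1 a2
        · refine ⟨hav z (hXZ hz) (fun h => hPX v hvX u hu (h ▸ hz))
            (fun i hi => (h5 z hz hz'.2 i hi).1) i a1, fun h => ?_⟩
          exact hav (q1 i) (Finset.mem_insert_of_mem (hPY z hz _ h))
            (fun h' => Finset.disjoint_left.1 hd h (h' ▸ hu))
            (fun i' hi' h' => (h5 z hz hz'.2 i' hi').2 (h' ▸ h)) i a1 rfl
        · exact ⟨fun h => hz'.1 h.symm, fun h => hPX z hz v h hvX⟩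
        · exact ⟨fun h => hPX v hvX w hw (h ▸ hz), fun h => Finset.disjoint_left.1 hd h hw⟩
  obtain ⟨q0, len0, par0, t1, t2, t3, t4, -⟩ := ph1 X (Finset.Subset.refl _)
  obtain ⟨R, r1, r2, r3, r4⟩ := closure hm' hsp hB (W1 \ X)
  have hRX : ∀ v ∈ R, v ∉ X := by
    intro v hv
    rcases Finset.mem_union.1 (r2 hv) with h | h
    · exact hBX v h
    · exact (Finset.mem_sdiff.1 h).2
  -- phase 2
  have ph2 : ∀ s : ℕ, ∀ S : Finset V, S.card = s → S ⊆ R →
      (∀ v ∈ W1 \ X, v ∉ S → (Adj v ∩ S).card ≤ 2 * T0) →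
      ∃ q len par Z', Z' ⊆ S ∧ St X W1 G m D ok c (insert a0 Y ∪ Z') q len par ∧ q 0 = a0 ∧
        len ≤ len0 + s * (2 * hh + 1) ∧ (∀ v ∈ X, ∃ i ≤ len, q i = v) ∧
        (∀ v ∈ S, ∃ i ≤ len, q i = v) ∧ (Adj (q len) ∩ Z').card ≤ T0 := by
    intro s
    induction s with
    | zero =>
      intro S hS _ _
      rw [Finset.card_eq_zero] at hS
      subst hS
      exact ⟨q0, len0, par0, ∅, Finset.Subset.refl _, t1.mono Finset.subset_union_left, t2,
        by omega, t4, by simp, by simp⟩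
    | succ s ih =>
      intro S hS hSR hSd
      have hSc := Finset.card_le_card hSR
      obtain ⟨r, hr, hrd⟩ : ∃ r ∈ S, (Adj r ∩ S).card ≤ T0 := by
        apply Finset.exists_le_of_sum_le (Finset.card_pos.1 (by omega))
        rw [Finset.sum_const, smul_eq_mul, mul_comm]
        exact hsp S (by omega)
      have hmono : ∀ v, (Adj v ∩ S.erase r).card ≤ (Adj v ∩ S).card := fun v =>
        Finset.card_le_card (Finset.inter_subset_inter_left (Finset.erase_subset _ _))
      obtain ⟨q, len, par, Z', u1, u2, u3, u4, u5, u6, u7⟩ := ih (S.erase r)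
        (by rw [Finset.card_erase_of_mem hr]; omega) ((Finset.erase_subset _ _).trans hSR)
        (fun v hv hvS => by
          by_cases hvr : v = r
          · subst hvr; have := hmono v; omega
          · exact (hmono v).trans (hSd v hv fun h => hvS (Finset.mem_erase.2 ⟨hvr, h⟩)))
      have hZS : Z' ⊆ S := u1.trans (Finset.erase_subset _ _)
      by_cases hrq : ∃ i ≤ len, q i = r
      · refine ⟨q, len, par, Z', hZS, u2, u3, by rw [add_mul]; omega, u5, fun v hv => ?_, u7⟩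
        by_cases hvr : v = r
        · subst hvr; exact hrq
        · exact u6 v (Finset.mem_erase.2 ⟨hvr, hv⟩)
      · push Not at hrq
        have hZ2 : insert r Z' ⊆ S := Finset.insert_subset hr hZS
        have hle : ∀ v ∉ X, ∀ j, (G v j ∩ (insert a0 Y ∪ insert r Z')).card ≤
            T2 + 1 + (Adj v ∩ insert r Z').card := fun v hv j =>
          (hGle _ _ _).trans ((card_inter_le_of_subset (Finset.Subset.refl _)).trans
            (by have := hd0 v hv; omega))
        have hle2 : ∀ v, (Adj v ∩ insert r Z').card ≤ (Adj v ∩ S).card := fun v =>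
          Finset.card_le_card (Finset.inter_subset_inter_left hZ2)
        have hXZ' : X ⊆ insert a0 Y ∪ insert r Z' := hXZ.trans Finset.subset_union_left
        have hl1 : len0 ≤ m' * (2 * hh + 3) := t3.trans (Nat.mul_le_mul_right _ hX)
        have hl2 : s * (2 * hh + 1) ≤ 2 * m' * (2 * hh + 3) := Nat.mul_le_mul (by omega) (by omega)
        have hl3 : 3 * m' * (2 * hh + 3) = m' * (2 * hh + 3) + 2 * m' * (2 * hh + 3) := by ring
        obtain ⟨q1, p1, s1, s2, s3, s4⟩ := (u2.mono (Z' := insert a0 Y ∪ insert r Z')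
          (Finset.union_subset_union_right (Finset.subset_insert _ _))).conn hbig hW hXZ' hD hD'
          hok hjoin (by omega) hm1 (by omega) (r := r) (by simp) (hRX r (hSR hr)) hrq
          (fun j => (hle _ u2.endX j).trans
            (by have := card_inter_insert_le (Adj (q len)) Z' r; omega))
          (fun j => (hle _ (hRX r (hSR hr)) j).trans (by have := hle2 r; omega))
          (fun v hv hvZ hp j => by
            have hvX : v ∉ X := fun h => hvZ (hXZ' h)
            have hvS : v ∉ S := by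
              intro h
              have hvr : v ≠ r := fun h' => hvZ (by simp [h'])
              obtain ⟨i, hi, rfl⟩ := u6 v (Finset.mem_erase.2 ⟨hvr, h⟩)
              rcases u2.cov i hi with h' | h'
              · exact hvZ (Finset.union_subset_union_right (Finset.subset_insert _ _) h')
              · exact h' hp
            have := hSd v (Finset.mem_sdiff.2 ⟨hv, hvX⟩) hvS
            have := hle2 v
            exact (hle v hvX j).trans (by omega))
        refine ⟨q1, _, p1, insert r Z', hZ2, s1, by rw [s3 0 (Nat.zero_le _), u3],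
          by rw [add_mul]; omega, fun v hv => ?_, fun v hv => ?_, by rw [s2]; exact (hle2 r).trans hrd⟩
        · obtain ⟨i, hi, rfl⟩ := u5 v hv
          exact ⟨i, by omega, s3 i hi⟩
        · by_cases hvr : v = r
          · subst hvr; exact ⟨_, le_rfl, s2⟩
          · obtain ⟨i, hi, rfl⟩ := u6 v (Finset.mem_erase.2 ⟨hvr, hv⟩)
            exact ⟨i, by omega, s3 i hi⟩
  obtain ⟨q, len, par, Z', u1, u2, u3, u4, u5, u6, u7⟩ := ph2 R.card R rfl (Finset.Subset.refl _) r4
  have hl1 : len0 ≤ m' * (2 * hh + 3) := t3.trans (Nat.mul_le_mul_right _ hX)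
  have hl2 : R.card * (2 * hh + 1) ≤ 2 * m' * (2 * hh + 3) := Nat.mul_le_mul r3 (by omega)
  have hl3 : 3 * m' * (2 * hh + 3) = m' * (2 * hh + 3) + 2 * m' * (2 * hh + 3) := by ring
  have hl4 : D * D' ^ 2 ≤ D * D' ^ hh := Nat.mul_le_mul_left _ (Nat.pow_le_pow_right (by omega) hh2)
  have hXZ' : X ⊆ insert a0 Y ∪ Z' := hXZ.trans Finset.subset_union_left
  have hle : ∀ v ∉ X, ∀ j, (G v j ∩ (insert a0 Y ∪ Z')).card ≤
      T2 + 1 + (Adj v ∩ Z').card := fun v hv j =>
    (hGle _ _ _).trans ((card_inter_le_of_subset (Finset.Subset.refl _)).trans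
      (by have := hd0 v hv; omega))
  obtain ⟨q', v1, v2, v3, v4, v5⟩ := u2.last (T := T) hbig hW hXZ' hD hD' hok (by omega)
    (fun j => (hle _ u2.endX j).trans (by omega))
    (fun v hv hvZ hp j => by
      have hvX : v ∉ X := fun h => hvZ (hXZ' h)
      have hvS : v ∉ R := by
        intro h
        obtain ⟨i, hi, rfl⟩ := u6 v h
        rcases u2.cov i hi with h' | h'
        · exact hvZ h'
        · exact h' hp
      have := r4 v (Finset.mem_sdiff.2 ⟨hv, hvX⟩) hvS
      have : (Adj v ∩ Z').card ≤ (Adj v ∩ R).card :=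
        Finset.card_le_card (Finset.inter_subset_inter_left u1)
      exact (hle v hvX j).trans (by omega))
  have h0 : q' 0 = a0 := by rw [v3 0 (Nat.zero_le _), u3]
  refine ⟨q', len + 2, by omega, by omega, v1, v2, by rw [h0]; exact fun h => ha2.1 (hXY h),
    by rw [h0]; exact ha2.2, fun h => v5 (hXZ' h), fun h => ?_, fun v hv => ?_, fun v hv => ?_,
    fun i hi => ?_⟩
  · obtain ⟨i, hi, h1⟩ := u6 _ (r1 h)
    rw [← v3 i hi] at h1
    have := v1 i (by omega) _ le_rfl h1
    omega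
  · obtain ⟨i, hi, rfl⟩ := u5 v hv
    exact ⟨i, by omega, v3 i hi⟩
  · obtain ⟨i, hi, rfl⟩ := u6 v (r1 hv)
    exact ⟨i, by omega, v3 i hi⟩
  · rcases v4 i hi with h | h
    · rcases Finset.mem_union.1 h with h | h
      · rcases Finset.mem_insert.1 h with h | h
        · rw [h]; exact Or.inr (Or.inr ha1)
        · exact Or.inl h
      · rcases Finset.mem_union.1 (r2 (u1 h)) with h | h
        · exact Or.inr (Or.inl h)
        · exact Or.inr (Or.inr (Finset.mem_sdiff.1 h).1)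
    · exact Or.inr (Or.inr h)

end Pool.Agent.Lib.MP_753083_pr
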