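import Mathlib

set_option autoImplicit false

namespace Pool.Agent.Lib.MP_753083_pr

/-- the pairs of distinct vertices of the vertex set Fin n -/
abbrev Pair (n : ℕ) := {e : Sym2 (Fin n) // ¬ e.IsDiag}

/-- law of one pair: no edge with probability 1 - q, an edge of colour j with probability q * α j -/
def pairLaw {k : ℕ} (q : ℝ) (α : Fin k → ℝ) : Option (Fin k) → ℝ
  | none => 1 - q
  | some j => q * α j

/-- the coloured graph f has a Hamilton cycle x 0, x 1, ..., whose i-th edge has colour c i -/
def HasCycle {n k : ℕ} (f : Pair n → Option (Fin k)) (c : Fin n → Fin k) : Prop :=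
  ∃ x : Equiv.Perm (Fin n), ∀ i : Fin n, ∃ h : ¬ s(x i, x (finRotate n i)).IsDiag,
    f ⟨s(x i, x (finRotate n i)), h⟩ = some (c i)

open Classical in
/-- probability that the random coloured graph has a c-coloured Hamilton cycle for all c at once -/
noncomputable def probAll {k : ℕ} (n : ℕ) (q : ℝ) (α : Fin k → ℝ) : ℝ :=
  ∑ f : Pair n → Option (Fin k),
    (∏ e, pairLaw q α (f e)) * if ∀ c : Fin n → Fin k, HasCycle f c then 1 else 0

end Pool.Agent.Lib.MP_753083_pr
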