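import Pool.Agent.Lib.MP_753083_pr.Posa

set_option autoImplicit false
set_option linter.unusedSectionVars false
open Finset

namespace Pool.Agent.Lib.MP_753083_pr

variable {V K : Type*} [Fintype V] [DecidableEq V]

lemma badset {jk : V → V → Prop} {X W : Finset V} {m' s N : ℕ} (hm' : 0 < m')
    (hjj : ∀ A C : Finset V, Disjoint A C → (∀ v ∈ A, v ∉ X) → (∀ v ∈ C, v ∉ X) → m' ≤ A.card →
      N ≤ 40 * C.card → ∃ u ∈ A, ∃ v ∈ C, jk u v)
    (hWX : ∀ v ∈ W, v ∉ X) (hW : 320 * (s + m') + N ≤ 40 * W.card) :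
    ∃ B : Finset V, (∀ v ∈ B, v ∉ X) ∧ B.card ≤ m' ∧ ∀ U : Finset V, (∀ v ∈ U, v ∉ X ∧ v ∉ B) →
      U.Nonempty → U.card ≤ s → 7 * U.card < (Nh jk (W \ B) U).card := by
  classical
  let g : Finset V → Finset V := fun U => Nh jk W U ∪ U
  have h1 : ∀ U : Finset V, (∀ v ∈ U, v ∉ X) → m' ≤ U.card → U.card ≤ s + m' →
      8 * U.card < (g U).card := by
    intro U hU a1 a2
    by_contra hcon
    have a3 := Finset.le_card_sdiff (g U) W
    obtain ⟨u, hu, v, hv, huv⟩ := hjj U (W \ g U)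
      (Finset.disjoint_left.2 fun v hv hv' =>
        (Finset.mem_sdiff.1 hv').2 (Finset.mem_union_right _ hv))
      hU (fun v hv => hWX v (Finset.mem_sdiff.1 hv).1) a1 (by omega)
    rw [Finset.mem_sdiff] at hv
    apply hv.2
    by_cases hvU : v ∈ U
    · exact Finset.mem_union_right _ hvU
    · exact Finset.mem_union_left _ (mem_Nh.2 ⟨hv.1, hvU, u, hu, huv⟩)
  let Bad : Finset V → Prop := fun U => (∀ v ∈ U, v ∉ X) ∧ U.card < m' ∧ (g U).card ≤ 8 * U.card
  obtain ⟨B, hB, hmax⟩ := Finset.exists_max_image (univ.filter Bad) Finset.card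
    ⟨∅, by simp [Bad, g, Nh, hm']⟩
  obtain ⟨b1, b2, b3⟩ : Bad B := (Finset.mem_filter.1 hB).2
  refine ⟨B, b1, b2.le, fun U hU hne hc => ?_⟩
  have hd : Disjoint U B := Finset.disjoint_left.2 fun v hv => (hU v hv).2
  have hc2 := Finset.card_union_of_disjoint hd
  have hX2 : ∀ v ∈ U ∪ B, v ∉ X := fun v hv =>
    (Finset.mem_union.1 hv).elim (fun h => (hU v h).1) (b1 v)
  have hpos := Finset.card_pos.2 hne
  have h2 : 8 * (U ∪ B).card < (g (U ∪ B)).card := by
    by_cases a : m' ≤ (U ∪ B).card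
    · exact h1 _ hX2 a (by omega)
    · by_contra hcon
      have := hmax (U ∪ B) (Finset.mem_filter.2 ⟨Finset.mem_univ _, hX2, by omega, by omega⟩)
      omega
  have h3 : g (U ∪ B) ⊆ Nh jk (W \ B) U ∪ U ∪ g B := by
    intro v hv
    simp only [g, Finset.mem_union, mem_Nh, Finset.mem_sdiff, not_or] at hv ⊢
    rcases hv with ⟨a1, a2, u, a3 | a3, a4⟩ | a | a
    · exact Or.inl (Or.inl ⟨⟨a1, a2.2⟩, a2.1, u, a3, a4⟩)
    · exact Or.inr (Or.inl ⟨a1, a2.2, u, a3, a4⟩)
    · exact Or.inl (Or.inr a)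
    · exact Or.inr (Or.inr a)
  have h4 := (Finset.card_le_card h3).trans (Finset.card_union_le _ _)
  have h5 := Finset.card_union_le (Nh jk (W \ B) U) U
  omega

lemma card_le_two_mul_image (A : Finset (V × V)) :
    A.card ≤ 2 * (A.image fun p => s(p.1, p.2)).card := by
  refine Finset.card_le_mul_card_image A 2 fun e he => ?_
  obtain ⟨p, -, rfl⟩ := Finset.mem_image.1 he
  refine le_trans (Finset.card_le_card (t := {p, p.swap}) fun x hx => ?_) Finset.card_le_two
  have := (Finset.mem_filter.1 hx).2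
  rw [Sym2.eq_iff] at this
  rw [Finset.mem_insert, Finset.mem_singleton]
  rcases this with h | h
  · exact Or.inl (Prod.ext h.1 h.2)
  · exact Or.inr (Prod.ext h.1 h.2)

def Wit (ok : V → V → K → Prop) (c : ℕ → K) (N : ℕ) : Prop :=
  ∃ x : ℕ → V, (∀ i < N, ∀ j < N, x i = x j → i = j) ∧ x N = x 0 ∧
    ∀ i < N, ok (x i) (x (i + 1)) (c i)

theorem finish {jk : V → V → Prop} (hs : ∀ u v, jk u v → jk v u) {X W B : Finset V}
    {m' s N E0 β len : ℕ} (hN : Fintype.card V = N)
    (hjj : ∀ A C : Finset V, Disjoint A C → (∀ v ∈ A, v ∉ X) → (∀ v ∈ C, v ∉ X) → m' ≤ A.card →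
      N ≤ 40 * C.card → ∃ u ∈ A, ∃ v ∈ C, jk u v)
    (hB : ∀ U : Finset V, (∀ v ∈ U, v ∉ X ∧ v ∉ B) →
      U.Nonempty → U.card ≤ s → 7 * U.card < (Nh jk (W \ B) U).card)
    {ok : V → V → K → Prop} {c : ℕ → K} {q : ℕ → V} (h2 : 2 ≤ len) (hlen : 2 * len ≤ N)
    (hinj : ∀ i ≤ len, ∀ j ≤ len, q i = q j → i = j)
    (hok : ∀ i < len, ok (q i) (q (i + 1)) (c i))
    (h0X : q 0 ∉ X) (h0B : q 0 ∉ B) (hlX : q len ∉ X) (hlB : q len ∉ B)
    (hXq : ∀ v ∈ X, ∃ i ≤ len, q i = v) (hBq : ∀ v ∈ B, ∃ i ≤ len, q i = v)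
    (hqW : ∀ i ≤ len, q i ∈ W → q i ∈ B) (hms : m' ≤ s) (hN5 : 5 ≤ N)
    {F Ea : Finset (Sym2 V)} (hF : ∀ u v, u ∉ X → v ∉ X → s(u, v) ∉ Ea → s(u, v) ∈ F)
    (hEa : Ea.card ≤ E0) (hβ : 2 * (β + E0) + 2 * N ≤ s ^ 2) :
    ∃ (S : Finset V) (H : V → V → Prop) (F0 : Finset (Sym2 V)), F0 ⊆ F ∧ S.Nonempty ∧
      (∀ F', score (Hf H F') S < S.card →
        β ≤ (F0.filter fun e => score (Hf H F') S < score (Hf H (insert e F')) S).card) ∧
      ∀ F' ⊆ F0, Ham (Hf H F') S →
        Wit (fun u v j => ok u v j ∨ jk u v ∨ s(u, v) ∈ F') c N := by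
  classical
  let I : Finset V := (Finset.Ioo 0 len).image q
  have hI : I.card = len - 1 := by
    rw [Finset.card_image_of_injOn, Nat.card_Ioo, Nat.sub_zero]
    intro i hi j hj hij
    simp only [Finset.coe_Ioo, Set.mem_Ioo] at hi hj
    exact hinj i hi.2.le j hj.2.le hij
  have hmI : ∀ v, v ∈ I ↔ ∃ i, 0 < i ∧ i < len ∧ q i = v := by
    intro v; simp only [I, Finset.mem_image, Finset.mem_Ioo, and_assoc]
  obtain ⟨z, hz⟩ : ∃ z, z = q 1 := ⟨_, rfl⟩
  have hzI : z ∈ I := (hmI z).2 ⟨1, by omega, by omega, hz.symm⟩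
  have h0I : q 0 ∉ I := fun h => by
    obtain ⟨i, a1, a2, a3⟩ := (hmI _).1 h
    have := hinj i a2.le 0 (by omega) a3; omega
  have hlI : q len ∉ I := fun h => by
    obtain ⟨i, a1, a2, a3⟩ := (hmI _).1 h
    have := hinj i a2.le len le_rfl a3; omega
  have h0l : q 0 ≠ q len := fun h => by have := hinj 0 (by omega) len le_rfl h; omega
  have hXI : ∀ v, v ∉ I → v ∉ X ∧ v ∉ B := by
    intro v hv
    have : ∀ i ≤ len, q i = v → v = q 0 ∨ v = q len := by
      intro i hi h
      by_cases a : i = 0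
      · exact Or.inl (by rw [← h, a])
      · by_cases b : i = len
        · exact Or.inr (by rw [← h, b])
        · exact absurd ((hmI v).2 ⟨i, by omega, by omega, h⟩) hv
    constructor
    · intro h
      obtain ⟨i, hi, h'⟩ := hXq v h
      rcases this i hi h' with rfl | rfl
      · exact h0X h
      · exact hlX h
    · intro h
      obtain ⟨i, hi, h'⟩ := hBq v h
      rcases this i hi h' with rfl | rfl
      · exact h0B h
      · exact hlB h
  have hWI : ∀ v ∈ W \ B, v ∉ I := by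
    intro v hv h
    obtain ⟨i, a1, a2, rfl⟩ := (hmI _).1 h
    rw [Finset.mem_sdiff] at hv
    exact hv.2 (hqW i a2.le hv.1)
  let S : Finset V := insert z Iᶜ
  have hS : S.card = N - len + 2 := by
    rw [Finset.card_insert_of_notMem (by simpa using hzI), Finset.card_compl, hI, hN]; omega
  have hmS : ∀ v, v ∈ S ↔ v = z ∨ v ∉ I := by intro v; simp [S]
  have hSz : ∀ v ∈ S, v ≠ z → v ∉ I := fun v hv h => ((hmS v).1 hv).resolve_left h
  let H : V → V → Prop := fun u v => (jk u v ∧ u ≠ z ∧ v ≠ z) ∨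
    (u = z ∧ (v = q 0 ∨ v = q len)) ∨ (v = z ∧ (u = q 0 ∨ u = q len))
  have hHs : ∀ u v, H u v → H v u := by
    rintro u v (h | h | h)
    · exact Or.inl ⟨hs _ _ h.1, h.2.2, h.2.1⟩
    · exact Or.inr (Or.inr h)
    · exact Or.inr (Or.inl h)
  have hexp : ∀ U ⊆ S, U.Nonempty → U.card ≤ s → 2 * U.card ≤ (Nh H S U).card := by
    intro U hU hne hc
    by_cases hU1 : (U.erase z).Nonempty
    · have a1 := hB (U.erase z) (fun v hv => hXI v (hSz v (hU (Finset.mem_erase.1 hv).2)
        (Finset.mem_erase.1 hv).1)) hU1 ((Finset.card_erase_le).trans hc)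
      have a2 : Nh jk (W \ B) (U.erase z) ⊆ Nh H S U := by
        intro v hv
        rw [mem_Nh] at hv ⊢
        obtain ⟨b1, b2, u, b3, b4⟩ := hv
        have b5 : v ≠ z := fun h => hWI v b1 (h ▸ hzI)
        rw [Finset.mem_erase] at b2 b3
        exact ⟨(hmS v).2 (Or.inr (hWI v b1)), fun h => b2 ⟨b5, h⟩, u, b3.2, Or.inl ⟨b4, b3.1, b5⟩⟩
      have a3 := Finset.card_le_card a2
      have a4 := Finset.pred_card_le_card_erase (s := U) (a := z)
      have a5 := Finset.card_pos.2 hU1
      omega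
    · have a1 : U = {z} := by
        rw [Finset.not_nonempty_iff_eq_empty, Finset.erase_eq_empty_iff] at hU1
        exact hU1.resolve_left hne.ne_empty
      subst a1
      have a2 : {q 0, q len} ⊆ Nh H S {z} := by
        intro v hv
        rw [Finset.mem_insert, Finset.mem_singleton] at hv
        have b1 : v ∉ I := by rcases hv with rfl | rfl <;> assumption
        rw [mem_Nh]
        exact ⟨(hmS v).2 (Or.inr b1), by rw [Finset.mem_singleton]; rintro rfl; exact b1 hzI,
          z, by simp, Or.inr (Or.inl ⟨rfl, hv⟩)⟩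
      have a3 := Finset.card_le_card a2
      rw [Finset.card_pair h0l] at a3
      simpa using a3
  have hconn : ∀ C ⊆ S, C.Nonempty → C ≠ S → (Nh H S C).Nonempty := by
    intro C hC hne hCS
    by_contra hcon
    rw [Finset.not_nonempty_iff_eq_empty] at hcon
    have hno : ∀ u ∈ C, ∀ v ∈ S \ C, ¬ H u v := by
      intro u hu v hv h
      rw [Finset.mem_sdiff] at hv
      have : v ∈ Nh H S C := mem_Nh.2 ⟨hv.1, hv.2, u, hu, h⟩
      rw [hcon] at this; simp at this
    have a1 : s < C.card := by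
      by_contra a
      have b1 := hexp C hC hne (not_lt.1 a)
      have := Finset.card_pos.2 hne
      rw [hcon, Finset.card_empty] at b1; omega
    have hne' : (S \ C).Nonempty := by
      rw [Finset.sdiff_nonempty]; exact fun h => hCS (Finset.Subset.antisymm hC h)
    have a2 : s < (S \ C).card := by
      by_contra a
      have b1 := hexp _ Finset.sdiff_subset hne' (not_lt.1 a)
      have b2 := Finset.card_pos.2 hne'
      obtain ⟨v, hv⟩ : (Nh H S (S \ C)).Nonempty := Finset.card_pos.1 (by omega)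
      obtain ⟨c1, c2, u, c3, c4⟩ := mem_Nh.1 hv
      exact hno v (by simpa [c1] using c2) u c3 (hHs _ _ c4)
    have a3 := Finset.card_sdiff_add_card_eq_card hC
    have a4 := Finset.pred_card_le_card_erase (s := C) (a := z)
    have a5 := Finset.pred_card_le_card_erase (s := S \ C) (a := z)
    have hd : Disjoint (C.erase z) ((S \ C).erase z) := Finset.disjoint_left.2 fun v hv hv' =>
      (Finset.mem_sdiff.1 (Finset.mem_erase.1 hv').2).2 (Finset.mem_erase.1 hv).2
    have x1 : ∀ v ∈ C.erase z, v ∉ X := fun v hv =>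
      (hXI v (hSz v (hC (Finset.mem_erase.1 hv).2) (Finset.mem_erase.1 hv).1)).1
    have x2 : ∀ v ∈ (S \ C).erase z, v ∉ X := fun v hv =>
      (hXI v (hSz v (Finset.mem_sdiff.1 (Finset.mem_erase.1 hv).2).1 (Finset.mem_erase.1 hv).1)).1
    by_cases a6 : N ≤ 40 * ((S \ C).erase z).card
    · obtain ⟨u, hu, v, hv, huv⟩ := hjj _ _ hd x1 x2 (by omega) a6
      rw [Finset.mem_erase] at hu hv
      exact hno u hu.2 v hv.2 (Or.inl ⟨huv, hu.1, hv.1⟩)
    · obtain ⟨u, hu, v, hv, huv⟩ := hjj _ _ hd.symm x2 x1 (by omega) (by omega)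
      rw [Finset.mem_erase] at hu hv
      exact hno v hv.2 u hu.2 (Or.inl ⟨hs _ _ huv, hv.1, hu.1⟩)
  have hSne : S.Nonempty := ⟨z, (hmS z).2 (Or.inl rfl)⟩
  refine ⟨S, H, F.filter fun e => z ∉ e, Finset.filter_subset _ _, hSne, fun F' hF' => ?_,
    fun F' hF' hH => ?_⟩
  · obtain ⟨Bo, b1, b2⟩ := boosters hHs hSne hexp hconn F' hF'
    let Bo' := Bo.filter fun p => p.1 ≠ z ∧ p.2 ≠ z
    have c1 : Bo ⊆ Bo' ∪ (univ.image fun v => (z, v)) ∪ (univ.image fun v => (v, z)) := by
      intro p hp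
      simp only [Bo', Finset.mem_union, Finset.mem_filter, Finset.mem_image, Finset.mem_univ,
        true_and]
      by_cases a : p.1 = z
      · exact Or.inl (Or.inr ⟨p.2, by rw [← a]⟩)
      · by_cases b : p.2 = z
        · exact Or.inr ⟨p.1, by rw [← b]⟩
        · exact Or.inl (Or.inl ⟨hp, a, b⟩)
    have c2 := (Finset.card_le_card c1).trans (Finset.card_union_le _ _)
    have c3 := Finset.card_union_le Bo' (univ.image fun v => (z, v))
    have c4 := Finset.card_image_le (s := (univ : Finset V)) (f := fun v => (z, v))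
    have c5 := Finset.card_image_le (s := (univ : Finset V)) (f := fun v => (v, z))
    rw [Finset.card_univ, hN] at c4 c5
    have c6 := card_le_two_mul_image Bo'
    have c7 := Finset.le_card_sdiff Ea (Bo'.image fun p => s(p.1, p.2))
    refine le_trans (by omega) (Finset.card_le_card
      (s := (Bo'.image fun p => s(p.1, p.2)) \ Ea) fun e he => ?_)
    rw [Finset.mem_sdiff] at he
    obtain ⟨p, hp, rfl⟩ := Finset.mem_image.1 he.1
    obtain ⟨d1, d2, d3⟩ := Finset.mem_filter.1 hp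
    obtain ⟨d4, d5, d6⟩ := b2 p d1
    refine Finset.mem_filter.2 ⟨Finset.mem_filter.2 ⟨hF _ _ (hXI _ (hSz _ d4 d2)).1
      (hXI _ (hSz _ d5 d3)).1 he.2, ?_⟩, d6⟩
    rw [Sym2.mem_iff, not_or]
    exact ⟨d2.symm, d3.symm⟩
  · have hsym : ∀ u v, Hf H F' u v → Hf H F' v u := fun u v h =>
      h.imp (hHs u v) fun h => by rwa [Sym2.eq_swap]
    obtain ⟨R, r1, r2, r3⟩ := ham_path (a := q 0) (b := q len) hsym hH ((hmS z).2 (Or.inl rfl))
      (by omega) (by
        rintro v hv ((h | h | h) | h)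
        · exact absurd rfl h.2.1
        · exact h.2
        · exact absurd h.1 hv
        · exact absurd (Sym2.mem_mk_left z v) (Finset.mem_filter.1 (hF' h)).2)
    rw [hS, Nat.add_sub_cancel] at r1 r3
    have hRI : ∀ t ≤ N - len, R t ∉ I ∧ R t ≠ z := fun t ht =>
      ⟨hSz _ (Finset.mem_erase.1 (r1.1 t ht)).2 (Finset.mem_erase.1 (r1.1 t ht)).1,
        (Finset.mem_erase.1 (r1.1 t ht)).1⟩
    have hqR : ∀ i ≤ len, ∀ t, 0 < t → t < N - len → q i ≠ R t := by
      intro i hi t t1 t2 h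
      by_cases a : i = 0
      · rw [a, ← r3] at h
        have := r1.2.1 _ le_rfl _ t2.le h; omega
      · by_cases b : i = len
        · rw [b, ← r2] at h
          have := r1.2.1 _ (by omega) _ t2.le h; omega
        · exact (hRI t t2.le).1 ((hmI _).2 ⟨i, by omega, by omega, h⟩)
    refine ⟨fun i => if i ≤ len then q i else R (i - len), fun i hi j hj hij => ?_, ?_,
      fun i hi => ?_⟩
    · dsimp only at hij
      split_ifs at hij with a b b
      · exact hinj i a j b hij
      · exact absurd hij (hqR i a _ (by omega) (by omega))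
      · exact absurd hij.symm (hqR j b _ (by omega) (by omega))
      · have := r1.2.1 _ (by omega) _ (by omega) hij; omega
    · dsimp only
      rw [if_neg (by omega), if_pos (by omega), r3]
    · dsimp only
      by_cases a : i < len
      · rw [if_pos a.le, if_pos (by omega)]; exact Or.inl (hok i a)
      · have e1 : (if i ≤ len then q i else R (i - len)) = R (i - len) := by
          split_ifs with b
          · rw [show i = len by omega, Nat.sub_self, r2]
          · rfl
        rw [e1, if_neg (by omega), show i + 1 - len = i - len + 1 by omega]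
        right
        rcases r1.2.2 (i - len) (by omega) with (h | h | h) | h
        · exact Or.inl h.1
        · exact absurd h.1 (hRI _ (by omega)).2
        · exact absurd h.1 (hRI _ (by omega)).2
        · exact Or.inr h

end Pool.Agent.Lib.MP_753083_pr
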