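import Pool.Agent.Lib.MP_753083_pr.Cover
import Pool.Agent.Lib.MP_753083_pr.Joker

set_option autoImplicit false
set_option linter.unusedSectionVars false
open Finset

namespace Pool.Agent.Lib.MP_753083_pr

variable {V K : Type*} [Fintype V] [DecidableEq V] [Fintype K] [DecidableEq K]

def Gc (W1 : Finset V) (a : Sym2 V → Option K) (v : V) (j : K) : Finset V :=
  W1.filter fun w => w ≠ v ∧ a s(v, w) = some j

def Xs (W1 : Finset V) (a : Sym2 V → Option K) (d0 : ℕ) : Finset V :=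
  univ.filter fun v => ∃ j, (Gc W1 a v j).card < d0

def Aj (a : Sym2 V → Option K) (u : V) : Finset V :=
  univ.filter fun w => w ≠ u ∧ a s(u, w) ≠ none

def Touch (X : Finset V) (e : Sym2 V) : Prop := ∃ v ∈ X, v ∈ e

instance (X : Finset V) : DecidablePred (Touch X) := fun e => by unfold Touch; infer_instance

def okf (X : Finset V) (a f : Sym2 V → Option K) (u v : V) (j : K) : Prop :=
  a s(u, v) = some j ∨ (Touch X s(u, v) ∧ f s(u, v) = some j)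

def Free (X : Finset V) (a : Sym2 V → Option K) : Finset (Sym2 V) :=
  univ.filter fun e => ¬ Touch X e ∧ a e = none

def E1 (f : Sym2 V → Option K) : Prop :=
  ∀ v j, ∃ u w, u ≠ w ∧ u ≠ v ∧ w ≠ v ∧ f s(v, u) = some j ∧ f s(v, w) = some j

def E2 (X : Finset V) (f : Sym2 V → Option K) : Prop :=
  ∀ r ≤ 3, ∀ x : Fin (r + 2) → V, Function.Injective x →
    (∀ i : Fin (r + 1), f s(x i.castSucc, x i.succ) ≠ none) → x 0 ∈ X → x (Fin.last _) ∉ X

def E4 (a : Sym2 V → Option K) (E0 : ℕ) : Prop := (univ.filter fun e => a e ≠ none).card ≤ E0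

def E5 (a : Sym2 V → Option K) (T sm : ℕ) : Prop :=
  ∀ S : Finset V, S.card ≤ sm → ∑ u ∈ S, (Aj a u ∩ S).card ≤ 2 * T * S.card

def E6 (a : Sym2 V → Option K) (m1 : ℕ) : Prop :=
  ∀ j (A B : Finset V), Disjoint A B → m1 ≤ A.card → m1 ≤ B.card →
    ∃ x ∈ A, ∃ y ∈ B, a s(x, y) = some j

def E7 (X : Finset V) (F : Finset (Sym2 V)) (J : Sym2 V → Bool) (m' N : ℕ) : Prop :=
  ∀ A C : Finset V, Disjoint A C → (∀ v ∈ A, v ∉ X) → (∀ v ∈ C, v ∉ X) → m' ≤ A.card →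
    N ≤ 40 * C.card → ∃ u ∈ A, ∃ v ∈ C, s(u, v) ∈ F ∧ J s(u, v) = true

lemma mem_Gc {W1 : Finset V} {a : Sym2 V → Option K} {v w : V} {j : K} :
    w ∈ Gc W1 a v j ↔ w ∈ W1 ∧ w ≠ v ∧ a s(v, w) = some j := by simp [Gc]

lemma mem_Aj {a : Sym2 V → Option K} {u w : V} : w ∈ Aj a u ↔ w ≠ u ∧ a s(u, w) ≠ none := by
  simp [Aj]

lemma expand {W1 : Finset V} {a : Sym2 V → Option K} {d0 T1 D m : ℕ}
    (h5 : E5 a T1 (2 * m * (D + 1))) (n1 : 4 * T1 * (D + 1) < d0) :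
    ∀ A ⊆ Lb K (Xs W1 a d0), A.card ≤ 2 * m →
      D * A.card ≤ (A.biUnion (Gm (Gc W1 a))).card := by
  intro A hA hc
  by_contra hcon
  obtain ⟨S, hS⟩ : ∃ S, S = A.image Prod.fst ∪ A.biUnion (Gm (Gc W1 a)) := ⟨_, rfl⟩
  have a1 : S.card ≤ (D + 1) * A.card := by
    have := Finset.card_union_le (A.image Prod.fst) (A.biUnion (Gm (Gc W1 a)))
    have := Finset.card_image_le (s := A) (f := Prod.fst)
    rw [hS, add_mul]; omega
  have a2 := h5 S (a1.trans (by rw [mul_comm]; exact Nat.mul_le_mul_right _ hc))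
  have a3 : d0 * A.card ≤ ∑ u ∈ A, (Gm (Gc W1 a) u).card := by
    rw [mul_comm, ← smul_eq_mul]
    refine Finset.card_nsmul_le_sum _ _ _ fun u hu => ?_
    have := mem_Lb.1 (hA hu)
    simp only [Xs, Finset.mem_filter, Finset.mem_univ, true_and, not_exists, not_lt] at this
    exact this _
  have a4 : ∑ u ∈ A, (Gm (Gc W1 a) u).card ≤ 2 * ∑ u ∈ S, (Aj a u ∩ S).card := by
    rw [← Finset.card_sigma, ← Finset.card_sigma]
    have : 2 * (S.sigma fun u => Aj a u ∩ S).card =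
        ((univ : Finset Bool) ×ˢ (S.sigma fun u => Aj a u ∩ S)).card := by
      rw [Finset.card_product]; simp
    rw [this]
    refine Finset.card_le_card_of_injOn (fun x => (x.1.2.2, ⟨x.1.1, x.2⟩)) (fun x hx => ?_) ?_
    · rw [Finset.mem_coe, Finset.mem_sigma] at hx
      have b1 := mem_Gc.1 hx.2
      simp only [Finset.coe_product, Finset.coe_univ, Set.mem_prod, Set.mem_univ, true_and,
        Finset.mem_coe, Finset.mem_sigma, Finset.mem_inter, mem_Aj]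
      refine ⟨?_, ⟨b1.2.1, by rw [b1.2.2]; simp⟩, ?_⟩
      · rw [hS]; exact Finset.mem_union_left _ (Finset.mem_image_of_mem _ hx.1)
      · rw [hS]; exact Finset.mem_union_right _ (Finset.mem_biUnion.2 ⟨_, hx.1, hx.2⟩)
    · rintro ⟨⟨v, j, b⟩, w⟩ hx ⟨⟨v', j', b'⟩, w'⟩ hx' h
      rw [Finset.mem_coe, Finset.mem_sigma] at hx hx'
      have b1 := (mem_Gc.1 hx.2).2.2
      have b2 := (mem_Gc.1 hx'.2).2.2
      simp only [Prod.mk.injEq, Sigma.mk.injEq, heq_eq_eq] at h b1 b2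
      obtain ⟨rfl, rfl, rfl⟩ := h
      rw [b1] at b2
      obtain rfl := Option.some.inj b2
      rfl
  have a5 : 0 < A.card := by
    rcases Nat.eq_zero_or_pos A.card with h | h
    · rw [h] at hcon; simp at hcon
    · exact h
  have a6 : 2 * T1 * S.card ≤ 2 * T1 * ((D + 1) * A.card) := Nat.mul_le_mul_left _ a1
  have a7 : 4 * T1 * (D + 1) * A.card < d0 * A.card := Nat.mul_lt_mul_of_pos_right n1 a5
  nlinarith

lemma bigexp [Nonempty K] {W1 X : Finset V} {a : Sym2 V → Option K} {m1 M : ℕ}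
    (h6 : E6 a m1) (n2 : M + 2 * m1 ≤ W1.card) :
    ∀ A ⊆ Lb K X, 2 * Fintype.card K * m1 ≤ A.card → M ≤ (A.biUnion (Gm (Gc W1 a))).card := by
  intro A _ hc
  obtain ⟨jb, -, h1⟩ := Finset.exists_le_card_fiber_of_mul_le_card_of_maps_to
    (s := A) (t := (univ : Finset (K × Bool))) (f := Prod.snd) (n := m1)
    (fun _ _ => Finset.mem_univ _) Finset.univ_nonempty
    (by rw [Finset.card_univ, Fintype.card_prod, Fintype.card_bool]; linarith)
  have h2 : m1 ≤ ((A.filter fun x => x.2 = jb).image Prod.fst).card := by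
    rwa [Finset.card_image_of_injOn]
    intro x hx y hy h
    have b1 := (Finset.mem_filter.1 (Finset.mem_coe.1 hx)).2
    have b2 := (Finset.mem_filter.1 (Finset.mem_coe.1 hy)).2
    exact Prod.ext h (b1.trans b2.symm)
  obtain ⟨A', h3, h4⟩ := Finset.exists_subset_card_eq h2
  by_contra hcon
  have h5 := Finset.le_card_sdiff (A.biUnion (Gm (Gc W1 a)) ∪ A') W1
  have h7 := Finset.card_union_le (A.biUnion (Gm (Gc W1 a))) A'
  obtain ⟨x, hx, y, hy, hxy⟩ := h6 jb.1 A' (W1 \ (A.biUnion (Gm (Gc W1 a)) ∪ A'))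
    (Finset.disjoint_left.2 fun v hv hv' =>
      (Finset.mem_sdiff.1 hv').2 (Finset.mem_union_right _ hv)) h4.ge (by omega)
  rw [Finset.mem_sdiff, Finset.mem_union, not_or] at hy
  obtain ⟨u, hu, rfl⟩ := Finset.mem_image.1 (h3 hx)
  rw [Finset.mem_filter] at hu
  refine hy.2.1 (Finset.mem_biUnion.2 ⟨u, hu.1, mem_Gc.2 ⟨hy.1, ?_, by rw [hu.2]; exact hxy⟩⟩)
  rintro rfl
  exact hy.2.2 hx

section ports
variable {X : Finset V} {f : Sym2 V → Option K}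

lemma E2.d1 (h : E2 X f) {v w : V} (hv : v ∈ X) (hw : w ∈ X) (h1 : v ≠ w) (e1 : f s(v, w) ≠ none) :
    False := by
  refine h 0 (by omega) ![v, w] ?_ ?_ hv hw
  · intro i j; fin_cases i <;> fin_cases j <;> simp [h1, h1.symm]
  · intro i; fin_cases i; exact e1

lemma E2.d2 (h : E2 X f) {v u w : V} (hv : v ∈ X) (hw : w ∈ X) (h1 : v ≠ w) (h2 : v ≠ u)
    (h3 : u ≠ w) (e1 : f s(v, u) ≠ none) (e2 : f s(u, w) ≠ none) : False := by
  refine h 1 (by omega) ![v, u, w] ?_ ?_ hv hw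
  · intro i j; fin_cases i <;> fin_cases j <;> simp [h1, h1.symm, h2, h2.symm, h3, h3.symm]
  · intro i; fin_cases i
    · exact e1
    · exact e2

lemma E2.d3 (h : E2 X f) {v u y w : V} (hv : v ∈ X) (hw : w ∈ X) (h1 : v ≠ w) (h2 : v ≠ u)
    (h3 : u ≠ w) (h4 : v ≠ y) (h5 : u ≠ y) (h6 : y ≠ w)
    (e1 : f s(v, u) ≠ none) (e2 : f s(u, y) ≠ none) (e3 : f s(y, w) ≠ none) : False := by
  refine h 2 (by omega) ![v, u, y, w] ?_ ?_ hv hw
  · intro i j; fin_cases i <;> fin_cases j <;>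
      simp [h1, h1.symm, h2, h2.symm, h3, h3.symm, h4, h4.symm, h5, h5.symm, h6, h6.symm]
  · intro i; fin_cases i
    · exact e1
    · exact e2
    · exact e3

lemma E2.d4 (h : E2 X f) {v x u y w : V} (hv : v ∈ X) (hw : w ∈ X) (h1 : v ≠ w) (h2 : v ≠ u)
    (h3 : u ≠ w) (h4 : v ≠ y) (h5 : u ≠ y) (h6 : y ≠ w) (h7 : v ≠ x) (h8 : x ≠ u) (h9 : x ≠ y)
    (h10 : x ≠ w) (e0 : f s(v, x) ≠ none)
    (e1 : f s(x, u) ≠ none) (e2 : f s(u, y) ≠ none) (e3 : f s(y, w) ≠ none) : False := by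
  refine h 3 (by omega) ![v, x, u, y, w] ?_ ?_ hv hw
  · intro i j; fin_cases i <;> fin_cases j <;>
      simp [h1, h1.symm, h2, h2.symm, h3, h3.symm, h4, h4.symm, h5, h5.symm, h6, h6.symm,
        h7, h7.symm, h8, h8.symm, h9, h9.symm, h10, h10.symm]
  · intro i; fin_cases i
    · exact e0
    · exact e1
    · exact e2
    · exact e3

lemma ports {a : Sym2 V → Option K} (haf : ∀ e, a e ≠ none → f e ≠ none) (h1 : E1 f)
    (h2 : E2 X f) :
    ∃ P : V → Finset V,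
      (∀ v ∈ X, ∀ j j', ∃ u ∈ P v, ∃ w ∈ P v, u ≠ w ∧ okf X a f u v j ∧ okf X a f v w j') ∧
      (∀ v ∈ X, ∀ u ∈ P v, u ∉ X) ∧ (∀ v ∈ X, ∀ v' ∈ X, v ≠ v' → Disjoint (P v) (P v')) ∧
      (∀ u ∉ X, (Aj a u ∩ (X ∪ X.biUnion P)).card ≤ 2 * Fintype.card K + 1) ∧
      (X ∪ X.biUnion P).card ≤ (2 * Fintype.card K + 1) * X.card := by
  choose pu pw g1 g2 g3 g4 g5 using h1
  let P : V → Finset V := fun v => univ.image (pu v) ∪ univ.image (pw v)
  have p1 : ∀ v, (P v).card ≤ 2 * Fintype.card K := by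
    intro v
    have := Finset.card_union_le (univ.image (pu v)) (univ.image (pw v))
    have a1 := Finset.card_image_le (s := univ) (f := pu v)
    have a2 := Finset.card_image_le (s := univ) (f := pw v)
    rw [Finset.card_univ] at a1 a2
    simp only [P]; omega
  have p2 : ∀ v, ∀ u ∈ P v, v ≠ u ∧ f s(v, u) ≠ none := by
    intro v u hu
    simp only [P, Finset.mem_union, Finset.mem_image, Finset.mem_univ, true_and] at hu
    rcases hu with ⟨j, rfl⟩ | ⟨j, rfl⟩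
    · exact ⟨(g2 v j).symm, by rw [g4]; simp⟩
    · exact ⟨(g3 v j).symm, by rw [g5]; simp⟩
  have p3 : ∀ v ∈ X, ∀ u ∈ P v, u ∉ X := fun v hv u hu h =>
    h2.d1 hv h (p2 v u hu).1 (p2 v u hu).2
  have p4 : ∀ v ∈ X, ∀ v' ∈ X, v ≠ v' → Disjoint (P v) (P v') := fun v hv v' hv' hne =>
    Finset.disjoint_left.2 fun u hu hu' => h2.d2 hv hv' hne (p2 v u hu).1 (p2 v' u hu').1.symm
      (p2 v u hu).2 (by rw [Sym2.eq_swap]; exact (p2 v' u hu').2)
  have p5 : ∀ y ∈ X ∪ X.biUnion P, ∃ v ∈ X, y ∈ insert v (P v) := by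
    intro y hy
    rcases Finset.mem_union.1 hy with h | h
    · exact ⟨y, h, Finset.mem_insert_self _ _⟩
    · obtain ⟨v, hv, h⟩ := Finset.mem_biUnion.1 h
      exact ⟨v, hv, Finset.mem_insert_of_mem h⟩
  have p6 : ∀ v, (insert v (P v)).card ≤ 2 * Fintype.card K + 1 := fun v =>
    (Finset.card_insert_le _ _).trans (by have := p1 v; omega)
  refine ⟨P, fun v hv j j' => ⟨pu v j, by simp [P], pw v j', by simp [P], fun h => ?_,
    Or.inr ⟨⟨v, hv, by simp⟩, by rw [Sym2.eq_swap]; exact g4 v j⟩,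
    Or.inr ⟨⟨v, hv, by simp⟩, g5 v j'⟩⟩, p3, p4, fun u hu => ?_, ?_⟩
  · have := g5 v j'
    rw [← h, g4 v j] at this
    obtain rfl := Option.some.inj this
    exact g1 v j h
  · rcases (Aj a u ∩ (X ∪ X.biUnion P)).eq_empty_or_nonempty with h | ⟨y, hy⟩
    · rw [h]; simp
    rw [Finset.mem_inter] at hy
    obtain ⟨v, hv, hyv⟩ := p5 y hy.2
    refine le_trans (Finset.card_le_card fun y' hy' => ?_) (p6 v)
    rw [Finset.mem_inter] at hy'
    obtain ⟨v', hv', hyv'⟩ := p5 y' hy'.2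
    by_cases hne : v = v'
    · rwa [hne]
    exfalso
    obtain ⟨a1, a2⟩ := mem_Aj.1 hy.1
    obtain ⟨a3, a4⟩ := mem_Aj.1 hy'.1
    have a5 := haf _ a2
    have a6 := haf _ a4
    have a5' : f s(y, u) ≠ none := by rwa [Sym2.eq_swap]
    have a6' : f s(y', u) ≠ none := by rwa [Sym2.eq_swap]
    have b1 : v ≠ u := fun h => hu (h ▸ hv)
    have b2 : v' ≠ u := fun h => hu (h ▸ hv')
    rcases Finset.mem_insert.1 hyv with rfl | c1 <;> rcases Finset.mem_insert.1 hyv' with rfl | c2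
    · exact h2.d2 hv hv' hne a1 a3.symm a5' a6
    · exact h2.d3 (y := y') hv hv' hne a1 b2.symm (fun h => p3 v' hv' y' c2 (h ▸ hv)) a3.symm
        (p2 v' y' c2).1.symm a5' a6 (by rw [Sym2.eq_swap]; exact (p2 v' y' c2).2)
    · exact h2.d3 (y := y) hv' hv (Ne.symm hne) a3 b1.symm (fun h => p3 v hv y c1 (h ▸ hv')) a1.symm
        (p2 v y c1).1.symm a6' a5 (by rw [Sym2.eq_swap]; exact (p2 v y c1).2)
    · exact h2.d4 (x := y) (y := y') hv hv' hne b1 b2.symm (fun h => p3 v' hv' y' c2 (h ▸ hv)) a3.symm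
        (p2 v' y' c2).1.symm (p2 v y c1).1 a1
        (fun h => Finset.disjoint_left.1 (p4 v hv v' hv' hne) c1 (h ▸ c2))
        (fun h => p3 v hv y c1 (h ▸ hv')) (p2 v y c1).2 a5' a6
        (by rw [Sym2.eq_swap]; exact (p2 v' y' c2).2)
  · have : X ∪ X.biUnion P ⊆ X.biUnion fun v => insert v (P v) := fun y hy =>
      Finset.mem_biUnion.2 (p5 y hy)
    refine (Finset.card_le_card this).trans ?_
    rw [mul_comm]
    exact Finset.card_biUnion_le_card_mul _ _ _ fun v _ => p6 v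

end ports

/-- numerical constraints of the deterministic part -/
structure Num (N k w1 w2 D D' T0 T1 d0 m1 m' hh Lm M s E0 β : ℕ) : Prop where
  n1 : 4 * T1 * (D + 1) < d0
  n2 : M + 2 * m1 ≤ w1
  n3 : D' + (2 * k + 1 + 2 * (2 * T0) + 2) ≤ D
  n4 : 2 ≤ D'
  n5 : 2 ≤ hh
  n6 : m1 ≤ D' ^ hh
  n7 : 0 < m'
  n8 : (2 * k + 1) * m' + m' < w1
  n9 : 3 * m' * (2 * hh + 3) + 2 ≤ Lm
  n10 : Lm + 1 + 2 * (D * D' ^ hh) + 2 * (2 * k * m1) * D < M
  n11 : 2 * Lm ≤ N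
  n12 : 320 * (s + m') + N + 40 * ((2 * k + 1) * m') ≤ 40 * w2
  n13 : m' ≤ s
  n14 : 5 ≤ N
  n15 : 2 * (β + E0) + 2 * N ≤ s ^ 2

structure GoodAF (W1 : Finset V) (D T0 T1 d0 m1 m' E0 : ℕ) (a f : Sym2 V → Option K) : Prop where
  e1 : E1 f
  e2 : E2 (Xs W1 a d0) f
  e3 : (Xs W1 a d0).card ≤ m'
  e4 : E4 a E0
  e5 : E5 a T1 (2 * (2 * Fintype.card K * m1) * (D + 1))
  e5' : E5 a T0 (2 * m')
  e6 : E6 a m1

theorem det [Nonempty K] {W1 : Finset V} {N D D' T0 T1 d0 m1 m' hh Lm M s E0 β : ℕ}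
    (hN : Fintype.card V = N)
    (hn : Num N (Fintype.card K) W1.card W1ᶜ.card D D' T0 T1 d0 m1 m' hh Lm M s E0 β)
    {a f : Sym2 V → Option K} (haf : ∀ e, a e ≠ none → f e ≠ none)
    (hg : GoodAF W1 D T0 T1 d0 m1 m' E0 a f) {J : Sym2 V → Bool}
    (h7 : E7 (Xs W1 a d0) (Free (Xs W1 a d0) a) J m' N) (c : ℕ → K) :
    ∃ (S : Finset V) (H : V → V → Prop) (F0 : Finset (Sym2 V)), F0 ⊆ Free (Xs W1 a d0) a ∧
      S.Nonempty ∧
      (∀ F', score (Hf H F') S < S.card →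
        β ≤ (F0.filter fun e => score (Hf H F') S < score (Hf H (insert e F')) S).card) ∧
      ∀ F' ⊆ F0, Ham (Hf H F') S →
        Wit (fun u v j => okf (Xs W1 a d0) a f u v j ∨
          (s(u, v) ∈ Free (Xs W1 a d0) a ∧ J s(u, v) = true) ∨ s(u, v) ∈ F') c N := by
  obtain ⟨X, hX⟩ : ∃ X, X = Xs W1 a d0 := ⟨_, rfl⟩
  have hexp := expand (W1 := W1) hg.e5 hn.n1
  have e2 := hg.e2
  have e3 := hg.e3
  rw [← hX] at hexp h7 e2 e3 ⊢
  obtain ⟨P, p1, p2, p3, p4, p5⟩ := ports haf hg.e1 e2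
  have p6 : (X ∪ X.biUnion P).card ≤ (2 * Fintype.card K + 1) * m' :=
    p5.trans (Nat.mul_le_mul_left _ e3)
  have hW := Finset.le_card_sdiff (X ∪ X.biUnion P) W1ᶜ
  have n12 := hn.n12
  have n8 := hn.n8
  obtain ⟨B, b1, b2, b3⟩ := badset (jk := fun u v => s(u, v) ∈ Free X a ∧ J s(u, v) = true)
    (W := W1ᶜ \ (X ∪ X.biUnion P)) (s := s) hn.n7 h7
    (fun v hv h => (Finset.mem_sdiff.1 hv).2 (Finset.mem_union_left _ h)) (by omega)
  obtain ⟨q, len, q1, q2, q3, q4, q5, q6, q7, q8, q9, q10, q11⟩ := cover (ok := okf X a f)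
    (Adj := Aj a) (B := B) c hexp (bigexp hg.e6 hn.n2) (fun v j w hw => (mem_Gc.1 hw).1) hn.n3 hn.n4
    (fun v j y hy => ⟨Or.inl (mem_Gc.1 hy).2.2,
      Or.inl (by rw [Sym2.eq_swap]; exact (mem_Gc.1 hy).2.2)⟩)
    (fun j A B h1 h2 h3 => by
      obtain ⟨x, hx, y, hy, h⟩ := hg.e6 j A B h1 h2 h3
      exact ⟨x, hx, y, hy, Or.inl h⟩)
    hn.n5 hn.n6
    (fun v j w hw => mem_Aj.2 ⟨(mem_Gc.1 hw).2.1, by rw [(mem_Gc.1 hw).2.2]; simp⟩)
    hn.n7 hg.e5' b2 b1 e3 p1 p2 p3 p4 (by omega) hn.n9 hn.n10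
  have n11 := hn.n11
  refine finish (fun u v h => by rwa [Sym2.eq_swap]) hN h7 b3 q1 (by omega) q3 q4 q5 q6 q7 q8 q9 q10
    (fun i hi h => ?_) hn.n13 hn.n14 (Ea := univ.filter fun e => a e ≠ none)
    (fun u v hu hv h => ?_) hg.e4 hn.n15
  · rw [Finset.mem_sdiff, Finset.mem_compl] at h
    rcases q11 i hi with h' | h' | h'
    · exact absurd h' h.2
    · exact h'
    · exact absurd h' h.1
  · simp only [Finset.mem_filter, Finset.mem_univ, true_and, not_not] at h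
    refine Finset.mem_filter.2 ⟨Finset.mem_univ _, ?_, h⟩
    rintro ⟨w, hw, hw'⟩
    rcases Sym2.mem_iff.1 hw' with rfl | rfl
    · exact hu hw
    · exact hv hw

end Pool.Agent.Lib.MP_753083_pr
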