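import Pool.Agent.Lib.MP_753083_pr.Prob
import Pool.Agent.Lib.MP_753083_pr.Det

set_option autoImplicit false
set_option linter.unusedSectionVars false
open Finset

namespace Pool.Agent.Lib.MP_753083_pr

lemma one_forall {κ : Type*} [DecidableEq κ] (A : Finset κ) (P : κ → Prop) :
    one (∀ e ∈ A, P e) = ∏ e ∈ A, one (P e) := by
  induction A using Finset.induction_on with
  | empty => simp [one_pos]
  | insert e A he ih =>
    rw [Finset.prod_insert he, ← ih, ← one_and]
    exact one_congr (by simp)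

lemma sum_one_not {σ : Type*} [Fintype σ] {ν : σ → ℝ} (h : IsD ν) (P : σ → Prop) :
    ∑ s, ν s * one (¬ P s) = 1 - ∑ s, ν s * one (P s) := by
  simp_rw [one_not, mul_sub, Finset.sum_sub_distrib, mul_one, h.2]

lemma sum_one_nonneg {σ : Type*} [Fintype σ] {ν : σ → ℝ} (h : IsD ν) (P : σ → Prop) :
    0 ≤ ∑ s, ν s * one (P s) :=
  Finset.sum_nonneg fun s _ => mul_nonneg (h.1 s) (one_nonneg _)

lemma card_eq_sum_one {κ : Type*} (A : Finset κ) (P : κ → Prop) [DecidablePred P] :
    ((A.filter P).card : ℝ) = ∑ e ∈ A, one (P e) := by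
  rw [Finset.card_filter]
  push_cast
  refine Finset.sum_congr rfl fun e _ => ?_
  split_ifs with h
  · rw [one_pos h]
  · rw [one_neg h]

lemma pow_le_exp {y a : ℝ} (hy : 0 ≤ y) (h : y ≤ 1 - a) (ha : 0 ≤ a) {n : ℕ} {g : ℝ}
    (hg : g ≤ n) : y ^ n ≤ Real.exp (-(a * g)) := by
  calc y ^ n ≤ Real.exp (-a) ^ n :=
        pow_le_pow_left₀ hy (h.trans (by linarith [Real.add_one_le_exp (-a)])) n
    _ = Real.exp (-(a * n)) := by rw [← Real.exp_nat_mul]; congr 1; ring
    _ ≤ _ := Real.exp_le_exp.2 (by nlinarith)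

variable {V K σ : Type*} [Fintype V] [DecidableEq V] [Fintype K] [DecidableEq K] [Fintype σ]

lemma Ex_coord {ι : Type*} [Fintype ι] [DecidableEq ι] {ν : σ → ℝ} (h : IsD ν) (e : ι) (φ : σ → ℝ) :
    Ex (fun _ : ι => ν) (fun x => φ (x e)) = ∑ s, ν s * φ s := by
  simpa using Ex_one h {e} φ

def star (v : V) (T : Finset V) : Finset (Sym2 V) := T.image fun w => s(v, w)

lemma star_inj (v : V) : Function.Injective fun w : V => s(v, w) := fun _ _ h => Sym2.congr_right.1 h

lemma card_star (v : V) (T : Finset V) : (star v T).card = T.card :=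
  Finset.card_image_of_injective _ (star_inj v)

lemma prod_star (v : V) (T : Finset V) (φ : Sym2 V → ℝ) :
    ∏ e ∈ star v T, φ e = ∏ w ∈ T, φ s(v, w) :=
  Finset.prod_image fun _ _ _ _ h => star_inj v h

lemma card_sym2_le : Fintype.card (Sym2 V) ≤ Fintype.card V ^ 2 := by
  rw [pow_two, ← Fintype.card_prod]
  refine Fintype.card_le_of_surjective (fun p : V × V => s(p.1, p.2)) fun e => ?_
  induction e using Sym2.ind with
  | _ a b => exact ⟨(a, b), rfl⟩

lemma card_cross {A B : Finset V} (h : Disjoint A B) :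
    ((A ×ˢ B).image fun p => s(p.1, p.2)).card = A.card * B.card := by
  rw [Finset.card_image_of_injOn, Finset.card_product]
  intro p hp p' hp' hpp
  rw [Finset.coe_product] at hp hp'
  rcases Sym2.eq_iff.1 hpp with h1 | h1
  · exact Prod.ext h1.1 h1.2
  · exact absurd (h1.1 ▸ hp'.2) (Finset.disjoint_left.1 h hp.1)

variable {ν : σ → ℝ}

lemma P_zero (h : IsD ν) (P : σ → Prop) {p : ℝ} (hp : ∑ s, ν s * one (P s) = p) (v : V) :
    Ex (fun _ : Sym2 V => ν) (fun x => one (∀ u, u ≠ v → ¬ P (x s(v, u)))) =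
      (1 - p) ^ (Fintype.card V - 1) := by
  have := Ex_one h (star v (univ.erase v)) (fun s => one (¬ P s))
  rw [sum_one_not h, hp, card_star, Finset.card_erase_of_mem (Finset.mem_univ _),
    Finset.card_univ] at this
  rw [← this]
  congr 1; funext x
  rw [prod_star, ← one_forall]
  exact one_congr (by simp)

lemma P_uniq (h : IsD ν) (P : σ → Prop) {p : ℝ} (hp : ∑ s, ν s * one (P s) = p) {v u : V}
    (huv : u ≠ v) :
    Ex (fun _ : Sym2 V => ν) (fun x => one (P (x s(v, u)) ∧ ∀ w, w ≠ v → w ≠ u → ¬ P (x s(v, w)))) =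
      p * (1 - p) ^ (Fintype.card V - 2) := by
  have := Ex_two h (A := {s(v, u)}) (B := star v ((univ.erase v).erase u)) (by
    rw [Finset.disjoint_singleton_left]
    intro h1
    obtain ⟨w, hw, h2⟩ := Finset.mem_image.1 h1
    exact (Finset.mem_erase.1 hw).1 (star_inj v h2)) (fun s => one (P s)) (fun s => one (¬ P s))
  rw [sum_one_not h, hp, card_star, Finset.card_erase_of_mem (by simpa using huv),
    Finset.card_erase_of_mem (Finset.mem_univ _), Finset.card_univ, Finset.card_singleton,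
    pow_one] at this
  rw [show Fintype.card V - 2 = Fintype.card V - 1 - 1 by omega, ← this]
  congr 1; funext x
  rw [prod_star, Finset.prod_singleton, ← one_forall, ← one_and]
  refine one_congr (and_congr_right fun _ => ?_)
  simp only [Finset.mem_erase, Finset.mem_univ, and_true, and_imp]
  exact ⟨fun h w a b => h w b a, fun h w a b => h w b a⟩

lemma P_E1 (h : IsD ν) (F : σ → Option K) {p : ℝ} (hp : ∀ j, ∑ s, ν s * one (F s = some j) = p)
    (hp0 : 0 ≤ p) (hp1 : p ≤ 1) :
    Ex (fun _ : Sym2 V => ν) (fun x => one (¬ E1 (fun e => F (x e)))) ≤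
      Fintype.card V * (Fintype.card K * ((1 - p) ^ (Fintype.card V - 1) +
        Fintype.card V * (p * (1 - p) ^ (Fintype.card V - 2)))) := by
  have hh : ∀ _ : Sym2 V, IsD ν := fun _ => h
  have hp1' : 0 ≤ 1 - p := by linarith
  calc _ ≤ Ex (fun _ : Sym2 V => ν) (fun x => one (∃ v ∈ (univ : Finset V), ∃ j ∈ (univ : Finset K),
        (∀ u, u ≠ v → ¬ F (x s(v, u)) = some j) ∨ ∃ u ∈ univ.erase v,
          (F (x s(v, u)) = some j ∧ ∀ w, w ≠ v → w ≠ u → ¬ F (x s(v, w)) = some j))) := by
        refine Ex_mono hh fun x => one_mono fun hx => ?_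
        unfold E1 at hx
        push Not at hx
        obtain ⟨v, j, hx⟩ := hx
        refine ⟨v, Finset.mem_univ _, j, Finset.mem_univ _, ?_⟩
        by_cases h1 : ∀ u, u ≠ v → ¬ F (x s(v, u)) = some j
        · exact Or.inl h1
        · push Not at h1
          obtain ⟨u, h1, h2⟩ := h1
          exact Or.inr ⟨u, by simpa using h1, h2, fun w a b => hx u w b.symm h1 a h2⟩
    _ ≤ _ := by
        refine (Ex_exists_le hh _ _).trans ?_
        rw [← nsmul_eq_mul, ← Finset.card_univ (α := V)]
        refine Finset.sum_le_card_nsmul _ _ _ fun v _ => (Ex_exists_le hh _ _).trans ?_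
        rw [← nsmul_eq_mul, ← Finset.card_univ (α := K)]
        refine Finset.sum_le_card_nsmul _ _ _ fun j _ => (Ex_or_le hh _ _).trans ?_
        rw [P_zero h (fun s => F s = some j) (hp j), Finset.card_univ]
        refine add_le_add le_rfl ((Ex_exists_le hh _ _).trans ?_)
        refine (Finset.sum_le_card_nsmul _ _ (p * (1 - p) ^ (Fintype.card V - 2)) fun u hu =>
          (P_uniq h (fun s => F s = some j) (hp j) (Finset.mem_erase.1 hu).1).le).trans ?_
        rw [nsmul_eq_mul]
        refine mul_le_mul_of_nonneg_right ?_ (by positivity)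
        exact_mod_cast Finset.card_le_univ _

noncomputable def tl (A : σ → Option K) (j : K) (s : σ) : ℝ := if A s = some j then 1 / 10 else 1

lemma tl_nonneg (A : σ → Option K) (j : K) (s : σ) : 0 ≤ tl A j s := by
  unfold tl; split_ifs <;> norm_num

lemma sum_tl (h : IsD ν) (A : σ → Option K) (j : K) {p0 : ℝ}
    (hp : p0 ≤ ∑ s, ν s * one (A s = some j)) :
    0 ≤ ∑ s, ν s * tl A j s ∧ ∑ s, ν s * tl A j s ≤ 1 - 9 / 10 * p0 := by
  refine ⟨Finset.sum_nonneg fun s _ => mul_nonneg (h.1 s) (tl_nonneg _ _ _), ?_⟩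
  have : ∀ s, ν s * tl A j s = ν s - 9 / 10 * (ν s * one (A s = some j)) := by
    intro s; unfold tl; split_ifs with a
    · rw [one_pos a]; ring
    · rw [one_neg a]; ring
  simp_rw [this, Finset.sum_sub_distrib, ← Finset.mul_sum, h.2]
  linarith

lemma tilt {W1 T : Finset V} (A : σ → Option K) (x : Sym2 V → σ) {v : V} {j : K} {d0 : ℕ}
    (hT : T ⊆ W1) (hv : v ∉ T) (hd : (Gc W1 (fun e => A (x e)) v j).card < d0) :
    1 ≤ 10 ^ d0 * ∏ e ∈ star v T, tl A j (x e) := by
  rw [prod_star]
  unfold tl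
  rw [Finset.prod_ite, Finset.prod_const, Finset.prod_const_one, mul_one]
  have h1 : (T.filter fun w => A (x s(v, w)) = some j).card ≤ d0 := by
    refine le_trans (Finset.card_le_card fun w hw => ?_) hd.le
    rw [Finset.mem_filter] at hw
    exact mem_Gc.2 ⟨hT hw.1, fun h => hv (h ▸ hw.1), hw.2⟩
  calc (1 : ℝ) = 10 ^ d0 * (1 / 10) ^ d0 := by rw [← mul_pow]; norm_num
    _ ≤ _ := mul_le_mul_of_nonneg_left (pow_le_pow_of_le_one (by norm_num) (by norm_num) h1)
      (by positivity)

lemma P_E3 (h : IsD ν) (A : σ → Option K) {p0 : ℝ} (hp0 : 0 ≤ p0)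
    (hp : ∀ j, p0 ≤ ∑ s, ν s * one (A s = some j)) (W1 : Finset V) (d0 : ℕ) {m' : ℕ} (hm : 0 < m')
    {g : ℝ} (hg : g + 5 ≤ W1.card) :
    Ex (fun _ : Sym2 V => ν) (fun x => one (¬ (Xs W1 (fun e => A (x e)) d0).card ≤ m')) ≤
      1 / m' * (Fintype.card V * (Fintype.card K * (10 ^ d0 * Real.exp (-(9 / 10 * p0 * g))))) := by
  have hh : ∀ _ : Sym2 V, IsD ν := fun _ => h
  have hm' : (0 : ℝ) < m' := by exact_mod_cast hm
  calc _ ≤ Ex (fun _ : Sym2 V => ν) (fun x => 1 / m' * ∑ v,
        one (∃ j ∈ (univ : Finset K), (Gc W1 (fun e => A (x e)) v j).card < d0)) := by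
        refine Ex_mono hh fun x => one_le_of
          (mul_nonneg (by positivity) (Finset.sum_nonneg fun _ _ => one_nonneg _)) fun hx => ?_
        simp only [Finset.mem_univ, true_and]
        rw [← card_eq_sum_one, one_div, ← div_eq_inv_mul, le_div_iff₀ hm', one_mul]
        exact_mod_cast (not_le.1 hx).le
    _ ≤ _ := by
        rw [Ex_const_mul, Ex_sum]
        refine mul_le_mul_of_nonneg_left ?_ (by positivity)
        rw [← nsmul_eq_mul, ← Finset.card_univ (α := V)]
        refine Finset.sum_le_card_nsmul _ _ _ fun v _ => (Ex_exists_le hh _ _).trans ?_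
        rw [← nsmul_eq_mul, ← Finset.card_univ (α := K)]
        refine Finset.sum_le_card_nsmul _ _ _ fun j _ => ?_
        refine (Ex_mono hh (g := fun x => 10 ^ d0 * ∏ e ∈ star v (W1.erase v), tl A j (x e))
          fun x => one_le_of (mul_nonneg (by positivity)
            (Finset.prod_nonneg fun _ _ => tl_nonneg _ _ _))
            (tilt A x (Finset.erase_subset _ _) (by simp))).trans ?_
        rw [Ex_const_mul, Ex_one h, card_star]
        refine mul_le_mul_of_nonneg_left (pow_le_exp (sum_tl h A j (hp j)).1 (sum_tl h A j (hp j)).2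
          (by positivity) ?_) (by positivity)
        have := Finset.pred_card_le_card_erase (s := W1) (a := v)
        have h2 : (W1.card : ℝ) ≤ (W1.erase v).card + 1 := by exact_mod_cast (by omega)
        linarith

lemma P_path (h : IsD ν) (A F : σ → Option K) {p0 R : ℝ} (hp0 : 0 ≤ p0)
    (hp : ∀ j, p0 ≤ ∑ s, ν s * one (A s = some j)) (hR : ∑ s, ν s * one (F s ≠ none) ≤ R)
    (W1 : Finset V) (d0 : ℕ) {g : ℝ} (hg : g + 5 ≤ W1.card) {r : ℕ} (hr : r ≤ 3)
    {y : Fin (r + 2) → V} (hy : Function.Injective y) (j j' : K) :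
    Ex (fun _ : Sym2 V => ν) (fun x =>
      one ((∀ i : Fin (r + 1), F (x s(y i.castSucc, y i.succ)) ≠ none) ∧
        (Gc W1 (fun e => A (x e)) (y 0) j).card < d0 ∧
        (Gc W1 (fun e => A (x e)) (y (Fin.last _)) j').card < d0)) ≤
      R ^ (r + 1) * (10 ^ d0 * Real.exp (-(9 / 10 * p0 * g))) ^ 2 := by
  have hh : ∀ _ : Sym2 V, IsD ν := fun _ => h
  obtain ⟨T, hT⟩ : ∃ T, T = W1 \ univ.image y := ⟨_, rfl⟩
  have hT1 : T ⊆ W1 := hT ▸ Finset.sdiff_subset
  have hT2 : ∀ i, y i ∉ T := fun i => by simp [hT]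
  have hT3 : g ≤ T.card := by
    have a1 := Finset.le_card_sdiff (univ.image y) W1
    have a2 := Finset.card_image_le (s := univ) (f := y)
    rw [Finset.card_univ, Fintype.card_fin] at a2
    have a3 : (W1.card : ℝ) ≤ T.card + 5 := by rw [hT]; exact_mod_cast (by omega)
    linarith
  have hinj : Function.Injective fun i : Fin (r + 1) => s(y i.castSucc, y i.succ) := by
    intro i i' hi
    rcases Sym2.eq_iff.1 hi with a | a
    · exact Fin.castSucc_injective _ (hy a.1)
    · have a1 := congrArg Fin.val (hy a.1)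
      have a2 := congrArg Fin.val (hy a.2)
      simp only [Fin.val_castSucc, Fin.val_succ] at a1 a2
      omega
  obtain ⟨Pt, hPt⟩ : ∃ Pt, Pt = univ.image fun i : Fin (r + 1) => s(y i.castSucc, y i.succ) :=
    ⟨_, rfl⟩
  have d1 : ∀ v, Disjoint Pt (star v T) := by
    intro v
    rw [Finset.disjoint_left, hPt]
    intro e he he'
    obtain ⟨i, -, rfl⟩ := Finset.mem_image.1 he
    obtain ⟨w, hw, a⟩ := Finset.mem_image.1 he'
    rcases Sym2.eq_iff.1 a with a | a
    · exact hT2 _ (a.2 ▸ hw)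
    · exact hT2 _ (a.2 ▸ hw)
  have d2 : Disjoint (star (y 0) T) (star (y (Fin.last _)) T) := by
    rw [Finset.disjoint_left]
    intro e he he'
    obtain ⟨w, -, rfl⟩ := Finset.mem_image.1 he
    obtain ⟨w', hw', a⟩ := Finset.mem_image.1 he'
    rcases Sym2.eq_iff.1 a with a | a
    · have := congrArg Fin.val (hy a.1)
      simp at this
    · exact hT2 _ (a.2 ▸ hw')
  have key := Ex_three h (d1 _) (d1 _) d2 (fun s => one (F s ≠ none)) (tl A j) (tl A j')
  have hPc : Pt.card = r + 1 := by
    rw [hPt, Finset.card_image_of_injective _ hinj, Finset.card_univ, Fintype.card_fin]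
  rw [hPc, card_star, card_star] at key
  calc _ ≤ Ex (fun _ : Sym2 V => ν) (fun x => (10 ^ d0) ^ 2 * ((∏ e ∈ Pt, one (F (x e) ≠ none)) *
        (∏ e ∈ star (y 0) T, tl A j (x e)) * ∏ e ∈ star (y (Fin.last _)) T, tl A j' (x e))) := by
        refine Ex_mono hh fun x => one_le_of ?_ fun hx => ?_
        · exact mul_nonneg (by positivity) (mul_nonneg (mul_nonneg
            (Finset.prod_nonneg fun _ _ => one_nonneg _)
            (Finset.prod_nonneg fun _ _ => tl_nonneg _ _ _))
            (Finset.prod_nonneg fun _ _ => tl_nonneg _ _ _))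
        · have a1 := tilt A x hT1 (hT2 _) hx.2.1
          have a2 := tilt A x hT1 (hT2 _) hx.2.2
          rw [← one_forall, one_pos (by
            intro e he
            rw [hPt] at he
            obtain ⟨i, -, rfl⟩ := Finset.mem_image.1 he
            exact hx.1 i)]
          have := one_le_mul_of_one_le_of_one_le a1 a2
          linarith
    _ ≤ _ := by
        rw [Ex_const_mul, key]
        have a1 := pow_le_exp (sum_tl h A j (hp j)).1 (sum_tl h A j (hp j)).2 (by positivity) hT3
        have a2 := pow_le_exp (sum_tl h A j' (hp j')).1 (sum_tl h A j' (hp j')).2 (by positivity) hT3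
        have a3 := pow_le_pow_left₀ (sum_one_nonneg h _) hR (r + 1)
        have a4 := sum_one_nonneg h (fun s => F s ≠ none)
        have a5 := (sum_tl h A j (hp j)).1
        have a6 := (sum_tl h A j' (hp j')).1
        have a7 : 0 ≤ R := a4.trans hR
        calc _ ≤ (10 ^ d0) ^ 2 * (R ^ (r + 1) * Real.exp (-(9 / 10 * p0 * g)) *
              Real.exp (-(9 / 10 * p0 * g))) := by gcongr
          _ = _ := by ring

lemma P_E2 (h : IsD ν) (A F : σ → Option K) {p0 R : ℝ} (hp0 : 0 ≤ p0)
    (hp : ∀ j, p0 ≤ ∑ s, ν s * one (A s = some j)) (hR : ∑ s, ν s * one (F s ≠ none) ≤ R)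
    (W1 : Finset V) (d0 : ℕ) {g : ℝ} (hg : g + 5 ≤ W1.card) (h1 : 1 ≤ Fintype.card V * R) :
    Ex (fun _ : Sym2 V => ν) (fun x =>
      one (¬ E2 (Xs W1 (fun e => A (x e)) d0) (fun e => F (x e)))) ≤
      4 * (Fintype.card V * (Fintype.card V * R) ^ 4 * (Fintype.card K ^ 2 *
        (10 ^ d0 * Real.exp (-(9 / 10 * p0 * g))) ^ 2)) := by
  classical
  have hh : ∀ _ : Sym2 V, IsD ν := fun _ => h
  have a7 : 0 ≤ R := (sum_one_nonneg h (fun s => F s ≠ none)).trans hR
  calc _ ≤ Ex (fun _ : Sym2 V => ν) (fun x => one (∃ r ∈ range 4,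
        ∃ y ∈ univ.filter (fun y : Fin (r + 2) → V => Function.Injective y),
        ∃ jj ∈ (univ : Finset (K × K)),
        (∀ i : Fin (r + 1), F (x s(y i.castSucc, y i.succ)) ≠ none) ∧
        (Gc W1 (fun e => A (x e)) (y 0) jj.1).card < d0 ∧
        (Gc W1 (fun e => A (x e)) (y (Fin.last _)) jj.2).card < d0)) := by
        refine Ex_mono hh fun x => one_mono fun hx => ?_
        unfold E2 at hx
        push Not at hx
        obtain ⟨r, hr, y, a1, a2, a3, a4⟩ := hx
        obtain ⟨j, a3⟩ := (Finset.mem_filter.1 a3).2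
        obtain ⟨j', a4⟩ := (Finset.mem_filter.1 a4).2
        exact ⟨r, Finset.mem_range.2 (by omega), y, by simpa using a1, (j, j'), Finset.mem_univ _,
          a2, a3, a4⟩
    _ ≤ _ := by
        refine (Ex_exists_le hh _ _).trans ?_
        refine (Finset.sum_le_card_nsmul _ _ _ fun r hr => ?_).trans (by
          rw [Finset.card_range, nsmul_eq_mul]; norm_num; exact le_rfl)
        rw [Finset.mem_range] at hr
        refine (Ex_exists_le hh _ _).trans ?_
        refine (Finset.sum_le_card_nsmul _ _ (Fintype.card K ^ 2 * (R ^ (r + 1) *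
          (10 ^ d0 * Real.exp (-(9 / 10 * p0 * g))) ^ 2)) fun y hy => ?_).trans ?_
        · refine (Ex_exists_le hh _ _).trans ?_
          refine (Finset.sum_le_card_nsmul _ _ _ fun jj _ =>
            P_path h A F hp0 hp hR W1 d0 hg (by omega) (Finset.mem_filter.1 hy).2 jj.1 jj.2).trans ?_
          rw [nsmul_eq_mul, Finset.card_univ, Fintype.card_prod]
          push_cast
          rw [pow_two (Fintype.card K : ℝ)]
        · rw [nsmul_eq_mul]
          have b1 : ((univ.filter (fun y : Fin (r + 2) → V => Function.Injective y)).card : ℝ) ≤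
              Fintype.card V ^ (r + 2) := by
            have := Finset.card_le_univ (univ.filter (fun y : Fin (r + 2) → V => Function.Injective y))
            rw [Fintype.card_fun, Fintype.card_fin] at this
            exact_mod_cast this
          have b2 : (Fintype.card V * R) ^ (r + 1) ≤ (Fintype.card V * R) ^ 4 :=
            pow_le_pow_right₀ h1 (by omega)
          calc _ ≤ Fintype.card V ^ (r + 2) * (Fintype.card K ^ 2 * (R ^ (r + 1) *
                (10 ^ d0 * Real.exp (-(9 / 10 * p0 * g))) ^ 2)) := by gcongr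
            _ = Fintype.card V * (Fintype.card V * R) ^ (r + 1) * (Fintype.card K ^ 2 *
                (10 ^ d0 * Real.exp (-(9 / 10 * p0 * g))) ^ 2) := by ring
            _ ≤ _ := by gcongr

lemma P_E4 (h : IsD ν) (A : σ → Option K) {R : ℝ} (hR : ∑ s, ν s * one (A s ≠ none) ≤ R)
    {E0 : ℕ} (hE : 0 < E0) :
    Ex (fun _ : Sym2 V => ν) (fun x => one (¬ E4 (fun e => A (x e)) E0)) ≤
      1 / E0 * (Fintype.card V ^ 2 * R) := by
  have hh : ∀ _ : Sym2 V, IsD ν := fun _ => h
  have hE' : (0 : ℝ) < E0 := by exact_mod_cast hE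
  have a7 : 0 ≤ R := (sum_one_nonneg h (fun s => A s ≠ none)).trans hR
  calc _ ≤ Ex (fun _ : Sym2 V => ν) (fun x => 1 / E0 * ∑ e, one (A (x e) ≠ none)) := by
        refine Ex_mono hh fun x => one_le_of
          (mul_nonneg (by positivity) (Finset.sum_nonneg fun _ _ => one_nonneg _)) fun hx => ?_
        rw [← card_eq_sum_one, one_div, ← div_eq_inv_mul, le_div_iff₀ hE', one_mul]
        exact_mod_cast (not_le.1 hx).le
    _ ≤ _ := by
        rw [Ex_const_mul, Ex_sum]
        refine mul_le_mul_of_nonneg_left ?_ (by positivity)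
        refine (Finset.sum_le_card_nsmul _ _ R fun e _ => ?_).trans ?_
        · rw [Ex_coord h e (fun s => one (A s ≠ none))]; exact hR
        · rw [nsmul_eq_mul, Finset.card_univ]
          refine mul_le_mul_of_nonneg_right ?_ a7
          exact_mod_cast card_sym2_le

lemma P_cross (h : IsD ν) (P : σ → Prop) {p0 : ℝ} (hp0 : 0 ≤ p0) (hp : p0 ≤ ∑ s, ν s * one (P s))
    (B : Finset (Sym2 V)) {g : ℝ} (hg : g ≤ B.card) :
    Ex (fun _ : Sym2 V => ν) (fun x => one (∀ e ∈ B, ¬ P (x e))) ≤ Real.exp (-(p0 * g)) := by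
  simp_rw [one_forall]
  rw [Ex_one h B (fun s => one (¬ P s))]
  refine pow_le_exp (sum_one_nonneg h _) ?_ hp0 hg
  rw [sum_one_not h]; linarith

lemma card_pairs_le (P : Finset V × Finset V → Prop) [DecidablePred P] :
    ((univ.filter P).card : ℝ) ≤ 4 ^ Fintype.card V := by
  have := Finset.card_le_univ (univ.filter P)
  rw [Fintype.card_prod, Fintype.card_finset, ← mul_pow] at this
  exact_mod_cast this

lemma P_E6 (h : IsD ν) (A : σ → Option K) {p0 : ℝ} (hp0 : 0 ≤ p0)
    (hp : ∀ j, p0 ≤ ∑ s, ν s * one (A s = some j)) (m1 : ℕ) :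
    Ex (fun _ : Sym2 V => ν) (fun x => one (¬ E6 (fun e => A (x e)) m1)) ≤
      Fintype.card K * (4 ^ Fintype.card V * Real.exp (-(p0 * m1 ^ 2))) := by
  have hh : ∀ _ : Sym2 V, IsD ν := fun _ => h
  calc _ ≤ Ex (fun _ : Sym2 V => ν) (fun x => one (∃ j ∈ (univ : Finset K),
        ∃ AB ∈ univ.filter (fun AB : Finset V × Finset V =>
          Disjoint AB.1 AB.2 ∧ m1 ≤ AB.1.card ∧ m1 ≤ AB.2.card),
        ∀ e ∈ (AB.1 ×ˢ AB.2).image fun p => s(p.1, p.2), ¬ A (x e) = some j)) := by
        refine Ex_mono hh fun x => one_mono fun hx => ?_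
        unfold E6 at hx
        push Not at hx
        obtain ⟨j, B, C, a1, a2, a3, a4⟩ := hx
        refine ⟨j, Finset.mem_univ _, (B, C), by simp [a1, a2, a3], fun e he => ?_⟩
        obtain ⟨p, hp, rfl⟩ := Finset.mem_image.1 he
        rw [Finset.mem_product] at hp
        exact a4 _ hp.1 _ hp.2
    _ ≤ _ := by
        refine (Ex_exists_le hh _ _).trans ?_
        rw [← nsmul_eq_mul, ← Finset.card_univ (α := K)]
        refine Finset.sum_le_card_nsmul _ _ _ fun j _ => (Ex_exists_le hh _ _).trans ?_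
        refine (Finset.sum_le_card_nsmul _ _ (Real.exp (-(p0 * m1 ^ 2))) fun AB hAB => ?_).trans ?_
        · obtain ⟨a1, a2, a3⟩ := (Finset.mem_filter.1 hAB).2
          refine P_cross h (fun s => A s = some j) hp0 (hp j) _ ?_
          rw [card_cross a1, pow_two]
          exact_mod_cast Nat.mul_le_mul a2 a3
        · rw [nsmul_eq_mul]
          exact mul_le_mul_of_nonneg_right (card_pairs_le _) (by positivity)

lemma P_E7 {ν : Bool → ℝ} (h : IsD ν) {p2 : ℝ} (hp0 : 0 ≤ p2) (hp : ν true = p2)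
    (X : Finset V) (a : Sym2 V → Option K) {E0 m' N g : ℕ} (h4 : E4 a E0)
    (hg : 40 * (g + E0) ≤ m' * N) :
    Ex (fun _ : Sym2 V => ν) (fun J => one (¬ E7 X (Free X a) J m' N)) ≤
      4 ^ Fintype.card V * Real.exp (-(p2 * g)) := by
  have hh : ∀ _ : Sym2 V, IsD ν := fun _ => h
  calc _ ≤ Ex (fun _ : Sym2 V => ν) (fun x => one (
        ∃ AB ∈ univ.filter (fun AB : Finset V × Finset V =>
          Disjoint AB.1 AB.2 ∧ m' ≤ AB.1.card ∧ N ≤ 40 * AB.2.card),
        ∀ e ∈ ((AB.1 ×ˢ AB.2).image fun p => s(p.1, p.2)) \ univ.filter fun e => a e ≠ none,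
          ¬ x e = true)) := by
        refine Ex_mono hh fun x => one_mono fun hx => ?_
        unfold E7 at hx
        push Not at hx
        obtain ⟨B, C, a1, a2, a3, a4, a5, a6⟩ := hx
        refine ⟨(B, C), by simp [a1, a4, a5], fun e he => ?_⟩
        rw [Finset.mem_sdiff] at he
        obtain ⟨p, hp, rfl⟩ := Finset.mem_image.1 he.1
        rw [Finset.mem_product] at hp
        refine a6 _ hp.1 _ hp.2 (Finset.mem_filter.2 ⟨Finset.mem_univ _, ?_, by simpa using he.2⟩)
        rintro ⟨w, hw, hw'⟩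
        rcases Sym2.mem_iff.1 hw' with rfl | rfl
        · exact a2 _ hp.1 hw
        · exact a3 _ hp.2 hw
    _ ≤ _ := by
        refine (Ex_exists_le hh _ _).trans ?_
        refine (Finset.sum_le_card_nsmul _ _ (Real.exp (-(p2 * g))) fun AB hAB => ?_).trans ?_
        · obtain ⟨a1, a2, a3⟩ := (Finset.mem_filter.1 hAB).2
          refine P_cross h (fun s => s = true) hp0 (by simp [one_pos, one_neg, hp]) _ ?_
          have b1 := Finset.le_card_sdiff (univ.filter fun e => a e ≠ none)
            ((AB.1 ×ˢ AB.2).image fun p => s(p.1, p.2))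
          rw [card_cross a1] at b1
          have b2 := Nat.mul_le_mul a2 a3
          unfold E4 at h4
          have b3 : AB.1.card * (40 * AB.2.card) = 40 * (AB.1.card * AB.2.card) := by ring
          exact Nat.cast_le.2 (le_trans (by omega) b1)
        · rw [nsmul_eq_mul]
          exact mul_le_mul_of_nonneg_right (card_pairs_le _) (by positivity)

end Pool.Agent.Lib.MP_753083_pr
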