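import Pool.Agent.Lib.MP_753083_pr.Est

set_option autoImplicit false
set_option linter.unusedSectionVars false
open Finset

namespace Pool.Agent.Lib.MP_753083_pr

variable {V K σ : Type*} [Fintype V] [DecidableEq V] [Fintype K] [DecidableEq K] [Fintype σ]
  {ν : σ → ℝ}

lemma choose_le_exp (N s : ℕ) (hs : 0 < s) : (N.choose s : ℝ) ≤ (Real.exp 1 * N / s) ^ s := by
  have hs' : (0 : ℝ) < s := by exact_mod_cast hs
  have h1 : (N.choose s : ℝ) ≤ (N : ℝ) ^ s / s.factorial := Nat.choose_le_pow_div s N
  have h2 := Real.pow_div_factorial_le_exp (s : ℝ) hs'.le s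
  have h3 : Real.exp s = Real.exp 1 ^ s := by rw [← Real.exp_nat_mul, mul_one]
  refine h1.trans ?_
  rw [div_pow, mul_pow, ← h3]
  calc (N : ℝ) ^ s / s.factorial = ((s : ℝ) ^ s / s.factorial) * N ^ s / s ^ s := by
        field_simp
    _ ≤ _ := by gcongr

lemma geom_le {x : ℝ} (h0 : 0 ≤ x) (h1 : x ≤ 1 / 2) (n : ℕ) : ∑ s ∈ Icc 1 n, x ^ s ≤ 2 * x := by
  have : ∑ s ∈ Icc 1 n, x ^ s + 2 * x ^ (n + 1) ≤ 2 * x := by
    induction n with
    | zero => simp
    | succ n ih =>
      rw [Finset.sum_Icc_succ_top (by omega)]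
      have := pow_nonneg h0 (n + 1)
      rw [pow_succ x (n + 1)]
      nlinarith
  have := pow_nonneg h0 (n + 1)
  linarith

lemma P_sparse (h : IsD ν) (A : σ → Option K) {R : ℝ} (hR : ∑ s, ν s * one (A s ≠ none) ≤ R)
    {T sm : ℕ} (hT : 2 * Real.exp 1 * R * sm ≤ T) (S : Finset V) (h0 : 0 < S.card)
    (h1 : S.card ≤ sm) :
    Ex (fun _ : Sym2 V => ν) (fun x =>
      one (2 * T * S.card < ∑ u ∈ S, (Aj (fun e => A (x e)) u ∩ S).card)) ≤
      ((S.card / (2 * sm) : ℝ) ^ T) ^ S.card := by
  have hh : ∀ _ : Sym2 V, IsD ν := fun _ => h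
  obtain ⟨s, hs⟩ : ∃ s, s = S.card := ⟨_, rfl⟩
  rw [← hs] at h0 h1 ⊢
  have a0 : 0 ≤ R := (sum_one_nonneg h (fun s => A s ≠ none)).trans hR
  have a1 : (0 : ℝ) < s := by exact_mod_cast h0
  have a2 : (s : ℝ) ≤ sm := by exact_mod_cast h1
  have a3 : 1 ≤ Real.exp 1 := Real.one_le_exp (by norm_num)
  obtain ⟨l, hl⟩ : ∃ l : ℝ, l = 2 * Real.exp 1 * sm / s := ⟨_, rfl⟩
  have a4 : 1 ≤ l := by rw [hl, le_div_iff₀ a1]; nlinarith
  obtain ⟨B, hB⟩ : ∃ B, B = (S ×ˢ S).image fun p => s(p.1, p.2) := ⟨_, rfl⟩
  have a5 : B.card ≤ s ^ 2 := by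
    rw [hB, pow_two, hs, ← Finset.card_product]; exact Finset.card_image_le
  let φ : σ → ℝ := fun t => if A t ≠ none then l else 1
  have a6 : ∀ t, 0 ≤ φ t := fun t => by simp only [φ]; split_ifs <;> linarith
  have a7 : ∑ t, ν t * φ t ≤ 1 + R * l := by
    have : ∀ t, ν t * φ t ≤ ν t + l * (ν t * one (A t ≠ none)) := by
      intro t; simp only [φ]; split_ifs with a
      · rw [one_pos a]; nlinarith [h.1 t]
      · rw [one_neg a]; linarith
    refine (Finset.sum_le_sum fun t _ => this t).trans ?_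
    rw [Finset.sum_add_distrib, ← Finset.mul_sum, h.2]
    nlinarith
  calc _ ≤ Ex (fun _ : Sym2 V => ν) (fun x => (l ^ (T * s))⁻¹ * ∏ e ∈ B, φ (x e)) := by
        refine Ex_mono hh fun x => one_le_of
          (mul_nonneg (by positivity) (Finset.prod_nonneg fun _ _ => a6 _)) fun hx => ?_
        simp only [φ]
        rw [Finset.prod_ite, Finset.prod_const, Finset.prod_const_one, mul_one, ← div_eq_inv_mul,
          le_div_iff₀ (by positivity), one_mul]
        refine pow_le_pow_right₀ a4 ?_
        let Q : Finset (V × V) := (S ×ˢ S).filter fun p => p.2 ∈ Aj (fun e => A (x e)) p.1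
        have b1 : ∑ u ∈ S, (Aj (fun e => A (x e)) u ∩ S).card ≤ Q.card := by
          rw [← Finset.card_sigma]
          refine Finset.card_le_card_of_injOn (fun y => (y.1, y.2)) (fun y hy => ?_) ?_
          · rw [Finset.mem_coe, Finset.mem_sigma, Finset.mem_inter] at hy
            exact Finset.mem_coe.2 (Finset.mem_filter.2 ⟨Finset.mem_product.2 ⟨hy.1, hy.2.2⟩, hy.2.1⟩)
          · rintro ⟨u, w⟩ _ ⟨u', w'⟩ _ h
            obtain ⟨rfl, rfl⟩ := Prod.mk.inj h
            rfl
        have b2 := card_le_two_mul_image Q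
        have b3 : (Q.image fun p => s(p.1, p.2)).card ≤ (B.filter fun e => A (x e) ≠ none).card := by
          refine Finset.card_le_card fun e he => ?_
          obtain ⟨p, hp, rfl⟩ := Finset.mem_image.1 he
          rw [Finset.mem_filter] at hp ⊢
          exact ⟨hB ▸ Finset.mem_image_of_mem _ hp.1, (mem_Aj.1 hp.2).2⟩
        rw [mul_assoc] at hx
        omega
    _ ≤ _ := by
        rw [Ex_const_mul, Ex_one h]
        have b1 : (∑ t, ν t * φ t) ^ B.card ≤ Real.exp 1 ^ (T * s) := by
          calc _ ≤ Real.exp (R * l) ^ B.card := pow_le_pow_left₀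
                (Finset.sum_nonneg fun t _ => mul_nonneg (h.1 t) (a6 t))
                (a7.trans (by linarith [Real.add_one_le_exp (R * l)])) _
            _ ≤ Real.exp (R * l) ^ (s ^ 2) := pow_le_pow_right₀ (Real.one_le_exp (by positivity)) a5
            _ ≤ _ := by
              rw [← Real.exp_nat_mul, ← Real.exp_nat_mul]
              apply Real.exp_le_exp.2
              push_cast
              have : (s : ℝ) ^ 2 * (R * l) = 2 * Real.exp 1 * R * sm * s := by
                rw [hl]; field_simp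
              rw [this, mul_one]
              exact mul_le_mul_of_nonneg_right hT a1.le
        refine (mul_le_mul_of_nonneg_left b1 (by positivity)).trans (le_of_eq ?_)
        rw [← pow_mul, ← inv_pow, ← mul_pow]
        congr 1
        have : (0 : ℝ) < sm := by linarith
        rw [hl]; field_simp

lemma P_E5 (h : IsD ν) (A : σ → Option K) {R : ℝ} (hR : ∑ s, ν s * one (A s ≠ none) ≤ R)
    {T sm : ℕ} (hT : 2 * Real.exp 1 * R * sm ≤ T) (hT1 : 1 ≤ T) {x0 : ℝ}
    (hx : Real.exp 1 * Fintype.card V / sm * (1 / 2) ^ T ≤ x0) (hx0 : x0 ≤ 1 / 2) :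
    Ex (fun _ : Sym2 V => ν) (fun x => one (¬ E5 (fun e => A (x e)) T sm)) ≤ 2 * x0 := by
  have hh : ∀ _ : Sym2 V, IsD ν := fun _ => h
  have hx1 : 0 ≤ x0 := le_trans (by positivity) hx
  calc _ ≤ Ex (fun _ : Sym2 V => ν) (fun x => one (∃ s ∈ Icc 1 sm,
        ∃ S ∈ powersetCard s (univ : Finset V),
        2 * T * S.card < ∑ u ∈ S, (Aj (fun e => A (x e)) u ∩ S).card)) := by
        refine Ex_mono hh fun x => one_mono fun hx => ?_
        unfold E5 at hx
        push Not at hx
        obtain ⟨S, a1, a2⟩ := hx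
        refine ⟨S.card, Finset.mem_Icc.2 ⟨?_, a1⟩, S, by simp, a2⟩
        rcases S.eq_empty_or_nonempty with rfl | a3
        · simp at a2
        · exact Finset.card_pos.2 a3
    _ ≤ _ := by
        refine (Ex_exists_le hh _ _).trans (le_trans (Finset.sum_le_sum fun s hs => ?_)
          (geom_le hx1 hx0 sm))
        rw [Finset.mem_Icc] at hs
        have a1 : (0 : ℝ) < s := by exact_mod_cast hs.1
        have a2 : (s : ℝ) ≤ sm := by exact_mod_cast hs.2
        have a3 : (0 : ℝ) < sm := by linarith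
        refine (Ex_exists_le hh _ _).trans ?_
        refine (Finset.sum_le_card_nsmul _ _ (((s / (2 * sm) : ℝ) ^ T) ^ s) fun S hS => ?_).trans ?_
        · have := (Finset.mem_powersetCard.1 hS).2
          subst this
          exact P_sparse h A hR hT S hs.1 hs.2
        · rw [nsmul_eq_mul, Finset.card_powersetCard, Finset.card_univ]
          refine (mul_le_mul_of_nonneg_right (choose_le_exp _ s hs.1) (by positivity)).trans ?_
          rw [← mul_pow]
          refine pow_le_pow_left₀ (by positivity) (le_trans ?_ hx) s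
          have b1 : (s / (2 * sm) : ℝ) ^ T = (s / sm) ^ T * (1 / 2) ^ T := by
            rw [← mul_pow]; congr 1; field_simp
          have b2 : (s / sm : ℝ) ^ T ≤ s / sm :=
            pow_le_of_le_one (by positivity) ((div_le_one a3).2 a2) (by omega)
          rw [b1]
          calc _ ≤ Real.exp 1 * Fintype.card V / s * (s / sm * (1 / 2) ^ T) := by gcongr
            _ = _ := by field_simp

lemma P_boost {ι : Type*} [Fintype ι] [DecidableEq ι] {ν : Bool → ℝ} (h : IsD ν) {p τ : ℝ}
    (hp0 : 0 ≤ p) (hp : ν true = p) (hτ0 : 0 < τ) (hτ1 : τ ≤ 1) (φ : Finset ι → ℕ) {M β : ℕ}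
    (F0 : Finset ι)
    (hb : ∀ F', φ F' < M → β ≤ (F0.filter fun e => φ F' < φ (insert e F')).card) :
    Ex (fun _ : ι => ν) (fun J => one (∀ F' ⊆ F0, (∀ e ∈ F', J e = true) → φ F' < M)) ≤
      (τ ^ M)⁻¹ * Real.exp (p * τ * Fintype.card ι) * Real.exp (-(p * β)) := by
  classical
  have hh : ∀ _ : ι, IsD ν := fun _ => h
  have e1 : ∑ s, ν s * one (s = true) = p := by simp [one_pos, one_neg, hp]
  calc _ ≤ Ex (fun _ : ι => ν) (fun J => one (∃ F' ∈ univ.filter
        (fun F' : Finset ι => φ F' < M ∧ F'.card ≤ M), (∀ e ∈ F', J e = true) ∧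
          ∀ e ∈ F0.filter fun e => φ F' < φ (insert e F'), ¬ J e = true)) := by
        refine Ex_mono hh fun J => one_mono fun hJ => ?_
        obtain ⟨F', a1, a2⟩ := Finset.exists_max_image (univ.filter fun F' : Finset ι =>
          F' ⊆ F0 ∧ (∀ e ∈ F', J e = true) ∧ F'.card ≤ φ F') φ ⟨∅, by simp⟩
        obtain ⟨b1, b2, b3⟩ := (Finset.mem_filter.1 a1).2
        have b4 := hJ F' b1 b2
        refine ⟨F', Finset.mem_filter.2 ⟨Finset.mem_univ _, b4, by omega⟩, b2, fun e he hJe => ?_⟩
        rw [Finset.mem_filter] at he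
        have := a2 (insert e F') (Finset.mem_filter.2 ⟨Finset.mem_univ _,
          Finset.insert_subset he.1 b1, fun e' he' => by
            rcases Finset.mem_insert.1 he' with rfl | he'
            · exact hJe
            · exact b2 e' he',
          (Finset.card_insert_le _ _).trans (by omega)⟩)
        omega
    _ ≤ ∑ F' : Finset ι, (τ ^ M)⁻¹ * Real.exp (-(p * β)) * (p * τ) ^ F'.card := by
        refine (Ex_exists_le hh _ _).trans (le_trans (Finset.sum_le_sum fun F' hF' => ?_)
          (Finset.sum_le_sum_of_subset_of_nonneg (Finset.filter_subset _ _)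
            fun _ _ _ => by positivity))
        obtain ⟨a1, a2⟩ := (Finset.mem_filter.1 hF').2
        have a3 : Disjoint F' (F0.filter fun e => φ F' < φ (insert e F')) := by
          rw [Finset.disjoint_left]
          intro e he he'
          have := (Finset.mem_filter.1 he').2
          rw [Finset.insert_eq_of_mem he] at this
          omega
        have a4 := Ex_two h a3 (fun s => one (s = true)) (fun s => one (¬ s = true))
        simp_rw [one_and, one_forall]
        rw [a4, e1]
        have a5 := pow_le_exp (sum_one_nonneg h (fun s => ¬ s = true))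
          (by rw [sum_one_not h, e1]) hp0 (g := β) (Nat.cast_le.2 (hb F' a1))
        have a6 : p ^ F'.card ≤ (τ ^ M)⁻¹ * (p * τ) ^ F'.card := by
          rw [mul_pow, ← div_eq_inv_mul, le_div_iff₀ (by positivity)]
          exact mul_le_mul_of_nonneg_left (pow_le_pow_of_le_one hτ0.le hτ1 a2) (by positivity)
        calc _ ≤ (τ ^ M)⁻¹ * (p * τ) ^ F'.card * Real.exp (-(p * β)) :=
              mul_le_mul a6 a5 (pow_nonneg (sum_one_nonneg h _) _) (by positivity)
          _ = _ := by ring
    _ ≤ _ := by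
        rw [← Finset.mul_sum]
        have a1 := Finset.prod_one_add (s := (univ : Finset ι)) (f := fun _ => p * τ)
        simp only [Finset.prod_const, Finset.powerset_univ, Finset.card_univ] at a1
        rw [← a1]
        have a2 : (1 + p * τ) ^ Fintype.card ι ≤ Real.exp (p * τ * Fintype.card ι) := by
          rw [mul_comm (p * τ), Real.exp_nat_mul]
          exact pow_le_pow_left₀ (by positivity) (by linarith [Real.add_one_le_exp (p * τ)]) _
        calc _ ≤ (τ ^ M)⁻¹ * Real.exp (-(p * β)) * Real.exp (p * τ * Fintype.card ι) := by gcongr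
          _ = _ := by ring

end Pool.Agent.Lib.MP_753083_pr
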