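import Mathlib

set_option autoImplicit false
set_option linter.unusedSectionVars false
open Finset

namespace Pool.Agent.Lib.MP_753083_pr

/- A Friedman-Pippenger type extension lemma with labelled parents. -/

variable {V U : Type*} [Fintype V] [DecidableEq V] [Fintype U] [DecidableEq U]

def Nb (Γ : U → Finset V) (par : V → Option U) (A : Finset U) : Finset V :=
  A.biUnion fun u => (Γ u).filter fun y => par y = none ∨ par y = some u

def dom (par : V → Option U) : Finset V := univ.filter fun y => par y ≠ none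

def Good (L : Finset U) (Γ : U → Finset V) (m D : ℕ) (par : V → Option U) : Prop :=
  ∀ A ⊆ L, A.card ≤ 2 * m → D * A.card ≤ (Nb Γ par A).card

lemma mem_Nb {Γ : U → Finset V} {par : V → Option U} {A : Finset U} {y : V} :
    y ∈ Nb Γ par A ↔ ∃ u ∈ A, y ∈ Γ u ∧ (par y = none ∨ par y = some u) := by
  simp [Nb]

lemma mem_dom {par : V → Option U} {y : V} : y ∈ dom par ↔ par y ≠ none := by simp [dom]

lemma Good.rollback {L : Finset U} {Γ : U → Finset V} {m D : ℕ} {par par' : V → Option U}
    (h : Good L Γ m D par) (hp : ∀ y, par' y = none ∨ par' y = par y) : Good L Γ m D par' := by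
  intro A hA hc
  refine (h A hA hc).trans (Finset.card_le_card fun y hy => ?_)
  rw [mem_Nb] at hy ⊢
  obtain ⟨u, hu, h1, h2⟩ := hy
  refine ⟨u, hu, h1, ?_⟩
  rcases hp y with h3 | h3
  · exact Or.inl h3
  · rw [h3]; exact h2

lemma extend {L : Finset U} {Γ : U → Finset V} {m D M : ℕ} {par : V → Option U}
    (hG : Good L Γ m D par) (hbig : ∀ A ⊆ L, m ≤ A.card → M ≤ (A.biUnion Γ).card)
    (hM : (dom par).card + 2 * m * D < M) {u0 : U} (hu0 : u0 ∈ L)
    (hu : ((Γ u0).filter fun y => par y = some u0).card < D) :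
    ∃ y ∈ Γ u0, par y = none ∧ Good L Γ m D (Function.update par y (some u0)) := by
  classical
  by_contra hcon
  push Not at hcon
  let Tight : Finset U → Prop := fun A =>
    A ⊆ L ∧ u0 ∉ A ∧ A.card ≤ 2 * m ∧ (Nb Γ par A).card ≤ D * A.card
  have hsmall : ∀ A, Tight A → A.card < m := by
    rintro A ⟨h1, -, h3, h4⟩
    by_contra h5
    have h6 := hbig A h1 (not_lt.1 h5)
    have h7 : A.biUnion Γ ⊆ Nb Γ par A ∪ dom par := by
      intro y hy
      rw [Finset.mem_union, mem_Nb, mem_dom]
      obtain ⟨u, hu1, hu2⟩ := Finset.mem_biUnion.1 hy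
      by_cases h : par y = none
      · exact Or.inl ⟨u, hu1, hu2, Or.inl h⟩
      · exact Or.inr h
    have h8 := (Finset.card_le_card h7).trans (Finset.card_union_le _ _)
    have h9 : D * A.card ≤ D * (2 * m) := Nat.mul_le_mul_left _ h3
    nlinarith
  have hun : ∀ A B, Tight A → Tight B → Tight (A ∪ B) := by
    intro A B hA hB
    have a1 := hsmall A hA
    have a2 := hsmall B hB
    obtain ⟨h1, h2, h3, h4⟩ := hA
    obtain ⟨h1', h2', h3', h4'⟩ := hB
    have a3 := Finset.card_union_add_card_inter A B
    refine ⟨Finset.union_subset h1 h1', by simp [h2, h2'], by omega, ?_⟩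
    have a4 : Nb Γ par (A ∪ B) = Nb Γ par A ∪ Nb Γ par B := by
      unfold Nb; exact Finset.union_biUnion
    have a5 : Nb Γ par (A ∩ B) ⊆ Nb Γ par A ∩ Nb Γ par B := by
      intro y hy
      rw [mem_Nb] at hy
      obtain ⟨u, hu1, hu2⟩ := hy
      rw [Finset.mem_inter] at hu1
      rw [Finset.mem_inter, mem_Nb, mem_Nb]
      exact ⟨⟨u, hu1.1, hu2⟩, ⟨u, hu1.2, hu2⟩⟩
    have a6 := hG (A ∩ B) (Finset.inter_subset_left.trans h1)
      ((Finset.card_le_card Finset.inter_subset_left).trans h3)
    have a7 := Finset.card_le_card a5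
    have a8 := Finset.card_union_add_card_inter (Nb Γ par A) (Nb Γ par B)
    rw [a4]
    have a9 : D * (A ∪ B).card + D * (A ∩ B).card = D * A.card + D * B.card := by
      rw [← mul_add, ← mul_add, a3]
    omega
  obtain ⟨A, hA, hmax⟩ := Finset.exists_max_image (univ.filter Tight) Finset.card
    ⟨∅, by simp [Tight, Nb]⟩
  have hA' : Tight A := (Finset.mem_filter.1 hA).2
  have hsub : ∀ B, Tight B → B ⊆ A := by
    intro B hB
    have := hmax (A ∪ B) (by simp [hun A B hA' hB])
    have h2 := Finset.eq_of_subset_of_card_le (Finset.subset_union_left (s₁ := A) (s₂ := B)) this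
    rw [h2]; exact Finset.subset_union_right
  have hfree : ∀ y ∈ Γ u0, par y = none → y ∈ Nb Γ par A := by
    intro y hy hp
    have := hcon y hy hp
    unfold Good at this
    push Not at this
    obtain ⟨B, hB1, hB2, hB3⟩ := this
    have b1 := hG B hB1 hB2
    have b2 : ∀ z ∈ Nb Γ par B, z ≠ y → z ∈ Nb Γ (Function.update par y (some u0)) B := by
      intro z hz hzy
      rw [mem_Nb] at hz ⊢
      rwa [Function.update_of_ne hzy]
    have b3 : y ∈ Nb Γ par B ∧ y ∉ Nb Γ (Function.update par y (some u0)) B := by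
      by_contra b4
      have : Nb Γ par B ⊆ Nb Γ (Function.update par y (some u0)) B := by
        intro z hz
        by_cases hzy : z = y
        · subst hzy; by_contra b5; exact b4 ⟨hz, b5⟩
        · exact b2 z hz hzy
      have := Finset.card_le_card this
      omega
    have b4 : u0 ∉ B := by
      intro b5
      apply b3.2
      rw [mem_Nb]
      exact ⟨u0, b5, hy, Or.inr (by simp)⟩
    have b5 : (Nb Γ par B).erase y ⊆ Nb Γ (Function.update par y (some u0)) B := by
      intro z hz
      rw [Finset.mem_erase] at hz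
      exact b2 z hz.2 hz.1
    have b6 := Finset.card_le_card b5
    rw [Finset.card_erase_of_mem b3.1] at b6
    have b7 : Tight B := ⟨hB1, b4, hB2, by omega⟩
    have b8 := b3.1
    rw [mem_Nb] at b8 ⊢
    obtain ⟨u, hu1, hu2⟩ := b8
    exact ⟨u, hsub B b7 hu1, hu2⟩
  have c1 := hsmall A hA'
  obtain ⟨h1, h2, h3, h4⟩ := hA'
  have c2 := hG (insert u0 A) (Finset.insert_subset hu0 h1)
    (by rw [Finset.card_insert_of_notMem h2]; omega)
  have c3 : Nb Γ par (insert u0 A) ⊆ Nb Γ par A ∪ (Γ u0).filter fun y => par y = some u0 := by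
    intro y hy
    rw [mem_Nb] at hy
    obtain ⟨u, hu1, hu2, hu3⟩ := hy
    rw [Finset.mem_union]
    rcases Finset.mem_insert.1 hu1 with rfl | hu1
    · rcases hu3 with hu3 | hu3
      · exact Or.inl (hfree y hu2 hu3)
      · exact Or.inr (Finset.mem_filter.2 ⟨hu2, hu3⟩)
    · exact Or.inl (mem_Nb.2 ⟨u, hu1, hu2, hu3⟩)
  have c4 := (Finset.card_le_card c3).trans (Finset.card_union_le _ _)
  rw [Finset.card_insert_of_notMem h2, mul_add] at c2
  omega

lemma saturate {L : Finset U} {Γ : U → Finset V} {m D M : ℕ} {par : V → Option U}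
    (hG : Good L Γ m D par) (hbig : ∀ A ⊆ L, m ≤ A.card → M ≤ (A.biUnion Γ).card)
    {Lab : Finset U} (hL : Lab ⊆ L) (h0 : ∀ u ∈ Lab, ∀ y, par y ≠ some u)
    (hM : (dom par).card + D * Lab.card + 2 * m * D < M) :
    ∃ par' : V → Option U, Good L Γ m D par' ∧ (∀ y, par y ≠ none → par' y = par y) ∧
      (∀ y u, par' y = some u → par y = some u ∨ (u ∈ Lab ∧ y ∈ Γ u)) ∧
      (dom par').card ≤ (dom par).card + D * Lab.card ∧
      ∀ u ∈ Lab, D ≤ ((Γ u).filter fun y => par' y = some u).card := by
  classical
  let P : (V → Option U) → Prop := fun par' => Good L Γ m D par' ∧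
    (∀ y, par y ≠ none → par' y = par y) ∧
    (∀ y u, par' y = some u → par y = some u ∨ (u ∈ Lab ∧ y ∈ Γ u)) ∧
    ∀ u ∈ Lab, ((Γ u).filter fun y => par' y = some u).card ≤ D
  have hP0 : P par := by
    refine ⟨hG, fun _ _ => rfl, fun _ _ h => Or.inl h, fun u hu => ?_⟩
    rw [Finset.filter_false_of_mem fun y _ => h0 u hu y]; simp
  obtain ⟨p, hp, hmax⟩ := Finset.exists_max_image (univ.filter P) (fun p => (dom p).card)
    ⟨par, by simp [hP0]⟩
  obtain ⟨h1, h2, h3, h4⟩ : P p := (Finset.mem_filter.1 hp).2
  have hd : (dom p).card ≤ (dom par).card + D * Lab.card := by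
    have : dom p ⊆ dom par ∪ Lab.biUnion fun u => (Γ u).filter fun y => p y = some u := by
      intro y hy
      rw [mem_dom] at hy
      obtain ⟨u, hu⟩ := Option.ne_none_iff_exists'.1 hy
      rw [Finset.mem_union, mem_dom]
      rcases h3 y u hu with h | h
      · left; rw [h]; simp
      · right; exact Finset.mem_biUnion.2 ⟨u, h.1, Finset.mem_filter.2 ⟨h.2, hu⟩⟩
    refine (Finset.card_le_card this).trans ((Finset.card_union_le _ _).trans ?_)
    have h5 := Finset.card_biUnion_le_card_mul Lab _ D h4
    rw [mul_comm] at h5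
    omega
  refine ⟨p, h1, h2, h3, hd, fun u hu => ?_⟩
  by_contra hlt
  obtain ⟨y, hy1, hy2, hy3⟩ := extend h1 hbig (by omega) (hL hu) (not_le.1 hlt)
  have hP : P (Function.update p y (some u)) := by
    refine ⟨hy3, fun z hz => ?_, fun z w hz => ?_, fun w hw => ?_⟩
    · have : z ≠ y := by rintro rfl; exact hz (by rw [← h2 z hz]; exact hy2)
      rw [Function.update_of_ne this]; exact h2 z hz
    · by_cases hzy : z = y
      · subst hzy
        rw [Function.update_self] at hz
        obtain rfl := Option.some.inj hz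
        exact Or.inr ⟨hu, hy1⟩
      · rw [Function.update_of_ne hzy] at hz; exact h3 z w hz
    · by_cases hwu : w = u
      · subst hwu
        have : ((Γ w).filter fun z => Function.update p y (some w) z = some w) ⊆
            insert y ((Γ w).filter fun z => p z = some w) := by
          intro z hz
          rw [Finset.mem_filter] at hz
          by_cases hzy : z = y
          · simp [hzy]
          · rw [Function.update_of_ne hzy] at hz
            exact Finset.mem_insert_of_mem (Finset.mem_filter.2 hz)
        have := (Finset.card_le_card this).trans (Finset.card_insert_le _ _)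
        omega
      · refine le_trans (Finset.card_le_card fun z hz => ?_) (h4 w hw)
        rw [Finset.mem_filter] at hz ⊢
        by_cases hzy : z = y
        · subst hzy
          rw [Function.update_self] at hz
          exact absurd (Option.some.inj hz.2).symm hwu
        · rwa [Function.update_of_ne hzy] at hz
  have h5 := hmax _ (Finset.mem_filter.2 ⟨Finset.mem_univ _, hP⟩)
  have h6 : dom (Function.update p y (some u)) = insert y (dom p) := by
    ext z
    rw [Finset.mem_insert, mem_dom, mem_dom]
    by_cases hzy : z = y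
    · simp [hzy]
    · simp [hzy]
  rw [h6, Finset.card_insert_of_notMem (by rw [mem_dom]; simp [hy2])] at h5
  omega

end Pool.Agent.Lib.MP_753083_pr
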