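import Pool.Agent.Lib.MP_753083_pr.Est2

set_option autoImplicit false
set_option linter.unusedSectionVars false
open Finset

namespace Pool.Agent.Lib.MP_753083_pr

variable {V K : Type*} [Fintype V] [DecidableEq V] [Fintype K] [DecidableEq K]

lemma Wit.mono {ok ok' : V → V → K → Prop} {c : ℕ → K} {N : ℕ} (h : Wit ok c N)
    (hh : ∀ u v j, ok u v j → ok' u v j) : Wit ok' c N := by
  obtain ⟨x, h1, h2, h3⟩ := h
  exact ⟨x, h1, h2, fun i hi => hh _ _ _ (h3 i hi)⟩

noncomputable def Phi (c : ℕ → K) (N : ℕ) (x : Sym2 V → Finset K) : ℝ :=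
  one (¬ Wit (fun u v j => j ∈ x s(u, v)) c N)

lemma Phi_anti (c : ℕ → K) (N : ℕ) (x : Sym2 V → Finset K) (e : Sym2 V) {A B : Finset K}
    (h : A ⊆ B) : Phi c N (Function.update x e B) ≤ Phi c N (Function.update x e A) := by
  refine one_mono (mt fun hw => hw.mono fun u v j hj => ?_)
  by_cases he : s(u, v) = e
  · rw [he, Function.update_self] at hj ⊢; exact h hj
  · rwa [Function.update_of_ne he] at hj ⊢

lemma Phi_single (c : ℕ → K) {N : ℕ} (hN : 3 ≤ N) (x : Sym2 V → Finset K) (e : Sym2 V) :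
    ∃ j, Phi c N (Function.update x e {j}) ≤ Phi c N (Function.update x e univ) := by
  by_cases hw : Wit (fun u v j => j ∈ Function.update x e univ s(u, v)) c N
  · obtain ⟨y, h1, h2, h3⟩ := hw
    have h4 : ∀ i < N, ∀ i' < N, y i = y (i' + 1) → i = i' + 1 ∨ (i = 0 ∧ i' + 1 = N) := by
      intro i hi i' hi' h
      by_cases a : i' + 1 < N
      · exact Or.inl (h1 _ hi _ a h)
      · have : i' + 1 = N := by omega
        rw [this, h2] at h
        exact Or.inr ⟨h1 _ hi _ (by omega) h, this⟩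
    have h5 : ∃ j, ∀ i < N, s(y i, y (i + 1)) = e → c i = j := by
      by_cases a : ∃ i < N, s(y i, y (i + 1)) = e
      · obtain ⟨i, hi, a⟩ := a
        refine ⟨c i, fun i' hi' b => ?_⟩
        rcases Sym2.eq_iff.1 (a.trans b.symm) with d | d
        · rw [h1 _ hi _ hi' d.1]
        · have := h4 i hi i' hi' d.1
          have := h4 i' hi' i hi d.2.symm
          omega
      · exact ⟨c 0, fun i hi b => absurd ⟨i, hi, b⟩ a⟩
    obtain ⟨j, h5⟩ := h5
    refine ⟨j, ?_⟩
    refine one_le_of (one_nonneg _) fun hn => absurd ⟨y, h1, h2, fun i hi => ?_⟩ hn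
    by_cases he : s(y i, y (i + 1)) = e
    · simp only [he, Function.update_self, h5 i hi he, Finset.mem_singleton]
    · have := h3 i hi
      simp only [Function.update_of_ne he] at this ⊢
      exact this
  · exact ⟨c 0, by unfold Phi; rw [one_pos hw]; exact one_le _⟩

def wv (r : K → ℝ) : Option K → ℝ := fun o => o.elim (1 - ∑ j, r j) r

lemma sum_wv (r : K → ℝ) (φ : Option K → ℝ) :
    ∑ o, wv r o * φ o = (1 - ∑ j, r j) * φ none + ∑ j, r j * φ (some j) := by
  rw [Fintype.sum_option]; rfl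

lemma isD_wv {r : K → ℝ} (h0 : ∀ j, 0 ≤ r j) (h1 : ∑ j, r j ≤ 1) : IsD (wv r) := by
  refine ⟨fun o => ?_, ?_⟩
  · cases o with
    | none => simp only [wv, Option.elim]; linarith
    | some j => exact h0 j
  · have := sum_wv r (fun _ => 1)
    simp only [mul_one] at this
    rw [this]; ring

def wb (p : ℝ) : Bool → ℝ := fun b => if b then p else 1 - p

lemma isD_wb {p : ℝ} (h0 : 0 ≤ p) (h1 : p ≤ 1) : IsD (wb p) := by
  refine ⟨fun b => ?_, by simp [wb]⟩
  cases b
  · simp only [wb]; simp; linarith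
  · simpa [wb] using h0

lemma isD_const {p : ℝ} (h0 : 0 ≤ p) (h1 : Fintype.card K * p ≤ 1) : IsD (wv fun _ : K => p) :=
  isD_wv (fun _ => h0) (by simpa using h1)

theorem joker_bound [Nonempty K] {W1 : Finset V} {N D D' T0 T1 d0 m1 m' hh Lm M s E0 β g : ℕ}
    (hN : Fintype.card V = N)
    (hn : Num N (Fintype.card K) W1.card W1ᶜ.card D D' T0 T1 d0 m1 m' hh Lm M s E0 β)
    (hg40 : 40 * (g + E0) ≤ m' * N) {p1 τ : ℝ} (h0 : 0 ≤ p1) (h1 : Fintype.card K * p1 ≤ 1)
    (hτ0 : 0 < τ) (hτ1 : τ ≤ 1)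
    {a b : Sym2 V → Option K}
    (hg : GoodAF W1 D T0 T1 d0 m1 m' E0 a (fun e => (a e).or (b e))) (c : ℕ → K) :
    Ex (fun _ : Sym2 V => wv fun _ : K => p1) (fun b' => one (¬ Wit (fun u v j =>
      (a s(u, v)).or (if Touch (Xs W1 a d0) s(u, v) then b s(u, v) else b' s(u, v)) = some j) c N)) ≤
      4 ^ N * Real.exp (-(p1 / 2 * g)) +
        (τ ^ N)⁻¹ * Real.exp (p1 / 2 * τ * N ^ 2) * Real.exp (-(p1 / 2 * β)) := by
  classical
  have hk : (1 : ℝ) ≤ Fintype.card K := by exact_mod_cast Fintype.card_pos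
  have hp1 : p1 ≤ 1 := by nlinarith
  have hD := isD_const h0 h1
  have hB : IsD (wb (p1 / 2)) := isD_wb (by linarith) (by linarith)
  have hdet := fun J h7 => det hN hn (f := fun e => (a e).or (b e)) (J := J)
    (fun e he => by cases h : a e <;> simp_all) hg h7 c
  have e4 := hg.e4
  obtain ⟨X, hX⟩ : ∃ X, X = Xs W1 a d0 := ⟨_, rfl⟩
  rw [← hX] at hdet ⊢
  let fx : Sym2 V → Finset K := fun e =>
    univ.filter fun j => a e = some j ∨ (Touch X e ∧ (a e).or (b e) = some j)
  let st : Sym2 V → Option K → Finset K := fun e t =>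
    if e ∈ Free X a then t.elim ∅ (fun j => {j}) else fx e
  let st' : Sym2 V → Bool × Bool → Finset K := fun e t =>
    if e ∈ Free X a then (if t.1 = true ∨ t.2 = true then univ else ∅) else fx e
  calc _ ≤ Ex (fun _ : Sym2 V => wv fun _ : K => p1) (fun b' => Phi c N (fun e => st e (b' e))) := by
        refine Ex_mono (fun _ => hD) fun b' => one_mono (mt fun hw => hw.mono fun u v j hj => ?_)
        simp only [st] at hj
        split_ifs at hj with a1
        · obtain ⟨a2, a3⟩ := (Finset.mem_filter.1 a1).2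
          rw [if_neg a2, a3]
          cases h : b' s(u, v) with
          | none => simp [h] at hj
          | some j' => simp [h] at hj; simp [hj]
        · rcases (Finset.mem_filter.1 hj).2 with a2 | a2
          · rw [a2]; rfl
          · rw [if_pos a2.1]; exact a2.2
    _ ≤ Ex (fun (_ : Sym2 V) (t : Bool × Bool) => wb (p1 / 2) t.1 * wb (p1 / 2) t.2)
          (fun J => Phi c N (fun e => st' e (J e))) := by
        refine hybrid hD (hB.prod hB) st st' (Phi c N) fun e x => ?_
        by_cases he : e ∈ Free X a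
        · simp only [st, st', if_pos he]
          rw [sum_wv _ (fun t => Phi c N (Function.update x e (t.elim ∅ (fun j => {j}))))]
          obtain ⟨j0, hj0⟩ := Phi_single c (N := N) (by have := hn.n14; omega) x e
          obtain ⟨u, hu⟩ : ∃ u, u = Phi c N (Function.update x e univ) := ⟨_, rfl⟩
          obtain ⟨z, hz⟩ : ∃ z, z = Phi c N (Function.update x e ∅) := ⟨_, rfl⟩
          have a1 : u ≤ z := by rw [hu, hz]; exact Phi_anti c N x e (Finset.empty_subset _)
          have a2 : ∑ j, p1 * Phi c N (Function.update x e {j}) ≤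
              ∑ j : K, (p1 * z - if j = j0 then p1 * (z - u) else 0) := by
            refine Finset.sum_le_sum fun j _ => ?_
            split_ifs with a3
            · rw [a3, hu]; nlinarith
            · rw [sub_zero, hz]
              exact mul_le_mul_of_nonneg_left (Phi_anti c N x e (Finset.empty_subset _)) h0
          simp only [Finset.sum_sub_distrib, Finset.sum_ite_eq', Finset.mem_univ, if_true,
            Finset.sum_const, Finset.card_univ, nsmul_eq_mul] at a2
          simp only [Option.elim, Finset.sum_const, Finset.card_univ, nsmul_eq_mul,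
            Fintype.sum_prod_type, Fintype.sum_bool, wb]
          simp only [true_or, or_true, if_true, Bool.false_eq_true, or_self, if_false, ← hu, ← hz]
          nlinarith [mul_nonneg (mul_nonneg h0 h0) (sub_nonneg.2 a1)]
        · simp only [st, st', if_neg he]
          rw [← Finset.sum_mul, ← Finset.sum_mul, hD.2, (hB.prod hB).2]
    _ ≤ _ := by
        rw [Ex_pair]
        refine (Ex_mono (fun _ => hB) (g := fun J => one (¬ E7 X (Free X a) J m' N) +
          (τ ^ N)⁻¹ * Real.exp (p1 / 2 * τ * N ^ 2) * Real.exp (-(p1 / 2 * β))) fun J => ?_).trans ?_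
        · by_cases h7 : E7 X (Free X a) J m' N
          · rw [one_neg (not_not.2 h7), zero_add]
            obtain ⟨S, H, F0, s1, s2, s3, s4⟩ := hdet J h7
            have s5 : S.card ≤ N := hN ▸ Finset.card_le_univ S
            refine le_trans (Ex_mono (fun _ => hB) fun J' => one_mono fun hw F' f1 f2 => ?_)
              ((P_boost hB (p := p1 / 2) (by linarith) (by simp [wb]) hτ0 hτ1
                (fun F' => score (Hf H F') S) F0 s3).trans ?_)
            · refine score_lt s2 fun hH => hw ((s4 F' f1 hH).mono fun u v j hj => ?_)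
              simp only [st']
              rcases hj with hj | hj | hj
              · rw [if_neg]
                · exact Finset.mem_filter.2 ⟨Finset.mem_univ _, hj⟩
                · intro a1
                  obtain ⟨a2, a3⟩ := (Finset.mem_filter.1 a1).2
                  rcases hj with hj | hj
                  · rw [a3] at hj; simp at hj
                  · exact a2 hj.1
              · rw [if_pos hj.1, if_pos (Or.inl hj.2)]; exact Finset.mem_univ _
              · rw [if_pos (s1 (f1 hj)), if_pos (Or.inr (f2 _ hj))]; exact Finset.mem_univ _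
            · have a1 : (Fintype.card (Sym2 V) : ℝ) ≤ N ^ 2 := by
                rw [← hN]; exact_mod_cast card_sym2_le
              have a2 : τ ^ N ≤ τ ^ S.card := pow_le_pow_of_le_one hτ0.le hτ1 s5
              gcongr
          · rw [one_pos h7]
            refine (Ex_le_const (fun _ => hB) fun _ => one_le _).trans ?_
            exact le_add_of_nonneg_right (by positivity)
        · rw [Ex_add, Ex_const (fun _ => hB)]
          refine add_le_add ?_ le_rfl
          have := P_E7 hB (p2 := p1 / 2) (by linarith) (by simp [wb]) X a e4 hg40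
          rwa [hN] at this

def ext {N : ℕ} (c0 : K) (c : Fin N → K) : ℕ → K := fun i => if h : i < N then c ⟨i, h⟩ else c0

def All (c0 : K) (N : ℕ) (f : Sym2 V → Option K) : Prop :=
  ∀ c : Fin N → K, Wit (fun u v j => f s(u, v) = some j) (ext c0 c) N

lemma All.mono {c0 : K} {N : ℕ} {f f' : Sym2 V → Option K} (h : All c0 N f)
    (hh : ∀ e j, f e = some j → f' e = some j) : All c0 N f' :=
  fun c => (h c).mono fun _ _ _ => hh _ _

lemma sum_or {p0 p1 : ℝ} (φ : Option K → ℝ) :
    ∑ t : Option K × Option K, wv (fun _ : K => p0) t.1 * wv (fun _ : K => p1) t.2 * φ (t.1.or t.2) =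
      ∑ o, wv (fun _ : K => p0 + p1 - Fintype.card K * p0 * p1) o * φ o := by
  rw [Fintype.sum_prod_type, sum_wv, Fintype.sum_option]
  simp only [Fintype.sum_option, wv, Option.elim, Option.none_or, Option.some_or, Finset.sum_const,
    Finset.card_univ, nsmul_eq_mul, ← Finset.mul_sum, ← Finset.sum_mul]
  ring

lemma sum_fst {p0 p1 : ℝ} (φ : Option K → ℝ) :
    ∑ t : Option K × Option K, wv (fun _ : K => p0) t.1 * wv (fun _ : K => p1) t.2 * φ t.1 =
      ∑ o, wv (fun _ : K => p0) o * φ o := by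
  rw [Fintype.sum_prod_type]
  refine Finset.sum_congr rfl fun o _ => ?_
  have := sum_wv (fun _ : K => p1) (fun _ => 1)
  simp only [mul_one, sub_add_cancel] at this
  dsimp only
  rw [← Finset.sum_mul, ← Finset.mul_sum, this, mul_one]

lemma sum_wv_some (p : ℝ) (j : K) : ∑ o, wv (fun _ : K => p) o * one (o = some j) = p := by
  rw [sum_wv, one_neg (by simp), mul_zero, zero_add, Finset.sum_eq_single j]
  · rw [one_pos rfl, mul_one]
  · intro j' _ h; rw [one_neg (by simpa using h), mul_zero]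
  · simp

lemma sum_wv_ne (p : ℝ) : ∑ o, wv (fun _ : K => p) o * one (o ≠ none) = Fintype.card K * p := by
  rw [sum_wv, one_neg (by simp), mul_zero, zero_add]
  simp [one_pos]

theorem fail_bound [Nonempty K] (c0 : K) {W1 : Finset V}
    {N D D' T0 T1 d0 m1 m' hh Lm M s E0 β g : ℕ} (hN : Fintype.card V = N)
    (hn : Num N (Fintype.card K) W1.card W1ᶜ.card D D' T0 T1 d0 m1 m' hh Lm M s E0 β)
    (hg40 : 40 * (g + E0) ≤ m' * N) {p0 p1 p τ : ℝ} (h0 : 0 ≤ p0) (h0' : 0 ≤ p1)
    (h1 : Fintype.card K * p0 ≤ 1) (h1' : Fintype.card K * p1 ≤ 1)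
    (hp : p = p0 + p1 - Fintype.card K * p0 * p1) (hτ0 : 0 < τ) (hτ1 : τ ≤ 1)
    {r : K → ℝ} (hr : ∀ j, p ≤ r j) (hr1 : ∑ j, r j ≤ 1) :
    Ex (fun _ : Sym2 V => wv r) (fun f => one (¬ All c0 N f)) ≤
      Ex (fun (_ : Sym2 V) (t : Option K × Option K) =>
          wv (fun _ : K => p0) t.1 * wv (fun _ : K => p1) t.2)
        (fun x => one (¬ GoodAF W1 D T0 T1 d0 m1 m' E0 (fun e => (x e).1)
          (fun e => (x e).1.or (x e).2))) +
      Fintype.card K ^ N * (4 ^ N * Real.exp (-(p1 / 2 * g)) +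
        (τ ^ N)⁻¹ * Real.exp (p1 / 2 * τ * N ^ 2) * Real.exp (-(p1 / 2 * β))) := by
  have hDa := isD_const h0 h1
  have hDb := isD_const h0' h1'
  have hp0 : 0 ≤ p := by rw [hp]; nlinarith
  have hDr : IsD (wv r) := isD_wv (fun j => hp0.trans (hr j)) hr1
  calc _ ≤ Ex (fun (_ : Sym2 V) (t : Option K × Option K) =>
          wv (fun _ : K => p0) t.1 * wv (fun _ : K => p1) t.2)
        (fun x => one (¬ All c0 N (fun e => (x e).1.or (x e).2))) := by
        refine hybrid hDr (hDa.prod hDb) (fun _ o => o) (fun _ t => t.1.or t.2)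
          (fun f => one (¬ All c0 N f)) fun e x => ?_
        rw [sum_or (fun o => one (¬ All c0 N (Function.update x e o))), ← hp, sum_wv, sum_wv]
        have a1 : ∀ j, one (¬ All c0 N (Function.update x e (some j))) ≤
            one (¬ All c0 N (Function.update x e none)) := by
          refine fun j => one_mono (mt fun h => h.mono fun e' j' h' => ?_)
          by_cases he : e' = e
          · rw [he, Function.update_self] at h'; simp at h'
          · rwa [Function.update_of_ne he] at h' ⊢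
        have a2 := Finset.sum_nonneg (s := univ) fun j _ =>
          mul_nonneg (sub_nonneg.2 (hr j)) (sub_nonneg.2 (a1 j))
        simp only [sub_mul, mul_sub, Finset.sum_sub_distrib, ← Finset.sum_mul] at a2 ⊢
        linarith
    _ ≤ _ := by
        rw [Ex_pair, Ex_pair, ← Ex_const (fun _ : Sym2 V => hDa) (Fintype.card K ^ N * _), ← Ex_add]
        refine Ex_mono (fun _ => hDa) fun a => ?_
        refine (Ex_merge hDb (Touch (Xs W1 a d0)) _).trans ?_
        rw [← Ex_const (fun _ : Sym2 V => hDb) (Fintype.card K ^ N * _), ← Ex_add]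
        refine Ex_mono (fun _ => hDb) fun b => ?_
        by_cases hg : GoodAF W1 D T0 T1 d0 m1 m' E0 a (fun e => (a e).or (b e))
        · rw [one_neg (not_not.2 hg), zero_add]
          refine le_trans (Ex_mono (fun _ => hDb) fun b' => one_mono fun hw => ?_)
            ((Ex_exists_le (fun _ => hDb) (univ : Finset (Fin N → K)) (fun c b' => ¬ Wit (fun u v j =>
              (a s(u, v)).or (if Touch (Xs W1 a d0) s(u, v) then b s(u, v) else b' s(u, v)) = some j)
                (ext c0 c) N)).trans ?_)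
          · unfold All at hw
            push Not at hw
            obtain ⟨c, hc⟩ := hw
            exact ⟨c, Finset.mem_univ _, hc⟩
          · refine (Finset.sum_le_card_nsmul _ _ _ fun c _ =>
              joker_bound hN hn hg40 h0' h1' hτ0 hτ1 hg (ext c0 c)).trans (le_of_eq ?_)
            rw [nsmul_eq_mul, Finset.card_univ, Fintype.card_fun, Fintype.card_fin]
            push_cast; rfl
        · rw [one_pos hg]
          refine (Ex_le_const (fun _ => hDb) fun _ => one_le _).trans ?_
          exact le_add_of_nonneg_right (by positivity)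

theorem good_bound {W1 : Finset V} {N D T0 T1 d0 m1 m' E0 : ℕ} (hN : Fintype.card V = N)
    {p0 p1 p R g x0 x1 : ℝ} (h0 : 0 ≤ p0) (h0' : 0 ≤ p1)
    (h1 : Fintype.card K * p0 ≤ 1) (h1' : Fintype.card K * p1 ≤ 1)
    (hp : p = p0 + p1 - Fintype.card K * p0 * p1) (hp1 : p ≤ 1) (hR : Fintype.card K * p ≤ R)
    (hNR : 1 ≤ N * R) (hg : g + 5 ≤ W1.card) (hm : 0 < m') (hE : 0 < E0)
    (hT : 2 * Real.exp 1 * R * (2 * (2 * Fintype.card K * m1) * (D + 1) : ℕ) ≤ T1) (hT1 : 1 ≤ T1)
    (hx : Real.exp 1 * N / (2 * (2 * Fintype.card K * m1) * (D + 1) : ℕ) * (1 / 2) ^ T1 ≤ x1)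
    (hx1 : x1 ≤ 1 / 2)
    (hT' : 2 * Real.exp 1 * R * (2 * m' : ℕ) ≤ T0) (hT1' : 1 ≤ T0)
    (hx' : Real.exp 1 * N / (2 * m' : ℕ) * (1 / 2) ^ T0 ≤ x0) (hx0 : x0 ≤ 1 / 2) :
    Ex (fun (_ : Sym2 V) (t : Option K × Option K) =>
          wv (fun _ : K => p0) t.1 * wv (fun _ : K => p1) t.2)
        (fun x => one (¬ GoodAF W1 D T0 T1 d0 m1 m' E0 (fun e => (x e).1)
          (fun e => (x e).1.or (x e).2))) ≤
      N * (Fintype.card K * ((1 - p) ^ (N - 1) + N * (p * (1 - p) ^ (N - 2)))) +
      (4 * (N * (N * R) ^ 4 * (Fintype.card K ^ 2 * (10 ^ d0 * Real.exp (-(9 / 10 * p0 * g))) ^ 2)) +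
      (1 / m' * (N * (Fintype.card K * (10 ^ d0 * Real.exp (-(9 / 10 * p0 * g))))) +
      (1 / E0 * (N ^ 2 * R) + (2 * x1 + (2 * x0 +
        Fintype.card K * (4 ^ N * Real.exp (-(p0 * m1 ^ 2)))))))) := by
  subst hN
  have hD := (isD_const h0 h1).prod (isD_const h0' h1')
  have hh : ∀ _ : Sym2 V, IsD _ := fun _ => hD
  have hp0 : p0 ≤ p := by rw [hp]; nlinarith
  have hk : (0 : ℝ) ≤ Fintype.card K := by positivity
  have a1 : ∀ j : K, p0 ≤ ∑ t : Option K × Option K,
      wv (fun _ : K => p0) t.1 * wv (fun _ : K => p1) t.2 * one (t.1 = some j) := fun j => by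
    rw [sum_fst (fun o => one (o = some j)), sum_wv_some]
  have a2 : ∀ j : K, ∑ t : Option K × Option K,
      wv (fun _ : K => p0) t.1 * wv (fun _ : K => p1) t.2 * one (t.1.or t.2 = some j) = p := fun j => by
    rw [sum_or (fun o => one (o = some j)), sum_wv_some, hp]
  have a3 : ∑ t : Option K × Option K,
      wv (fun _ : K => p0) t.1 * wv (fun _ : K => p1) t.2 * one (t.1 ≠ none) ≤ R := by
    rw [sum_fst (fun o => one (o ≠ none)), sum_wv_ne]; nlinarith
  have a4 : ∑ t : Option K × Option K,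
      wv (fun _ : K => p0) t.1 * wv (fun _ : K => p1) t.2 * one (t.1.or t.2 ≠ none) ≤ R := by
    rw [sum_or (fun o => one (o ≠ none)), sum_wv_ne, ← hp]; exact hR
  refine le_trans (Ex_mono hh fun x => one_mono (Q := ¬ E1 (fun e => (x e).1.or (x e).2) ∨
    ¬ E2 (Xs W1 (fun e => (x e).1) d0) (fun e => (x e).1.or (x e).2) ∨
    ¬ (Xs W1 (fun e => (x e).1) d0).card ≤ m' ∨ ¬ E4 (fun e => (x e).1) E0 ∨
    ¬ E5 (fun e => (x e).1) T1 (2 * (2 * Fintype.card K * m1) * (D + 1)) ∨
    ¬ E5 (fun e => (x e).1) T0 (2 * m') ∨ ¬ E6 (fun e => (x e).1) m1) fun hx => ?_) ?_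
  · by_contra hcon
    push Not at hcon
    exact hx ⟨hcon.1, hcon.2.1, hcon.2.2.1, hcon.2.2.2.1, hcon.2.2.2.2.1, hcon.2.2.2.2.2.1,
      hcon.2.2.2.2.2.2⟩
  refine (Ex_or_le hh _ _).trans (add_le_add
    (P_E1 hD (fun t => t.1.or t.2) a2 (h0.trans hp0) hp1) ?_)
  refine (Ex_or_le hh _ _).trans (add_le_add
    (P_E2 hD Prod.fst (fun t => t.1.or t.2) h0 a1 a4 W1 d0 hg hNR) ?_)
  refine (Ex_or_le hh _ _).trans (add_le_add (P_E3 hD Prod.fst h0 a1 W1 d0 hm hg) ?_)
  refine (Ex_or_le hh _ _).trans (add_le_add (P_E4 hD Prod.fst a3 hE) ?_)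
  refine (Ex_or_le hh _ _).trans (add_le_add (P_E5 hD Prod.fst a3 hT hT1 hx hx1) ?_)
  exact (Ex_or_le hh _ _).trans (add_le_add (P_E5 hD Prod.fst a3 hT' hT1' hx' hx0)
    (P_E6 hD Prod.fst h0 a1 m1))

end Pool.Agent.Lib.MP_753083_pr
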