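import Pool.Agent.Lib.MP_753083_pr.Defs

set_option autoImplicit false

namespace Pool.Agent.Lib.MP_753083_pr

/-- the coloured graph formed by the first m pairs in the order σ, the pair e having colour χ e -/
def stage {n k : ℕ} (σ : Pair n ≃ Fin (Fintype.card (Pair n))) (χ : Pair n → Fin k) (m : ℕ)
    (e : Pair n) : Option (Fin k) :=
  if (σ e : ℕ) < m then some (χ e) else none

/-- every vertex lies in at least two edges of every colour -/
def MinDegTwo {n k : ℕ} (f : Pair n → Option (Fin k)) : Prop :=
  ∀ (v : Fin n) (j : Fin k), 2 ≤ {e : Pair n | v ∈ e.1 ∧ f e = some j}.ncard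

open Classical in
/-- probability, for a uniform order σ of the pairs and independent colours of law α, that the
first time with minimum degree two in every colour exists and is the first time at which all
patterns have a Hamilton cycle -/
noncomputable def probHit {k : ℕ} (n : ℕ) (α : Fin k → ℝ) : ℝ :=
  ∑ σ : Pair n ≃ Fin (Fintype.card (Pair n)), ∑ χ : Pair n → Fin k,
    ((Fintype.card (Pair n)).factorial : ℝ)⁻¹ * (∏ e, α (χ e)) *
      if ∃ τ : ℕ, IsLeast {m | MinDegTwo (stage σ χ m)} τ ∧
        IsLeast {m | ∀ c : Fin n → Fin k, HasCycle (stage σ χ m) c} τ then 1 else 0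

end Pool.Agent.Lib.MP_753083_pr
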