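import Pool.Agent.Lib.MP_753083_pr.Main

set_option autoImplicit false
set_option linter.unusedSectionVars false
open Finset

namespace Pool.Agent.Lib.MP_753083_pr

variable {V K : Type*} [Fintype V] [DecidableEq V] [Fintype K] [DecidableEq K]

def SubG (f g : Sym2 V → Option K) : Prop := ∀ e j, f e = some j → g e = some j

def Sand (c0 : K) (N : ℕ) (lo hi : Sym2 V → Option K) : Prop :=
  ∃ g, SubG lo g ∧ SubG g hi ∧ E1 g ∧ ¬ All c0 N g

structure Good3 (W1 : Finset V) (D T0 T1 d0 m1 m' m2 E0 : ℕ) (a f : Sym2 V → Option K) : Prop where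
  e2 : E2 (Xs W1 a d0) f
  e3 : (Xs W1 a d0).card ≤ m2
  e4 : E4 a E0
  e5 : E5 a T1 (2 * (2 * Fintype.card K * m1) * (D + 1))
  e5' : E5 a T0 (2 * m')
  e6 : E6 a m1

def bP (X : Finset V) (h : Sym2 V → Option K) (φ : X × K × Bool → V) : Sym2 V → Option K :=
  fun e => if ∃ t, s(t.1.1, φ t) = e then h e else none

lemma sand_cover (c0 : K) {W1 : Finset V} {N D T0 T1 d0 m1 m' m2 E0 : ℕ} (hd : 2 ≤ d0)
    (hm : m2 ≤ m') {a b b' c : Sym2 V → Option K}
    (hg : Good3 W1 D T0 T1 d0 m1 m' m2 E0 a (fun e => ((a e).or (b e)).or (c e)))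
    (hs : Sand c0 N (fun e => (a e).or (if Touch (Xs W1 a d0) e then b e else b' e))
      (fun e => ((a e).or (if Touch (Xs W1 a d0) e then b e else b' e)).or (c e))) :
    ∃ φ : Xs W1 a d0 × K × Bool → V, ∃ p : Fin N → K,
      GoodAF W1 D T0 T1 d0 m1 m' E0 a (fun e => (a e).or
        (bP (Xs W1 a d0) (fun e => ((a e).or (b e)).or (c e)) φ e)) ∧
      ¬ Wit (fun u v j => (a s(u, v)).or (if Touch (Xs W1 a d0) s(u, v) then
        bP (Xs W1 a d0) (fun e => ((a e).or (b e)).or (c e)) φ s(u, v) else b' s(u, v)) = some j)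
        (ext c0 p) N := by
  obtain ⟨g, g1, g2, g3, g4⟩ := hs
  choose pu pw k1 k2 k3 k4 k5 using g3
  have e2 := hg.e2
  have e3 := hg.e3
  have hXa : ∀ v ∉ Xs W1 a d0, ∀ j, 1 < (Gc W1 a v j).card := by
    intro v hv j
    by_contra h
    exact hv (Finset.mem_filter.2 ⟨Finset.mem_univ _, j, by omega⟩)
  obtain ⟨X, hX⟩ : ∃ X, X = Xs W1 a d0 := ⟨_, rfl⟩
  have hG : ∀ f, E1 f → E2 X f → GoodAF W1 D T0 T1 d0 m1 m' E0 a f := fun f h1 h2 =>
    ⟨h1, hX ▸ h2, e3.trans hm, hg.e4, hg.e5, hg.e5', hg.e6⟩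
  clear hg
  rw [← hX] at g1 g2 e2 e3 hXa ⊢
  let φ : X × K × Bool → V := fun t => if t.2.2 then pu t.1.1 t.2.1 else pw t.1.1 t.2.1
  have ha : ∀ e j, a e = some j → g e = some j := fun e j h => g1 e j (by simp [h])
  have hφ : ∀ t : X × K × Bool, g s(t.1.1, φ t) = some t.2.1 := by
    intro t
    simp only [φ]
    split_ifs
    · exact k4 _ _
    · exact k5 _ _
  have hb : ∀ e, (∃ t : X × K × Bool, s(t.1.1, φ t) = e) →
      bP X (fun e => ((a e).or (b e)).or (c e)) φ e = g e := by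
    rintro e ⟨t, ht⟩
    have h1 := g2 _ _ (hφ t)
    have h2 : Touch X s(t.1.1, φ t) := ⟨t.1.1, t.1.2, by simp⟩
    simp only [if_pos h2] at h1
    unfold bP
    rw [if_pos ⟨t, ht⟩, ← ht, hφ t]
    exact h1
  have hb' : ∀ e j, bP X (fun e => ((a e).or (b e)).or (c e)) φ e = some j → g e = some j := by
    intro e j h
    by_cases h1 : ∃ t : X × K × Bool, s(t.1.1, φ t) = e
    · rwa [hb e h1] at h
    · unfold bP at h
      rw [if_neg h1] at h
      simp at h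
  have hor : ∀ t : X × K × Bool, (a s(t.1.1, φ t)).or
      (bP X (fun e => ((a e).or (b e)).or (c e)) φ s(t.1.1, φ t)) = some t.2.1 := by
    intro t
    rw [hb _ ⟨t, rfl⟩]
    cases h : a s(t.1.1, φ t) with
    | none => simpa using hφ t
    | some j => have := ha _ _ h; rw [hφ t] at this; simp [this]
  unfold All at g4
  push Not at g4
  obtain ⟨p, hp⟩ := g4
  refine ⟨φ, p, hG _ (fun v j => ?_) fun r hr x hx h1 => e2 r hr x hx fun i => ?_,
    fun hw => hp (hw.mono fun u v j hj => ?_)⟩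
  · by_cases hv : v ∈ X
    · exact ⟨pu v j, pw v j, k1 v j, k2 v j, k3 v j, hor (⟨v, hv⟩, j, true), hor (⟨v, hv⟩, j, false)⟩
    · obtain ⟨u, hu, w, hw, h⟩ := Finset.one_lt_card.1 (hXa v hv j)
      rw [mem_Gc] at hu hw
      exact ⟨u, w, h, hu.2.1, hw.2.1, by simp [hu.2.2], by simp [hw.2.2]⟩
  · have := h1 i
    unfold bP at this
    intro h
    simp only [Option.or_eq_none_iff] at h
    apply this
    simp [h.1.1, h.1.2, h.2]
  · cases h : a s(u, v) with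
    | some j' => rw [h] at hj; simp at hj; exact ha _ _ (hj ▸ h)
    | none =>
      rw [h, Option.none_or] at hj
      split_ifs at hj with h1
      · exact hb' _ _ hj
      · exact g1 _ _ (by simp only [h, if_neg h1, Option.none_or]; exact hj)

noncomputable def w3 (p0 p1 : ℝ) (rc : K → ℝ) (t : (Option K × Option K) × Option K) : ℝ :=
  (wv (fun _ : K => p0) t.1.1 * wv rc t.1.2) * wv (fun _ : K => p1) t.2

theorem fail3 [Nonempty K] (c0 : K) {W1 : Finset V}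
    {N D D' T0 T1 d0 m1 m' m2 hh Lm M s E0 β g : ℕ} (hN : Fintype.card V = N)
    (hn : Num N (Fintype.card K) W1.card W1ᶜ.card D D' T0 T1 d0 m1 m' hh Lm M s E0 β)
    (hd : 2 ≤ d0) (hm : m2 ≤ m')
    (hg40 : 40 * (g + E0) ≤ m' * N) {p0 p1 τ : ℝ} (h0 : 0 ≤ p0) (h0' : 0 ≤ p1)
    (h1 : Fintype.card K * p0 ≤ 1) (h1' : Fintype.card K * p1 ≤ 1) (hτ0 : 0 < τ) (hτ1 : τ ≤ 1)
    {rc : K → ℝ} (hr : IsD (wv rc)) :
    Ex (fun _ : Sym2 V => w3 p0 p1 rc) (fun x => one (Sand c0 N (fun e => (x e).1.1.or (x e).2)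
      (fun e => ((x e).1.1.or (x e).2).or (x e).1.2))) ≤
      Ex (fun _ : Sym2 V => w3 p0 p1 rc)
        (fun x => one (¬ Good3 W1 D T0 T1 d0 m1 m' m2 E0 (fun e => (x e).1.1)
          (fun e => ((x e).1.1.or (x e).2).or (x e).1.2))) +
      N ^ (m2 * (Fintype.card K * 2)) * (Fintype.card K ^ N * (4 ^ N * Real.exp (-(p1 / 2 * g)) +
        (τ ^ N)⁻¹ * Real.exp (p1 / 2 * τ * N ^ 2) * Real.exp (-(p1 / 2 * β)))) := by
  classical
  have hDa := (isD_const h0 h1).prod hr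
  have hDb := isD_const h0' h1'
  have hN1 : (1 : ℝ) ≤ N := by have := hn.n14; exact_mod_cast (show 1 ≤ N by omega)
  obtain ⟨J, hJ⟩ : ∃ J, J = 4 ^ N * Real.exp (-(p1 / 2 * g)) +
    (τ ^ N)⁻¹ * Real.exp (p1 / 2 * τ * N ^ 2) * Real.exp (-(p1 / 2 * β)) := ⟨_, rfl⟩
  have hJ0 : 0 ≤ J := by rw [hJ]; positivity
  rw [← hJ]
  unfold w3
  rw [Ex_pair (fun t : Option K × Option K => wv (fun _ : K => p0) t.1 * wv rc t.2),
    Ex_pair (fun t : Option K × Option K => wv (fun _ : K => p0) t.1 * wv rc t.2),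
    ← Ex_const (fun _ : Sym2 V => hDa) (N ^ (m2 * _) * _), ← Ex_add]
  refine Ex_mono (fun _ => hDa) fun y => ?_
  refine (Ex_merge hDb (Touch (Xs W1 (fun e => (y e).1) d0)) _).trans ?_
  rw [← Ex_const (fun _ : Sym2 V => hDb) (N ^ (m2 * _) * _), ← Ex_add]
  refine Ex_mono (fun _ => hDb) fun b => ?_
  by_cases hg : Good3 W1 D T0 T1 d0 m1 m' m2 E0 (fun e => (y e).1)
    (fun e => ((y e).1.or (b e)).or (y e).2)
  · rw [one_neg (not_not.2 hg), zero_add]
    obtain ⟨a, ha⟩ : ∃ a : Sym2 V → Option K, a = fun e => (y e).1 := ⟨_, rfl⟩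
    obtain ⟨c, hc⟩ : ∃ c : Sym2 V → Option K, c = fun e => (y e).2 := ⟨_, rfl⟩
    have ha' : ∀ e, (y e).1 = a e := fun e => by rw [ha]
    have hc' : ∀ e, (y e).2 = c e := fun e => by rw [hc]
    simp only [ha', hc'] at hg ⊢
    refine le_trans (Ex_mono (fun _ => hDb) fun b' => one_mono fun hw => ?_)
      ((Ex_exists_le (fun _ => hDb) (univ : Finset ((Xs W1 a d0 × K × Bool → V) × (Fin N → K)))
        (fun q b' => GoodAF W1 D T0 T1 d0 m1 m' E0 a (fun e => (a e).or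
          (bP (Xs W1 a d0) (fun e => ((a e).or (b e)).or (c e)) q.1 e)) ∧
          ¬ Wit (fun u v j => (a s(u, v)).or (if Touch (Xs W1 a d0) s(u, v) then
          bP (Xs W1 a d0) (fun e => ((a e).or (b e)).or (c e)) q.1 s(u, v) else b' s(u, v)) = some j)
          (ext c0 q.2) N)).trans ?_)
    · obtain ⟨φ, p, h⟩ := sand_cover c0 hd hm hg hw
      exact ⟨(φ, p), Finset.mem_univ _, h⟩
    · refine (Finset.sum_le_card_nsmul _ _ J fun q _ => ?_).trans ?_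
      · by_cases hq : GoodAF W1 D T0 T1 d0 m1 m' E0 a (fun e => (a e).or
          (bP (Xs W1 a d0) (fun e => ((a e).or (b e)).or (c e)) q.1 e))
        · refine le_trans (Ex_mono (fun _ => hDb) fun b' => one_mono And.right) ?_
          rw [hJ]
          exact joker_bound hN hn hg40 h0' h1' hτ0 hτ1 hq (ext c0 q.2)
        · exact Ex_le_const (fun _ => hDb) fun b' => one_le_of hJ0 fun h => absurd h.1 hq
      · rw [nsmul_eq_mul, Finset.card_univ, Fintype.card_prod, Fintype.card_fun, Fintype.card_fun,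
          Fintype.card_fin, Fintype.card_prod, Fintype.card_prod, Fintype.card_bool, hN,
          Fintype.card_coe]
        push_cast
        rw [mul_assoc]
        exact mul_le_mul_of_nonneg_right
          (pow_le_pow_right₀ hN1 (Nat.mul_le_mul_right _ hg.e3)) (by positivity)
  · rw [one_pos hg]
    refine (Ex_le_const (fun _ => hDb) fun _ => one_le _).trans ?_
    exact le_add_of_nonneg_right (by positivity)

lemma isD_w3 {p0 p1 : ℝ} {rc : K → ℝ} (h0 : IsD (wv fun _ : K => p0)) (h1 : IsD (wv fun _ : K => p1))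
    (hr : IsD (wv rc)) : IsD (w3 p0 p1 rc) := (h0.prod hr).prod h1

lemma sum_w3_fst {p0 p1 : ℝ} {rc : K → ℝ} (h1 : IsD (wv fun _ : K => p1))
    (hr : IsD (wv rc)) (φ : Option K → ℝ) :
    ∑ t, w3 p0 p1 rc t * φ t.1.1 = ∑ o, wv (fun _ : K => p0) o * φ o := by
  unfold w3
  rw [Fintype.sum_prod_type, Fintype.sum_prod_type]
  refine Finset.sum_congr rfl fun o _ => ?_
  dsimp only
  simp only [← Finset.sum_mul, ← Finset.mul_sum, h1.2, hr.2, mul_one]

lemma sum_w3 {p0 p1 : ℝ} {rc : K → ℝ} (φ : Option K × Option K → ℝ) :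
    ∑ t, w3 p0 p1 rc t * φ (t.1.1.or t.2, (t.1.1.or t.2).or t.1.2) =
      ∑ o, wv (fun _ : K => p0 + p1 - Fintype.card K * p0 * p1) o *
        ∑ c, wv rc c * φ (o, o.or c) := by
  rw [← sum_or (fun o => ∑ c, wv rc c * φ (o, o.or c))]
  unfold w3
  rw [Fintype.sum_prod_type, Fintype.sum_prod_type, Fintype.sum_prod_type]
  refine Finset.sum_congr rfl fun o _ => ?_
  rw [Finset.sum_comm]
  refine Finset.sum_congr rfl fun b _ => ?_
  rw [Finset.mul_sum]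
  exact Finset.sum_congr rfl fun c _ => by ring

theorem good3 {W1 : Finset V} {N D T0 T1 d0 m1 m' m2 E0 : ℕ} (hN : Fintype.card V = N)
    {σ : Type*} [Fintype σ] {ν : σ → ℝ} (hD : IsD ν) (A F : σ → Option K)
    {p0 R R' g x0 x1 : ℝ} (h0 : 0 ≤ p0) (a1 : ∀ j, p0 ≤ ∑ s, ν s * one (A s = some j))
    (a3 : ∑ s, ν s * one (A s ≠ none) ≤ R) (a4 : ∑ s, ν s * one (F s ≠ none) ≤ R')
    (hNR : 1 ≤ N * R') (hg : g + 5 ≤ W1.card) (hm : 0 < m2) (hE : 0 < E0)
    (hT : 2 * Real.exp 1 * R * (2 * (2 * Fintype.card K * m1) * (D + 1) : ℕ) ≤ T1) (hT1 : 1 ≤ T1)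
    (hx : Real.exp 1 * N / (2 * (2 * Fintype.card K * m1) * (D + 1) : ℕ) * (1 / 2) ^ T1 ≤ x1)
    (hx1 : x1 ≤ 1 / 2)
    (hT' : 2 * Real.exp 1 * R * (2 * m' : ℕ) ≤ T0) (hT1' : 1 ≤ T0)
    (hx' : Real.exp 1 * N / (2 * m' : ℕ) * (1 / 2) ^ T0 ≤ x0) (hx0 : x0 ≤ 1 / 2) :
    Ex (fun _ : Sym2 V => ν)
        (fun x => one (¬ Good3 W1 D T0 T1 d0 m1 m' m2 E0 (fun e => A (x e)) (fun e => F (x e)))) ≤
      4 * (N * (N * R') ^ 4 * (Fintype.card K ^ 2 * (10 ^ d0 * Real.exp (-(9 / 10 * p0 * g))) ^ 2)) +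
      (1 / m2 * (N * (Fintype.card K * (10 ^ d0 * Real.exp (-(9 / 10 * p0 * g))))) +
      (1 / E0 * (N ^ 2 * R) + (2 * x1 + (2 * x0 +
        Fintype.card K * (4 ^ N * Real.exp (-(p0 * m1 ^ 2))))))) := by
  subst hN
  have hh : ∀ _ : Sym2 V, IsD _ := fun _ => hD
  refine le_trans (Ex_mono hh fun x => one_mono (Q :=
    ¬ E2 (Xs W1 (fun e => A (x e)) d0) (fun e => F (x e)) ∨
    ¬ (Xs W1 (fun e => A (x e)) d0).card ≤ m2 ∨ ¬ E4 (fun e => A (x e)) E0 ∨
    ¬ E5 (fun e => A (x e)) T1 (2 * (2 * Fintype.card K * m1) * (D + 1)) ∨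
    ¬ E5 (fun e => A (x e)) T0 (2 * m') ∨ ¬ E6 (fun e => A (x e)) m1) fun hx => ?_) ?_
  · by_contra hcon
    push Not at hcon
    exact hx ⟨hcon.1, hcon.2.1, hcon.2.2.1, hcon.2.2.2.1, hcon.2.2.2.2.1, hcon.2.2.2.2.2⟩
  refine (Ex_or_le hh _ _).trans (add_le_add (P_E2 hD A F h0 a1 a4 W1 d0 hg hNR) ?_)
  refine (Ex_or_le hh _ _).trans (add_le_add (P_E3 hD A h0 a1 W1 d0 hm hg) ?_)
  refine (Ex_or_le hh _ _).trans (add_le_add (P_E4 hD A a3 hE) ?_)
  refine (Ex_or_le hh _ _).trans (add_le_add (P_E5 hD A a3 hT hT1 hx hx1) ?_)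
  exact (Ex_or_le hh _ _).trans (add_le_add (P_E5 hD A a3 hT' hT1' hx' hx0) (P_E6 hD A h0 a1 m1))

end Pool.Agent.Lib.MP_753083_pr
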