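import Pool.Agent.Lib.MP_753083_pr.Hit1

set_option autoImplicit false
set_option linter.unusedSectionVars false
open Finset

namespace Pool.Agent.Lib.MP_753083_pr

section law

variable {V K : Type*} [Fintype V] [DecidableEq V] [Fintype K] [DecidableEq K]
variable {σ τ : Type*} [Fintype σ] [Fintype τ]

def Law2 (ν : σ → ℝ) (L H : σ → Option K) (r1 r2 : K → ℝ) : Prop :=
  ∀ φ : Option K × Option K → ℝ, ∑ s, ν s * φ (L s, H s) =
    (1 - ∑ j, r2 j) * φ (none, none) +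
      ∑ j, ((r2 j - r1 j) * φ (none, some j) + r1 j * φ (some j, some j))

lemma Law2.fst {ν : σ → ℝ} {L H : σ → Option K} {r1 r2 : K → ℝ} (h : Law2 ν L H r1 r2)
    (φ : Option K → ℝ) : ∑ s, ν s * φ (L s) = ∑ o, wv r1 o * φ o := by
  rw [h (fun t => φ t.1), sum_wv]
  simp only [Finset.sum_add_distrib, sub_mul, Finset.sum_sub_distrib, ← Finset.sum_mul]
  ring

lemma Law2.snd {ν : σ → ℝ} {L H : σ → Option K} {r1 r2 : K → ℝ} (h : Law2 ν L H r1 r2)
    (φ : Option K → ℝ) : ∑ s, ν s * φ (H s) = ∑ o, wv r2 o * φ o := by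
  rw [h (fun t => φ t.2), sum_wv]
  congr 1
  exact Finset.sum_congr rfl fun j _ => by ring

lemma law_w3 {p0 p1 p : ℝ} {rc r2 : K → ℝ} (hp : p = p0 + p1 - Fintype.card K * p0 * p1)
    (hr : ∀ j, r2 j = p + (1 - Fintype.card K * p) * rc j) :
    Law2 (w3 p0 p1 rc) (fun t => t.1.1.or t.2) (fun t => (t.1.1.or t.2).or t.1.2)
      (fun _ => p) r2 := by
  intro φ
  have h1 : ∑ o, wv rc o = 1 := by simpa using sum_wv rc (fun _ => 1)
  rw [sum_w3, ← hp, sum_wv]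
  simp only [sum_wv, Option.none_or, Option.some_or, hr, Finset.sum_add_distrib, h1,
    Finset.sum_const, Finset.card_univ, nsmul_eq_mul, add_sub_cancel_left, mul_assoc,
    ← Finset.mul_sum, ← Finset.sum_mul]
  ring

lemma sand_hybrid (c0 : K) (N : ℕ) {ν : σ → ℝ} {ν' : τ → ℝ} (hD : IsD ν) (hD' : IsD ν')
    {L H : σ → Option K} {L' H' : τ → Option K} {r1 r1' r2 : K → ℝ} (h : Law2 ν L H r1 r2)
    (h' : Law2 ν' L' H' r1' r2) (hr : ∀ j, r1' j ≤ r1 j) :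
    Ex (fun _ : Sym2 V => ν) (fun x => one (Sand c0 N (fun e => L (x e)) (fun e => H (x e)))) ≤
      Ex (fun _ : Sym2 V => ν') (fun x => one (Sand c0 N (fun e => L' (x e)) (fun e => H' (x e)))) := by
  refine hybrid hD hD' (fun _ s => (L s, H s)) (fun _ s => (L' s, H' s))
    (fun y => one (Sand c0 N (fun e => (y e).1) (fun e => (y e).2))) fun e x => ?_
  obtain ⟨φ, hφ⟩ : ∃ φ : Option K × Option K → ℝ, φ = fun t =>
    one (Sand c0 N (fun e' => (Function.update x e t e').1) (fun e' => (Function.update x e t e').2)) :=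
    ⟨_, rfl⟩
  have a1 : ∀ j, φ (some j, some j) ≤ φ (none, some j) := by
    intro j
    rw [hφ]
    refine one_mono ?_
    rintro ⟨g, g1, g2, g3⟩
    refine ⟨g, fun e' j' b => ?_, fun e' j' b => ?_, g3⟩
    · by_cases he : e' = e
      · simp [he] at b
      · exact g1 e' j' (by simpa [he] using b)
    · have := g2 e' j' b
      by_cases he : e' = e
      · simpa [he] using this
      · simpa [he] using this
  have a2 := h φ
  have a3 := h' φ
  rw [hφ] at a2 a3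
  refine a2.le.trans (le_trans ?_ a3.ge)
  rw [← hφ]
  refine add_le_add le_rfl (Finset.sum_le_sum fun j _ => ?_)
  nlinarith [mul_nonneg (sub_nonneg.2 (hr j)) (sub_nonneg.2 (a1 j))]

lemma Ex_law {ν : σ → ℝ} (hD : IsD ν) {L : σ → Option K} {r : K → ℝ} (hr : IsD (wv r))
    (h : ∀ φ : Option K → ℝ, ∑ s, ν s * φ (L s) = ∑ o, wv r o * φ o)
    (Φ : (Sym2 V → Option K) → ℝ) :
    Ex (fun _ : Sym2 V => ν) (fun x => Φ (fun e => L (x e))) ≤ Ex (fun _ : Sym2 V => wv r) Φ :=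
  hybrid hD hr (fun _ s => L s) (fun _ o => o) Φ fun e x =>
    (h (fun o => Φ (Function.update x e o))).le

end law

theorem sand_real {K : Type*} [Fintype K] [DecidableEq K] [Nonempty K] (c0 : K) {k n t C : ℕ}
    (hk : Fintype.card K = k) (hC : C = 2000 * (k + 3))
    (ht1 : 2 ^ (4800 * C) ≤ t) (ht2 : 10 ^ 15 * C ^ 2 ≤ t) {l B : ℝ}
    (hl : (n : ℝ) = Real.exp l) (hl1 : (t : ℝ) ^ 10 ≤ l) (hl2 : l ≤ 2 * (t : ℝ) ^ 10)
    (hx : 3 * (t : ℝ) ^ 10 * (1 / 2) ^ t ≤ 1 / 2) (hB : 1 ≤ B)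
    {σ : Type*} [Fintype σ] {ν : σ → ℝ} (hD : IsD ν) {L H : σ → Option K} {r1 r2 : K → ℝ}
    (hν : Law2 ν L H r1 r2) (hr : ∀ j, l / n ≤ r1 j) (hr' : ∀ j, l / n ≤ r2 j)
    (hr1 : ∑ j, r2 j ≤ 1) (hr2 : ∑ j, r2 j ≤ B * (l / n)) :
    Ex (fun _ : Sym2 (Fin n) => ν)
      (fun x => one (Sand c0 n (fun e => L (x e)) (fun e => H (x e)))) ≤
      4 * (B * l) ^ 4 * k ^ 2 * Real.exp (-(1 / 5 * l)) +
      2 * k * l ^ 2 * Real.exp (-(3 / 5 * l)) + 6 * k / t + 12 * ((t : ℝ) ^ 10 * (1 / 2) ^ t) +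
      (k + 2) * Real.exp (-(1 / 2 * n)) := by
  have hk1 : 1 ≤ k := hk ▸ Fintype.card_pos
  have hC2 : C ≤ C ^ 2 := Nat.le_self_pow (by omega) _
  have ht3 : 10 ^ 15 * (k + 3) ≤ t := by omega
  have ht0 : 0 < t := by omega
  have hk1' : (1 : ℝ) ≤ k := by exact_mod_cast hk1
  have hC' : (C : ℝ) = 2000 * (k + 3) := by rw [hC]; push_cast; ring
  have ht2' : 2016 * (C : ℝ) ^ 2 ≤ t := by exact_mod_cast (show 2016 * C ^ 2 ≤ t by omega)
  have ht3' : 10 ^ 15 * ((k : ℝ) + 3) ≤ t := by exact_mod_cast ht3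
  have hkC : (k : ℝ) ≤ C := by rw [hC']; linarith
  have ht1' : (1 : ℝ) ≤ t := by exact_mod_cast ht0
  obtain ⟨hn1, hn2⟩ := size1 (by linarith) hl hl1 hl2
  obtain ⟨m1, hm1⟩ : ∃ m1, m1 = n / t ^ 4 + 1 := ⟨_, rfl⟩
  obtain ⟨m', hm'⟩ : ∃ m', m' = C * n / t ^ 10 + 1 := ⟨_, rfl⟩
  obtain ⟨m2, hm2⟩ : ∃ m2, m2 = n / t ^ 11 := ⟨_, rfl⟩
  obtain ⟨⟨b1, b2, b3, b4⟩, b5, hh, hnum⟩ := nat_params hk1 hC ht1 hn1 hn2 (by omega) hm1 hm'
  have hm0 : 0 < m' := hm' ▸ Nat.succ_pos _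
  have htn : t ≤ n := (Nat.le_self_pow (by omega) _).trans hn1
  have hn11n : t ^ 11 ≤ n := (Nat.pow_le_pow_right ht0 (show 11 ≤ 30 by omega)).trans hn1
  have hn11 : (t : ℝ) ^ 11 ≤ n := by exact_mod_cast hn11n
  have d1 : 0 < m2 := hm2 ▸ Nat.div_pos hn11n (by positivity)
  have d2 : t ^ 11 * m2 ≤ n := hm2 ▸ Nat.mul_div_le _ _
  have d3 : n ≤ 2 * (t ^ 11 * m2) := by
    have a1 : n < t ^ 11 * (m2 + 1) := hm2 ▸ Nat.lt_mul_div_succ _ (by positivity)
    have a2 : t ^ 11 ≤ t ^ 11 * m2 := Nat.le_mul_of_pos_right _ d1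
    rw [mul_add, mul_one] at a1
    omega
  have d4 : m2 ≤ m' := by
    have a1 : t ^ 10 * m2 ≤ t ^ 11 * m2 :=
      Nat.mul_le_mul_right _ (Nat.pow_le_pow_right ht0 (by omega))
    have a2 : n ≤ C * n := Nat.le_mul_of_pos_left _ (by omega)
    exact Nat.le_of_mul_le_mul_left (a1.trans (d2.trans (a2.trans b3))) (by positivity)
  have d5 : 2 ≤ 28 * t ^ 9 := by have := Nat.one_le_pow 9 _ ht0; omega
  clear ht1 ht2 hn1 hn2 hm1 hm' hm2 hC2 hn11n
  have b1' : (n : ℝ) ≤ t ^ 4 * m1 := by exact_mod_cast b1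
  have b2' : (t : ℝ) ^ 4 * m1 ≤ 2 * n := by exact_mod_cast b2
  have b3' : (C : ℝ) * n ≤ t ^ 10 * m' := by exact_mod_cast b3
  have b4' : (t : ℝ) ^ 10 * m' ≤ 2 * C * n := by exact_mod_cast b4
  have d1' : (0 : ℝ) < m2 := by exact_mod_cast d1
  have d2' : (t : ℝ) ^ 11 * m2 ≤ n := by exact_mod_cast d2
  have d3' : (n : ℝ) ≤ 2 * (t ^ 11 * m2) := by exact_mod_cast d3
  clear b1 b2 b3 b4 d2 d3
  have htu : (t : ℝ) ≤ t ^ 10 := le_self_pow₀ ht1' (by omega)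
  have hl0 : 1 ≤ l := by linarith
  have hn0 : (0 : ℝ) < n := hl ▸ Real.exp_pos _
  have hm0' : (0 : ℝ) < m' := by exact_mod_cast hm0
  have b6 : (n : ℝ) ≤ t ^ 10 * m' := le_trans (le_mul_of_one_le_left hn0.le (by linarith)) b3'
  obtain ⟨W1, -, hW1⟩ := Finset.exists_subset_card_eq (s := (univ : Finset (Fin n)))
    (n := n - n / 10) (by simp)
  have hW2 : W1ᶜ.card = n / 10 := by rw [Finset.card_compl, hW1, Fintype.card_fin]; omega
  have hW3 : 89 / 100 * (n : ℝ) + 5 ≤ W1.card := by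
    have a1 : 89 * n + 500 ≤ 100 * W1.card := by rw [hW1]; omega
    have a2 : 89 * (n : ℝ) + 500 ≤ 100 * W1.card := by exact_mod_cast a1
    linarith
  rw [← hk, ← hW1, ← hW2] at hnum
  obtain ⟨z, hz⟩ : ∃ z, z = l / n := ⟨_, rfl⟩
  rw [← hz] at hr hr' hr2
  have hzn : z * n = l := by rw [hz, div_mul_cancel₀ _ hn0.ne']
  have hz0 : 0 ≤ z := by rw [hz]; positivity
  have c5 : k * z ≤ 1 / 10 := by
    rw [hz, ← mul_div_assoc, div_le_iff₀ hn0]
    have a2 : (k : ℝ) * l ≤ (t / 20) * (2 * t ^ 10) := by gcongr; linarith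
    have a3 : (t / 20 : ℝ) * (2 * t ^ 10) = 1 / 10 * t ^ 11 := by ring
    linarith
  obtain ⟨p0, c9, c10, c13, c11, c12, hpp⟩ := split_p hk1' hz0 le_rfl (by linarith) c5
  have c14 : z * n ≤ 2 * t ^ 10 := by linarith
  have c15 : (t : ℝ) ^ 10 ≤ z * n := by linarith
  have c16 : (n : ℝ) * (B * z) = B * l := by rw [← hzn]; ring
  have c17 : 0 < 1 - k * z := by linarith
  have hDa : IsD (wv fun _ : K => p0) := isD_const c9 (by rw [hk]; exact c13)
  have hDb : IsD (wv fun _ : K => z / 10) := isD_const (by linarith) (by rw [hk]; linarith)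
  have hDc : IsD (wv fun j => (r2 j - z) / (1 - k * z)) := by
    refine isD_wv (fun j => div_nonneg (sub_nonneg.2 (hr' j)) c17.le) ?_
    rw [← Finset.sum_div, div_le_one c17, Finset.sum_sub_distrib, Finset.sum_const,
      Finset.card_univ, hk, nsmul_eq_mul]
    linarith
  have hD3 := isD_w3 hDa hDb hDc
  have hlaw := law_w3 (p0 := p0) (p1 := z / 10) (p := z) (rc := fun j => (r2 j - z) / (1 - k * z))
    (r2 := r2) (by rw [hk]; exact hpp) (fun j => by rw [hk, mul_div_cancel₀ _ c17.ne']; ring)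
  refine (sand_hybrid c0 n hD hD3 hν hlaw hr).trans ?_
  have hfb := fail3 c0 (V := Fin n) (Fintype.card_fin n) hnum d5 d4 b5 (p0 := p0) (p1 := z / 10)
    (τ := 1 / (4 * 10 ^ 6)) c9 (by linarith) (by rw [hk]; exact c13) (by rw [hk]; linarith)
    (by norm_num) (by norm_num) hDc
  have c18 : p0 ≤ z := by
    have : k * p0 * (z / 10) ≤ 1 * (z / 10) := by gcongr
    linarith
  have hgb := good3 (K := K) (V := Fin n) (W1 := W1) (D := 6 * t) (T0 := t) (T1 := t ^ 8)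
    (d0 := 28 * t ^ 9) (m1 := m1) (m' := m') (m2 := m2) (E0 := n * t ^ 11) (Fintype.card_fin n)
    hD3 (fun t => t.1.1) (fun t => (t.1.1.or t.2).or t.1.2)
    (p0 := p0) (R := 3 * (k * z)) (R' := B * z) (g := 89 / 100 * n)
    (x0 := 3 * (t : ℝ) ^ 10 * (1 / 2) ^ t) (x1 := 3 * (t : ℝ) ^ 10 * (1 / 2) ^ t) c9
    (fun j => by rw [sum_w3_fst hDb hDc (fun o => one (o = some j)), sum_wv_some])
    (by
      rw [sum_w3_fst hDb hDc (fun o => one (o ≠ none)), sum_wv_ne, hk]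
      have : k * p0 ≤ k * z := by gcongr
      have : 0 ≤ k * z := by positivity
      linarith)
    (by
      rw [hlaw.snd (fun o => one (o ≠ none)), sum_wv, one_neg (by simp), mul_zero, zero_add]
      simpa [one_pos] using hr2)
    (by rw [c16]; exact one_le_mul_of_one_le_of_one_le hB hl0) hW3
    d1 (Nat.mul_pos (by exact_mod_cast hn0) (by positivity))
    (by
      rw [hk]; push_cast
      exact cond1 (by positivity) hkC ht1' ht2' hz0 (by positivity) c14 b2')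
    (Nat.one_le_pow _ _ ht0)
    (cond3 hn0 (by
      rw [hk]; push_cast
      calc (n : ℝ) ≤ t ^ 4 * m1 := b1'
        _ = t ^ 4 * (1 * (1 * 1 * m1) * 1) := by ring
        _ ≤ _ := by
          gcongr
          · norm_num
          · norm_num
          · norm_num
          · linarith) (Nat.le_self_pow (by omega) _))
    hx
    (by
      push_cast
      exact cond2 (by positivity) hkC ht1' ht2' hz0 hm0'.le c14 b4')
    ht0 (cond3 hn0 (by push_cast; rw [mul_left_comm]; linarith) le_rfl) hx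
  rw [hk] at hfb hgb
  refine hfb.trans ((add_le_add hgb le_rfl).trans ?_)
  clear hfb hgb hnum hlaw hD3 hDa hDb hDc
  have hρ := term_rho (t := t) (by linarith) hl1 hzn hn0 c10
  have T2 : 4 * ((n : ℝ) * (n * (B * z)) ^ 4 * (k ^ 2 *
      ((10 : ℝ) ^ (28 * t ^ 9) * Real.exp (-(9 / 10 * p0 * (89 / 100 * n)))) ^ 2)) ≤
      4 * (B * l) ^ 4 * k ^ 2 * Real.exp (-(1 / 5 * l)) := by
    have a2 : (n : ℝ) * Real.exp (-(3 / 5 * l)) ^ 2 = Real.exp (-(1 / 5 * l)) := by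
      rw [hl, pow_two, ← Real.exp_add, ← Real.exp_add]; congr 1; ring
    rw [c16, ← a2]
    calc _ ≤ 4 * ((n : ℝ) * (B * l) ^ 4 * (k ^ 2 * Real.exp (-(3 / 5 * l)) ^ 2)) := by gcongr
      _ = _ := by ring
  have T3 : 1 / (m2 : ℝ) * (n * (k *
      ((10 : ℝ) ^ (28 * t ^ 9) * Real.exp (-(9 / 10 * p0 * (89 / 100 * n)))))) ≤
      2 * k * l ^ 2 * Real.exp (-(3 / 5 * l)) := by
    have a1 : 1 / (m2 : ℝ) * n ≤ 2 * l ^ 2 := by
      rw [one_div, ← div_eq_inv_mul, div_le_iff₀ d1']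
      have a2 : (t : ℝ) ^ 11 ≤ l ^ 2 := by
        calc (t : ℝ) ^ 11 = t ^ 10 * t := by ring
          _ ≤ l * l := by gcongr; linarith
          _ = _ := by ring
      calc (n : ℝ) ≤ 2 * (t ^ 11 * m2) := d3'
        _ ≤ 2 * (l ^ 2 * m2) := by gcongr
        _ = _ := by ring
    calc _ ≤ 1 / (m2 : ℝ) * (n * (k * Real.exp (-(3 / 5 * l)))) := by gcongr
      _ = k * (1 / (m2 : ℝ) * n) * Real.exp (-(3 / 5 * l)) := by ring
      _ ≤ k * (2 * l ^ 2) * Real.exp (-(3 / 5 * l)) := by gcongr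
      _ = _ := by ring
  have T4 : 1 / ((n * t ^ 11 : ℕ) : ℝ) * (n ^ 2 * (3 * (k * z))) ≤ 6 * k / t := by
    push_cast
    calc _ = 3 * k * (z * n) / t ^ 11 := by field_simp
      _ ≤ 3 * k * (2 * t ^ 10) / t ^ 11 := by gcongr
      _ = _ := by field_simp; ring
  have T6 := term6 (by linarith) hn0 hz0 c15 b1' c10
  have T7 := term7 (k := k) (by omega) hm0 hz0 c15 (hC' ▸ b3')
  have T8 := term8 (k := k) (n := n) (by omega) hz0 (by linarith)
  have T9 : Real.exp (-n) ≤ Real.exp (-(1 / 2 * n)) := Real.exp_le_exp.2 (by linarith)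
  have T6' : (k : ℝ) * (4 ^ n * Real.exp (-(p0 * m1 ^ 2))) ≤ k * Real.exp (-(1 / 2 * n)) := by
    gcongr; exact T6.trans T9
  have T10 : (n : ℝ) ^ (m2 * (k * 2)) ≤ Real.exp (1 / 2 * n) := by
    refine (pow_le_exp_mul hn0.le hl.le _).trans (Real.exp_le_exp.2 ?_)
    push_cast
    calc l * (m2 * (k * 2)) ≤ 2 * t ^ 10 * (m2 * (t / 8 * 2)) := by gcongr; linarith
      _ = 1 / 2 * (t ^ 11 * m2) := by ring
      _ ≤ _ := by gcongr
  have T11 : Real.exp (1 / 2 * n) * (2 * Real.exp (-n)) = 2 * Real.exp (-(1 / 2 * n)) := by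
    rw [mul_left_comm, ← Real.exp_add]; congr 2; ring
  have T12 := mul_le_mul T10 (show _ ≤ 2 * Real.exp (-n) by linarith [add_le_add T7 T8] :
    (k : ℝ) ^ n * (4 ^ n * Real.exp (-(z / 10 / 2 * (m' * n / 80 : ℕ)))) +
    (k : ℝ) ^ n * (((1 / (4 * 10 ^ 6) : ℝ) ^ n)⁻¹ *
      Real.exp (z / 10 / 2 * (1 / (4 * 10 ^ 6)) * n ^ 2) *
      Real.exp (-(z / 10 / 2 * (n ^ 2 / 10 ^ 6 : ℕ)))) ≤ 2 * Real.exp (-n)) (by positivity)
    (by positivity)
  rw [mul_add ((k : ℝ) ^ n)]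
  linarith

end Pool.Agent.Lib.MP_753083_pr
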