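import Pool.Agent.Lib.MP_753083_pr.Hit2

set_option autoImplicit false
set_option linter.unusedSectionVars false
open Finset Filter Topology

namespace Pool.Agent.Lib.MP_753083_pr

lemma md2_real {n : ℕ} {l p : ℝ} (hn : 4 ≤ n) (hl : (n : ℝ) = Real.exp l) (hl1 : 1 ≤ l)
    (hp : p * n = l) (hl2 : 4 * l ^ 2 ≤ n) :
    Ex (fun _ : Sym2 (Fin n) => wb p) (fun x => one (MD2 x)) ≤ 9 / l := by
  have hn' : (4 : ℝ) ≤ n := by exact_mod_cast hn
  have p0 : 0 < p := by
    by_contra h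
    nlinarith
  have p1 : p * l ≤ 1 / 4 := by
    by_contra h
    nlinarith
  have p2 : p ≤ 1 / 4 := by nlinarith
  have a0 : 0 < 1 - p := by linarith
  obtain ⟨B, hB⟩ : ∃ B, B = (n : ℝ) ^ 2 * (p * (1 - p) ^ (n - 4)) := ⟨_, rfl⟩
  have u1 : l / 3 ≤ B := by
    have b1 : Real.exp (-(p + 2 * p ^ 2)) ≤ 1 - p := by
      rw [Real.exp_neg, inv_le_comm₀ (Real.exp_pos _) (by linarith)]
      refine le_trans ?_ (Real.add_one_le_exp _)
      rw [inv_le_iff_one_le_mul₀ (by linarith)]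
      nlinarith [mul_nonneg (sq_nonneg p) (show 0 ≤ 1 - 2 * p by linarith)]
    have b2 : Real.exp (-l) * Real.exp (-1) ≤ (1 - p) ^ (n - 4) := by
      calc _ ≤ Real.exp (-(p + 2 * p ^ 2)) ^ n := by
            rw [← Real.exp_nat_mul, ← Real.exp_add]
            apply Real.exp_le_exp.2
            have : (n : ℝ) * p ^ 2 = p * l := by rw [← hp]; ring
            nlinarith
        _ ≤ (1 - p) ^ n := by gcongr
        _ ≤ _ := pow_le_pow_of_le_one a0.le (by linarith) (by omega)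
    have b3 : 1 / 3 ≤ Real.exp (-1) := by
      rw [Real.exp_neg, one_div]
      exact inv_anti₀ (Real.exp_pos _) exp_one_le
    have b4 : (n : ℝ) * Real.exp (-l) = 1 := by rw [hl, ← Real.exp_add]; simp
    calc l / 3 = l * (n * Real.exp (-l)) * (1 / 3) := by rw [b4]; ring
      _ ≤ l * (n * Real.exp (-l)) * Real.exp (-1) := by gcongr
      _ = n ^ 2 * (p * (Real.exp (-l) * Real.exp (-1))) := by rw [← hp]; ring
      _ ≤ _ := by rw [hB]; gcongr
  have hB0 : 0 < B := by linarith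
  have u2 : ((n * n - n : ℕ) : ℝ) * (p * (1 - p) ^ (n - 2)) = (1 - 1 / n) * (1 - p) ^ 2 * B := by
    rw [hB, Nat.cast_sub (Nat.le_mul_self n), show n - 2 = n - 4 + 2 by omega, pow_add]
    push_cast
    field_simp
  refine (P_md2 (θ := B⁻¹) p0.le (by linarith)).trans ?_
  rw [Fintype.card_fin, ← hB, u2]
  have v1 : 1 - 2 * B⁻¹ * ((1 - 1 / n) * (1 - p) ^ 2 * B) + B⁻¹ ^ 2 * (2 * B + B ^ 2) =
      2 - 2 * ((1 - 1 / n) * (1 - p) ^ 2) + 2 / B := by field_simp; ring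
  have v2 : 2 / B ≤ 6 / l := by
    rw [div_le_div_iff₀ hB0 (by linarith)]; linarith
  have v3 : 1 / (n : ℝ) ≤ p := by
    rw [div_le_iff₀ (by linarith)]; linarith
  have v4 : 6 * p ≤ 3 / l := by
    rw [le_div_iff₀ (by linarith)]; linarith
  have v5 : (1 - p) * (1 - p) ^ 2 ≤ (1 - 1 / n) * (1 - p) ^ 2 := by gcongr
  have v6 : 9 / l = 6 / l + 3 / l := by ring
  rw [v1, v6]
  nlinarith [mul_nonneg (sq_nonneg p) (show 0 ≤ 3 - p by linarith)]

lemma P_E1_le {V K : Type*} [Fintype V] [DecidableEq V] [Fintype K] [DecidableEq K] {r : K → ℝ}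
    (h0 : ∀ j, 0 ≤ r j) (h1 : ∑ j, r j ≤ 1) (j0 : K) :
    Ex (fun _ : Sym2 V => wv r) (fun f => one (E1 f)) ≤
      Ex (fun _ : Sym2 V => wb (r j0)) (fun x => one (MD2 x)) := by
  have hD := isD_wv h0 h1
  have h2 : r j0 ≤ 1 := (Finset.single_le_sum (fun j _ => h0 j) (Finset.mem_univ j0)).trans h1
  refine (Ex_mono (fun _ => hD) (g := fun f => one (MD2 fun e => decide (f e = some j0)))
    fun f => one_mono fun h v => by simpa using h v j0).trans ?_
  refine hybrid hD (isD_wb (h0 j0) h2) (fun _ o => decide (o = some j0)) (fun _ b => b)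
    (fun x => one (MD2 x)) fun e x => ?_
  obtain ⟨A, hA⟩ : ∃ A, A = one (MD2 (Function.update x e false)) := ⟨_, rfl⟩
  obtain ⟨B, hB⟩ : ∃ B, B = one (MD2 (Function.update x e true)) := ⟨_, rfl⟩
  have a2 : ∀ o : Option K, one (MD2 (Function.update x e (decide (o = some j0)))) =
      A + if o = some j0 then B - A else 0 := by
    intro o
    split_ifs with k
    · simp [k, hB]
    · simp [k, hA]
  simp only [a2, mul_add, Finset.sum_add_distrib, ← Finset.sum_mul, hD.2, mul_ite, mul_zero,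
    Finset.sum_ite_eq', Finset.mem_univ, if_true, Fintype.sum_bool, wb, ← hA, ← hB]
  simp only [wv, Option.elim, Bool.false_eq_true, if_false]
  linarith

lemma log_sq_le (c : ℝ) : ∀ᶠ n : ℕ in atTop, c * Real.log n ^ 2 ≤ n := by
  have := ((isLittleO_pow_exp_pos_mul_atTop 2 zero_lt_one).const_mul_left c).bound zero_lt_one
  filter_upwards [tendsto_log_nat.eventually this, eventually_gt_atTop 0] with n b1 b2
  rw [one_mul, one_mul, Real.exp_log (by exact_mod_cast b2), Real.norm_eq_abs, Real.norm_eq_abs,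
    Nat.abs_cast] at b1
  exact (le_abs_self _).trans b1

theorem bad_limit {K : Type*} [Fintype K] [DecidableEq K] [Nonempty K] (j0 : K) {B : ℝ}
    (hB : 1 ≤ B) {σ : Type*} [Fintype σ] {ν : ℕ → σ → ℝ} {L H : σ → Option K} {r1 r2 : ℕ → K → ℝ}
    (h : ∀ᶠ n : ℕ in atTop, IsD (ν n) ∧ Law2 (ν n) L H (r1 n) (r2 n) ∧
      r1 n j0 = Real.log n / n ∧ (∀ j, Real.log n / n ≤ r1 n j) ∧
      (∀ j, (Real.log n + Real.log n) / n ≤ r2 n j) ∧ ∑ j, r1 n j ≤ 1 ∧ ∑ j, r2 n j ≤ 1 ∧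
      ∑ j, r2 n j ≤ B * (Real.log n / n)) :
    Tendsto (fun n : ℕ => Ex (fun _ : Sym2 (Fin n) => ν n) (fun x => one (E1 (fun e => L (x e)) ∨
      ¬ All j0 n (fun e => H (x e)) ∨ Sand j0 n (fun e => L (x e)) (fun e => H (x e)))))
      atTop (𝓝 0) := by
  obtain ⟨t, ht, ht'⟩ := exists_t
  obtain ⟨k, hk⟩ : ∃ k, Fintype.card K = k := ⟨_, rfl⟩
  obtain ⟨C, hC⟩ : ∃ C, C = 2000 * (k + 3) := ⟨_, rfl⟩
  have l0 : Tendsto (fun n : ℕ => Real.log n - Real.log (Real.log n)) atTop atTop := by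
    refine tendsto_atTop_mono' _ ?_ (tendsto_log_nat.atTop_div_const two_pos)
    filter_upwards [tendsto_log_nat.eventually_gt_atTop 0] with n a1
    have a2 := Real.log_le_sub_one_of_pos (half_pos a1)
    rw [Real.log_div a1.ne' two_ne_zero] at a2
    linarith [Real.log_two_lt_d9]
  have l1 : Tendsto (fun n => ((t n : ℝ) ^ 10 * (1 / 2) ^ (t n))) atTop (𝓝 0) :=
    (tendsto_pow_const_mul_const_pow_of_abs_lt_one 10 (r := 1 / 2)
      (by rw [abs_of_pos] <;> norm_num)).comp ht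
  have l3 := pos_limit j0 (ω := fun n => Real.log n) l0 (r := r2)
    (h.mono fun n a => ⟨a.2.2.2.2.1, a.2.2.2.2.2.2.1⟩)
  have l2 : Tendsto (fun n : ℕ => 9 / Real.log n +
      (Ex (fun _ : Sym2 (Fin n) => wv (r2 n)) (fun f => one (¬ All j0 n f)) +
      (4 * (B * Real.log n) ^ 4 * k ^ 2 * Real.exp (-(1 / 5 * Real.log n)) +
      2 * k * Real.log n ^ 2 * Real.exp (-(3 / 5 * Real.log n)) + 6 * k / t n +
      12 * ((t n : ℝ) ^ 10 * (1 / 2) ^ (t n)) + (k + 2) * Real.exp (-(1 / 2 * n))))) atTop (𝓝 0) := by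
    have a1 := tendsto_log_nat.const_div_atTop (9 : ℝ)
    have a2 := (tendsto_pow_exp 4 (b := 1 / 5) (by norm_num)).const_mul (4 * B ^ 4 * k ^ 2 : ℝ)
    have a3 := (tendsto_pow_exp 2 (b := 3 / 5) (by norm_num)).const_mul (2 * k : ℝ)
    have a4 := (tendsto_const_div_atTop_nhds_zero_nat (6 * k : ℝ)).comp ht
    have a5 := l1.const_mul 12
    have a6 := (Real.tendsto_exp_neg_atTop_nhds_zero.comp (tendsto_natCast_atTop_atTop.const_mul_atTop
      (show (0 : ℝ) < 1 / 2 by norm_num))).const_mul (k + 2 : ℝ)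
    have a7 := a1.add (l3.add ((((a2.add a3).add a4).add a5).add a6))
    simp only [mul_zero, add_zero] at a7
    refine a7.congr fun n => ?_
    simp only [Function.comp]
    ring
  refine squeeze_zero' (h.mono fun n a => Ex_nonneg (fun _ => a.1) fun _ => one_nonneg _) ?_ l2
  filter_upwards [h, ht', ht.eventually_ge_atTop (2 ^ (4800 * C)),
    ht.eventually_ge_atTop (10 ^ 15 * C ^ 2), eventually_ge_atTop 4,
    l1.eventually (ge_mem_nhds (show (0 : ℝ) < 1 / 6 by norm_num)), log_sq_le 4,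
    tendsto_log_nat.eventually_ge_atTop 1] with n a1 a3 a4 a5 a6 a7 a8 a9
  obtain ⟨b1, b2, b3, b4, b5, b6, b7, b8⟩ := a1
  have hn0 : (0 : ℝ) < n := by exact_mod_cast (show 0 < n by omega)
  have hl := (Real.exp_log hn0).symm
  have c0 : 0 ≤ Real.log n / n := by positivity
  have c1 : ∀ j, Real.log n / n ≤ r2 n j := fun j =>
    le_trans (div_le_div_of_nonneg_right (by linarith) hn0.le) (b5 j)
  have c2 : ∀ j, 0 ≤ r1 n j := fun j => c0.trans (b4 j)
  refine (Ex_or_le (fun _ => b1) _ _).trans (add_le_add ?_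
    ((Ex_or_le (fun _ => b1) _ _).trans (add_le_add ?_ ?_)))
  · refine (Ex_law b1 (isD_wv c2 b6) b2.fst (fun f => one (E1 f))).trans
      ((P_E1_le c2 b6 j0).trans ?_)
    exact md2_real a6 hl a9 (by rw [b3, div_mul_cancel₀ _ hn0.ne']) a8
  · exact Ex_law b1 (isD_wv (fun j => c0.trans (c1 j)) b7) b2.snd (fun f => one (¬ All j0 n f))
  · exact sand_real j0 hk hC a4 a5 hl a3.1 a3.2 (by rw [mul_assoc]; linarith) hB b1 b2 b4 c1 b7 b8

end Pool.Agent.Lib.MP_753083_pr
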