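import Pool.Agent.Lib.MP_753083_pr.Hit3
import Pool.Agent.Lib.MP_753083_pr.HDefs

set_option autoImplicit false
set_option linter.unusedSectionVars false
open Finset Filter Topology

namespace Pool.Agent.Lib.MP_753083_pr

lemma sort_couple {ι ρ : Type*} [Fintype ι] [DecidableEq ι] [Fintype ρ] [LinearOrder ρ]
    {ν : ρ → ℝ} (hν : IsD ν) (F : (ι ≃ Fin (Fintype.card ι)) → ℝ) (G : (ι → ρ) → ℝ)
    (h : ∀ (σ : ι ≃ Fin (Fintype.card ι)) (y : Fin (Fintype.card ι) → ρ), Monotone y →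
      F σ ≤ G (fun e => y (σ e))) :
    ∑ σ, ((Fintype.card ι).factorial : ℝ)⁻¹ * F σ ≤ Ex (fun _ : ι => ν) G := by
  have h1 : ∀ y : Fin (Fintype.card ι) → ρ,
      ∑ σ, F σ ≤ ∑ σ : ι ≃ Fin (Fintype.card ι), G (fun e => y (σ e)) := by
    intro y
    rw [← (Equiv.equivCongr (Equiv.refl ι) (Tuple.sort y)).sum_comp
      (fun σ : ι ≃ Fin (Fintype.card ι) => G (fun e => y (σ e)))]
    exact Finset.sum_le_sum fun σ _ => h σ (y ∘ Tuple.sort y) (Tuple.monotone_sort y)
  have h2 : ∀ σ : ι ≃ Fin (Fintype.card ι),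
      Ex (fun _ : Fin (Fintype.card ι) => ν) (fun y => G (fun e => y (σ e))) =
        Ex (fun _ : ι => ν) G := by
    intro σ
    unfold Ex
    refine Fintype.sum_equiv (Equiv.arrowCongr σ.symm (Equiv.refl ρ)) _ _ fun y => ?_
    rw [← σ.prod_comp]
    rfl
  have h3 : ∑ σ, F σ ≤ (Fintype.card ι).factorial * Ex (fun _ : ι => ν) G := by
    calc ∑ σ, F σ = Ex (fun _ : Fin (Fintype.card ι) => ν) (fun _ => ∑ σ, F σ) :=
          (Ex_const (fun _ => hν) _).symm
      _ ≤ _ := Ex_mono (fun _ => hν) h1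
      _ = _ := by
          rw [Ex_sum]
          simp only [h2]
          rw [Finset.sum_const, Finset.card_univ, Fintype.card_equiv (Fintype.equivFin ι),
            nsmul_eq_mul]
  rw [← Finset.mul_sum, inv_mul_le_iff₀ (by positivity)]
  exact h3

lemma e1_iff {n k : ℕ} (f : Sym2 (Fin n) → Option (Fin k)) :
    E1 f ↔ MinDegTwo (fun e : Pair n => f e.1) := by
  refine forall_congr' fun v => forall_congr' fun j => ?_
  rw [Nat.succ_le_iff, Set.one_lt_ncard_iff]
  constructor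
  · rintro ⟨u, w, h1, h2, h3, h4, h5⟩
    refine ⟨⟨s(v, u), by simpa using h2.symm⟩, ⟨s(v, w), by simpa using h3.symm⟩,
      ⟨by simp, h4⟩, ⟨by simp, h5⟩, fun h => h1 ?_⟩
    exact Sym2.congr_right.1 (congrArg Subtype.val h)
  · rintro ⟨⟨e, he⟩, ⟨e', he'⟩, ⟨h1, h2⟩, ⟨h3, h4⟩, h5⟩
    obtain ⟨u, rfl⟩ := Sym2.mem_iff_exists.1 h1
    obtain ⟨w, rfl⟩ := Sym2.mem_iff_exists.1 h3
    refine ⟨u, w, fun h => h5 (by simp [h]), fun h => he (by simp [h]), fun h => he' (by simp [h]),
      h2, h4⟩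

lemma HasCycle.mono {n k : ℕ} {f g : Pair n → Option (Fin k)} {c : Fin n → Fin k}
    (h : HasCycle f c) (hh : ∀ e j, f e = some j → g e = some j) : HasCycle g c := by
  obtain ⟨x, hx⟩ := h
  exact ⟨x, fun i => (hx i).imp fun _ a => hh _ _ a⟩

def loF {K : Type*} (s : Fin 3 × K) : Option K := if s.1 = 0 then some s.2 else none

def hiF {K : Type*} (s : Fin 3 × K) : Option K := if s.1 = 2 then none else some s.2

lemma downset {M : ℕ} {y : Fin M → Fin 3} (hy : Monotone y) (m : ℕ) (a : Fin 3) :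
    (∀ i : Fin M, (i : ℕ) < m → y i ≤ a) ∨ ∀ i : Fin M, y i ≤ a → (i : ℕ) < m := by
  by_contra h
  push Not at h
  obtain ⟨⟨i, h1, h2⟩, j, h3, h4⟩ := h
  exact absurd (hy (show i ≤ j from Fin.le_def.2 (by omega))) (not_le.2 (h3.trans_lt h2))

lemma hit_det {n k : ℕ} (hn : 3 ≤ n) (j0 : Fin k) (σ : Pair n ≃ Fin (Fintype.card (Pair n)))
    (χ : Pair n → Fin k) {y : Fin (Fintype.card (Pair n)) → Fin 3} (hy : Monotone y)
    {x : Sym2 (Fin n) → Fin 3 × Fin k} (hx : ∀ e : Pair n, x e.1 = (y (σ e), χ e))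
    (h1 : ¬ E1 (fun e => loF (x e))) (h2 : All j0 n (fun e => hiF (x e)))
    (h3 : ¬ Sand j0 n (fun e => loF (x e)) (fun e => hiF (x e))) :
    ∃ τ : ℕ, IsLeast {m | MinDegTwo (stage σ χ m)} τ ∧
      IsLeast {m | ∀ c : Fin n → Fin k, HasCycle (stage σ χ m) c} τ := by
  classical
  let g : ℕ → Sym2 (Fin n) → Option (Fin k) := fun m e =>
    if h : ¬ e.IsDiag then stage σ χ m ⟨e, h⟩ else loF (x e)
  have g1 : ∀ m, (fun e : Pair n => g m e.1) = stage σ χ m := fun m =>
    funext fun e => dif_pos e.2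
  have g2 : ∀ m, E1 (g m) ↔ MinDegTwo (stage σ χ m) := fun m => by rw [e1_iff, g1]
  have g3 : ∀ m, All j0 n (g m) ↔ ∀ c, HasCycle (stage σ χ m) c := fun m => by
    rw [all_iff hn, g1]
  have g4 : ∀ m, (∀ i : Fin (Fintype.card (Pair n)), y i ≤ 1 → (i : ℕ) < m) →
      ∀ c, HasCycle (stage σ χ m) c := by
    intro m hm c
    refine ((all_iff hn j0 _).1 h2 c).mono fun e j he => ?_
    simp only [hx, hiF] at he
    split_ifs at he with a
    rw [stage, if_pos (hm _ (by omega)), he]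
  have g5 : ∀ m, MinDegTwo (stage σ χ m) → ∀ c, HasCycle (stage σ χ m) c := by
    intro m hm
    rw [← g2] at hm
    rcases downset hy m 0 with a | a
    · refine absurd (fun v j => ?_) h1
      obtain ⟨u, w, b1, b2, b3, b4, b5⟩ := hm v j
      have : ∀ e j, g m e = some j → loF (x e) = some j := by
        intro e j he
        simp only [g] at he
        split_ifs at he with b
        · exact he
        · rw [hx ⟨e, b⟩, loF]
          unfold stage at he
          split_ifs at he with b'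
          rw [if_pos (le_antisymm (a _ b') (Fin.zero_le _)), he]
      exact ⟨u, w, b1, b2, b3, this _ _ b4, this _ _ b5⟩
    rcases downset hy m 1 with a' | a'
    · rw [← g3]
      by_contra b
      refine h3 ⟨g m, fun e j he => ?_, fun e j he => ?_, hm, b⟩
      · simp only [g]
        split_ifs with b
        · exact he
        · simp only [hx ⟨e, b⟩, loF] at he
          split_ifs at he with b'
          rw [stage, if_pos (a _ b'.le), he]
      · simp only [g] at he
        split_ifs at he with b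
        · simp only [loF] at he
          split_ifs at he with b'
          simp only [hiF]
          rw [if_neg (by omega), he]
        · simp only [hx ⟨e, b⟩, hiF]
          unfold stage at he
          split_ifs at he with b'
          rw [if_neg (by have := a' _ b'; omega), he]
    · exact g4 m a'
  have g6 : {m | MinDegTwo (stage σ χ m)} = {m | ∀ c, HasCycle (stage σ χ m) c} := by
    refine Set.ext fun m => ⟨g5 m, fun hm => (g2 m).1 fun v j => ?_⟩
    simpa using ((g3 m).2 hm).md2 (Fintype.card_fin n) hn j v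
  have g7 : ∃ m, ∀ c, HasCycle (stage σ χ m) c := ⟨_, g4 _ fun i _ => i.2⟩
  rw [g6]
  exact ⟨Nat.find g7, Nat.isLeast_find g7, Nat.isLeast_find g7⟩

lemma law_proc {K : Type*} [Fintype K] [DecidableEq K] {α : K → ℝ} (h1 : ∑ i, α i = 1) (q q' : ℝ) :
    Law2 (fun s : Fin 3 × K => ![q, q' - q, 1 - q'] s.1 * α s.2) loF hiF
      (fun j => q * α j) (fun j => q' * α j) := by
  intro φ
  rw [Fintype.sum_prod_type, Fin.sum_univ_three]
  simp only [loF, hiF, Matrix.cons_val_zero, Matrix.cons_val_one, Matrix.cons_val_two,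
    Matrix.head_cons, Matrix.tail_cons, if_true, Fin.reduceEq, if_false, ← Finset.mul_sum,
    ← Finset.sum_mul, h1, Finset.sum_add_distrib, ← sub_mul]
  ring

lemma hit_le {n k : ℕ} (hn : 3 ≤ n) (j0 : Fin k) {α : Fin k → ℝ} (hα : IsD α) {ν : Fin 3 → ℝ}
    (hν : IsD ν) : 0 ≤ 1 - probHit n α ∧ 1 - probHit n α ≤
      Ex (fun (_ : Sym2 (Fin n)) (s : Fin 3 × Fin k) => ν s.1 * α s.2)
        (fun x => one (E1 (fun e => loF (x e)) ∨ ¬ All j0 n (fun e => hiF (x e)) ∨
          Sand j0 n (fun e => loF (x e)) (fun e => hiF (x e)))) := by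
  have hD := hν.prod hα
  have e1 : 1 - probHit n α = ∑ σ : Pair n ≃ Fin (Fintype.card (Pair n)),
      ((Fintype.card (Pair n)).factorial : ℝ)⁻¹ * Ex (fun _ : Pair n => α) (fun χ =>
        one (¬ ∃ τ : ℕ, IsLeast {m | MinDegTwo (stage σ χ m)} τ ∧
          IsLeast {m | ∀ c : Fin n → Fin k, HasCycle (stage σ χ m) c} τ)) := by
    simp only [one_not, Ex_sub, Ex_const (fun _ : Pair n => hα), mul_sub, Finset.sum_sub_distrib]
    rw [Finset.sum_const, Finset.card_univ, Fintype.card_equiv (Fintype.equivFin _), nsmul_eq_mul,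
      mul_one, mul_inv_cancel₀ (by positivity)]
    congr 1
    unfold probHit Ex one
    simp only [Finset.mul_sum, mul_assoc]
  rw [e1]
  refine ⟨Finset.sum_nonneg fun σ _ => mul_nonneg (by positivity)
    (Ex_nonneg (fun _ => hα) fun _ => one_nonneg _), ?_⟩
  obtain ⟨Φ, hΦ⟩ : ∃ Φ : (Pair n → Fin 3 × Fin k) → ℝ, Φ = fun z =>
    one (∀ x : Sym2 (Fin n) → Fin 3 × Fin k, (∀ e : Pair n, x e.1 = z e) →
      E1 (fun e => loF (x e)) ∨ ¬ All j0 n (fun e => hiF (x e)) ∨
        Sand j0 n (fun e => loF (x e)) (fun e => hiF (x e))) := ⟨_, rfl⟩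
  refine (sort_couple hν _ (fun y => Ex (fun _ : Pair n => α) (fun χ => Φ (fun e => (y e, χ e))))
    fun σ y hy => Ex_mono (fun _ => hα) fun χ => ?_).trans ?_
  · rw [hΦ]
    refine one_mono fun h x hx => ?_
    by_contra b
    push Not at b
    exact h (hit_det hn j0 σ χ hy hx b.1 b.2.1 b.2.2)
  · rw [← Ex_pair, ← Ex_subtype hD (fun e : Sym2 (Fin n) => ¬ e.IsDiag) Φ, hΦ]
    exact Ex_mono (fun _ => hD) fun x => one_mono fun h => h x fun _ => rfl

theorem hitting (k : ℕ) (α : Fin k → ℝ) (h0 : ∀ i, 0 < α i) (h1 : ∑ i, α i = 1) :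
    Tendsto (fun n : ℕ => probHit n α) atTop (𝓝 1) := by
  have : Nonempty (Fin k) := by
    rcases isEmpty_or_nonempty (Fin k) with h | h
    · simp at h1
    · exact h
  obtain ⟨j0, hle⟩ := Finite.exists_min α
  have ha := h0 j0
  have hα : IsD α := ⟨fun j => (h0 j).le, h1⟩
  have ha1 : α j0 ≤ 1 := (Finset.single_le_sum (fun j _ => (h0 j).le) (Finset.mem_univ j0)).trans h1.le
  have hb : 1 ≤ (α j0)⁻¹ := (one_le_inv₀ ha).2 ha1
  obtain ⟨q, hq⟩ : ∃ q : ℕ → ℝ, q = fun n : ℕ => (α j0)⁻¹ * (Real.log n / n) := ⟨_, rfl⟩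
  have e1 : ∀ᶠ n : ℕ in atTop, 0 ≤ q n ∧ 2 * q n ≤ 1 := by
    filter_upwards [log_sq_le (2 * (α j0)⁻¹), tendsto_log_nat.eventually_ge_atTop 1,
      eventually_gt_atTop 0] with n a1 a2 a3
    have hn0 : (0 : ℝ) < n := by exact_mod_cast a3
    rw [hq]
    refine ⟨by positivity, ?_⟩
    dsimp only
    rw [← mul_assoc, ← mul_div_assoc, div_le_one hn0]
    refine le_trans ?_ a1
    gcongr
    exact le_self_pow₀ a2 two_ne_zero
  have e2 : ∀ᶠ n : ℕ in atTop, IsD ![q n, 2 * q n - q n, 1 - 2 * q n] := by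
    filter_upwards [e1] with n a
    refine ⟨fun s => ?_, by simp [Fin.sum_univ_three]⟩
    fin_cases s <;> simp <;> linarith [a.1, a.2]
  have e3 := bad_limit j0 (B := 2 * (α j0)⁻¹) (by linarith)
    (ν := fun n (s : Fin 3 × Fin k) => ![q n, 2 * q n - q n, 1 - 2 * q n] s.1 * α s.2)
    (L := loF) (H := hiF) (r1 := fun n j => q n * α j) (r2 := fun n j => 2 * q n * α j) (by
      filter_upwards [e1, e2] with n a b
      have c1 : q n * α j0 = Real.log n / n := by rw [hq]; field_simp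
      have c2 : ∀ j, Real.log n / n ≤ q n * α j := fun j =>
        c1 ▸ mul_le_mul_of_nonneg_left (hle j) a.1
      refine ⟨b.prod hα, law_proc h1 _ _, c1, c2, fun j => ?_, ?_, ?_, ?_⟩
      · rw [add_div]; linarith [c2 j]
      · rw [← Finset.mul_sum, h1]; linarith [a.1, a.2]
      · rw [← Finset.mul_sum, h1]; linarith [a.2]
      · rw [← Finset.mul_sum, h1, hq]; dsimp only; linarith)
  have e4 : Tendsto (fun n : ℕ => 1 - probHit n α) atTop (𝓝 0) := by
    refine squeeze_zero' ?_ ?_ e3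
    · filter_upwards [e2, eventually_ge_atTop 3] with n a b using (hit_le b j0 hα a).1
    · filter_upwards [e2, eventually_ge_atTop 3] with n a b using (hit_le b j0 hα a).2
  simpa using e4.const_sub 1

end Pool.Agent.Lib.MP_753083_pr
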