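import Pool.Agent.Lib.MP_753083_pr.Neg
import Pool.Agent.Lib.MP_753083_pr.Defs

set_option autoImplicit false
set_option linter.unusedSectionVars false
open Finset Filter Topology

namespace Pool.Agent.Lib.MP_753083_pr

lemma tendsto_log_nat : Tendsto (fun n : ℕ => Real.log n) atTop atTop :=
  Real.tendsto_log_atTop.comp tendsto_natCast_atTop_atTop

lemma exists_t : ∃ t : ℕ → ℕ, Tendsto t atTop atTop ∧
    ∀ᶠ n : ℕ in atTop, (t n : ℝ) ^ 10 ≤ Real.log n ∧ Real.log n ≤ 2 * (t n : ℝ) ^ 10 := by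
  have h1 : Tendsto (fun n : ℕ => ⌊Real.log n ^ ((10 : ℕ)⁻¹ : ℝ)⌋₊) atTop atTop :=
    tendsto_nat_floor_atTop.comp ((tendsto_rpow_atTop (by norm_num)).comp tendsto_log_nat)
  refine ⟨_, h1, ?_⟩
  filter_upwards [h1.eventually_ge_atTop 20, tendsto_log_nat.eventually_ge_atTop 0] with n a1 a2
  obtain ⟨y, hy⟩ : ∃ y, y = Real.log n ^ ((10 : ℕ)⁻¹ : ℝ) := ⟨_, rfl⟩
  have a3 : y ^ 10 = Real.log n := by rw [hy]; exact Real.rpow_inv_natCast_pow a2 (by norm_num)
  have a4 : 0 ≤ y := by rw [hy]; positivity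
  rw [← hy] at a1 ⊢
  rw [← a3]
  have a5 := Nat.floor_le a4
  have a6 := Nat.lt_floor_add_one y
  have a7 : (20 : ℝ) ≤ ⌊y⌋₊ := by exact_mod_cast a1
  refine ⟨by gcongr, ?_⟩
  calc y ^ 10 ≤ (21 / 20 * (⌊y⌋₊ : ℝ)) ^ 10 := by gcongr; linarith
    _ = (21 / 20) ^ 10 * (⌊y⌋₊ : ℝ) ^ 10 := by ring
    _ ≤ _ := by gcongr; norm_num

lemma tendsto_pow_exp (j : ℕ) {b : ℝ} (hb : 0 < b) :
    Tendsto (fun n : ℕ => Real.log n ^ j * Real.exp (-(b * Real.log n))) atTop (𝓝 0) := by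
  have := ((isLittleO_pow_exp_pos_mul_atTop j hb).tendsto_div_nhds_zero).comp tendsto_log_nat
  refine this.congr fun n => ?_
  simp only [Function.comp, Real.exp_neg, div_eq_mul_inv]

theorem pos_limit {K : Type*} [Fintype K] [DecidableEq K] [Nonempty K] (c0 : K) {ω : ℕ → ℝ}
    (hω : Tendsto (fun n : ℕ => ω n - Real.log (Real.log n)) atTop atTop) {r : ℕ → K → ℝ}
    (hr : ∀ᶠ n : ℕ in atTop, (∀ j, (Real.log n + ω n) / n ≤ r n j) ∧ ∑ j, r n j ≤ 1) :
    Tendsto (fun n : ℕ => Ex (fun _ : Sym2 (Fin n) => wv (r n)) (fun f => one (¬ All c0 n f)))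
      atTop (𝓝 0) := by
  obtain ⟨t, ht, ht'⟩ := exists_t
  obtain ⟨k, hk⟩ : ∃ k, Fintype.card K = k := ⟨_, rfl⟩
  obtain ⟨C, hC⟩ : ∃ C, C = 2000 * (k + 3) := ⟨_, rfl⟩
  let w : ℕ → ℝ := fun n => min (ω n - Real.log (Real.log n)) (Real.log n)
  have hw : Tendsto w atTop atTop := by
    rw [tendsto_atTop]
    intro b
    filter_upwards [hω.eventually_ge_atTop b, tendsto_log_nat.eventually_ge_atTop b] with n a1 a2
    exact le_min a1 a2
  have l1 : Tendsto (fun n => ((t n : ℝ) ^ 10 * (1 / 2) ^ (t n))) atTop (𝓝 0) :=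
    (tendsto_pow_const_mul_const_pow_of_abs_lt_one 10 (r := 1 / 2)
      (by rw [abs_of_pos] <;> norm_num)).comp ht
  have l2 : Tendsto (fun n : ℕ => (k : ℝ) * (36 * Real.exp (-w n)) +
      4 * (3 * k * Real.log n) ^ 4 * k ^ 2 * Real.exp (-(1 / 5 * Real.log n)) +
      k * Real.log n * Real.exp (-(3 / 5 * Real.log n)) + 6 * k / t n +
      12 * ((t n : ℝ) ^ 10 * (1 / 2) ^ (t n)) + (k + 2) * Real.exp (-n)) atTop (𝓝 0) := by
    have a1 := ((Real.tendsto_exp_neg_atTop_nhds_zero.comp hw).const_mul 36).const_mul (k : ℝ)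
    have a2 := (tendsto_pow_exp 4 (b := 1 / 5) (by norm_num)).const_mul (4 * (3 * k) ^ 4 * k ^ 2 : ℝ)
    have a3 := (tendsto_pow_exp 1 (b := 3 / 5) (by norm_num)).const_mul (k : ℝ)
    have a4 := (tendsto_const_div_atTop_nhds_zero_nat (6 * k : ℝ)).comp ht
    have a5 := l1.const_mul 12
    have a6 := (Real.tendsto_exp_neg_atTop_nhds_zero.comp
      tendsto_natCast_atTop_atTop).const_mul (k + 2 : ℝ)
    have a7 := ((((a1.add a2).add a3).add a4).add a5).add a6
    simp only [mul_zero, add_zero] at a7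
    refine a7.congr fun n => ?_
    simp only [Function.comp]
    ring
  have hev : ∀ᶠ n : ℕ in atTop, (∀ j, (Real.log n + Real.log (Real.log n) + w n) / n ≤ r n j) ∧
      0 ≤ w n ∧ 1 ≤ Real.log n := by
    filter_upwards [hr, hw.eventually_ge_atTop 0, tendsto_log_nat.eventually_ge_atTop 1]
      with n a1 a2 a3
    refine ⟨fun j => le_trans ?_ (a1.1 j), a2, a3⟩
    have : w n ≤ ω n - Real.log (Real.log n) := min_le_left _ _
    exact div_le_div_of_nonneg_right (by linarith) (by positivity)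
  refine squeeze_zero' ?_ ?_ l2
  · filter_upwards [hev, hr] with n a1 a2
    refine Ex_nonneg (fun _ => isD_wv (fun j => le_trans ?_ (a1.1 j)) a2.2) fun _ => one_nonneg _
    have := Real.log_nonneg a1.2.2
    have := a1.2.1
    have := a1.2.2
    positivity
  · filter_upwards [hev, hr, ht', ht.eventually_ge_atTop (2 ^ (4800 * C)),
      ht.eventually_ge_atTop (10 ^ 15 * C ^ 2), eventually_gt_atTop 0,
      l1.eventually (ge_mem_nhds (show (0 : ℝ) < 1 / 6 by norm_num))] with n a1 a2 a3 a4 a5 a6 a7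
    exact fail_real c0 hk hC a4 a5 (Real.exp_log (by exact_mod_cast a6)).symm a3.1 a3.2 a1.2.1
      (min_le_right _ _) (by rw [mul_assoc]; linarith) a1.1 a2.2

theorem neg_limit {K : Type*} [Fintype K] [DecidableEq K] (c0 j0 : K) {ω : ℕ → ℝ} {r : ℕ → K → ℝ}
    (hr : ∀ᶠ n : ℕ in atTop, (∀ j, 0 ≤ r n j) ∧ ∑ j, r n j ≤ 1 ∧ r n j0 = (Real.log n + ω n) / n)
    (h : Tendsto (fun n : ℕ => Ex (fun _ : Sym2 (Fin n) => wv (r n)) (fun f => one (All c0 n f)))
      atTop (𝓝 1)) : Tendsto (fun n : ℕ => ω n - Real.log (Real.log n)) atTop atTop := by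
  rw [tendsto_atTop]
  intro b
  obtain ⟨M, hM0, hM⟩ : ∃ M : ℝ, 0 ≤ M ∧ b ≤ M := ⟨max b 0, le_max_right _ _, le_max_left _ _⟩
  have a0 : 1 - (Real.exp (-M - 1) / 2) ^ 2 / 99 < 1 := by
    have : 0 < (Real.exp (-M - 1) / 2) ^ 2 / 99 := by positivity
    linarith
  have a1 : ∀ᶠ n : ℕ in atTop, 36 * Real.log n ^ 2 ≤ n := by
    have := ((isLittleO_pow_exp_pos_mul_atTop 2 zero_lt_one).const_mul_left 36).bound zero_lt_one
    filter_upwards [tendsto_log_nat.eventually this, eventually_gt_atTop 0] with n b1 b2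
    rw [one_mul, one_mul, Real.exp_log (by exact_mod_cast b2), Real.norm_eq_abs, Real.norm_eq_abs,
      Nat.abs_cast] at b1
    exact (le_abs_self _).trans b1
  filter_upwards [hr, h.eventually (lt_mem_nhds a0), a1, eventually_ge_atTop 4,
    tendsto_log_nat.eventually_ge_atTop 1, tendsto_log_nat.eventually_ge_atTop M]
    with n b1 b2 b3 b4 b5 b6
  by_contra hcon
  have hn0 : (0 : ℝ) < n := by exact_mod_cast (show 0 < n by omega)
  obtain ⟨c1, c2⟩ := neg_real (p := (Real.log n + Real.log (Real.log n) + M) / n) b4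
    (Real.exp_log hn0).symm b5 hM0 b6 (div_mul_cancel₀ _ hn0.ne') b3
  have c3 := P_all_le (V := Fin n) c0 (Fintype.card_fin n) (by omega) b1.1 b1.2.1 j0
    (by rw [b1.2.2]; exact div_le_div_of_nonneg_right (by linarith) hn0.le) c2
  linarith

lemma all_iff {n k : ℕ} (hn : 3 ≤ n) (c0 : Fin k) (f : Sym2 (Fin n) → Option (Fin k)) :
    All c0 n f ↔ ∀ c : Fin n → Fin k, HasCycle (fun e : Pair n => f e.1) c := by
  obtain ⟨n, rfl⟩ : ∃ m, n = m + 1 := ⟨n - 1, by omega⟩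
  have hrot : ∀ i : Fin (n + 1), (finRotate (n + 1) i : ℕ) = if i.1 = n then 0 else i.1 + 1 := by
    intro i
    rw [finRotate_apply, Fin.val_add_one]
    simp [Fin.ext_iff]
  refine forall_congr' fun c => ⟨?_, ?_⟩
  · rintro ⟨x, h1, h2, h3⟩
    have hinj : Function.Injective fun i : Fin (n + 1) => x i := fun i j h =>
      Fin.ext (h1 i i.2 j j.2 h)
    have hx : ∀ i : Fin (n + 1), x (finRotate (n + 1) i) = x (i + 1) := by
      intro i
      rw [hrot]
      split_ifs with a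
      · rw [a, h2]
      · rfl
    refine ⟨Equiv.ofBijective _ (Finite.injective_iff_bijective.1 hinj), fun i => ⟨?_, ?_⟩⟩
    · rw [Sym2.mk_isDiag_iff]
      intro h
      have := congrArg Fin.val ((Equiv.injective _) h)
      rw [hrot] at this
      split_ifs at this <;> omega
    · have := h3 i i.2
      simp only [ext, i.2, dite_true] at this
      simpa only [Equiv.ofBijective_apply, hx] using this
  · rintro ⟨x, hx⟩
    refine ⟨fun i => x ⟨i % (n + 1), Nat.mod_lt _ (by omega)⟩, fun i hi j hj h => ?_, by simp,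
      fun i hi => ?_⟩
    · have := congrArg Fin.val (x.injective h)
      simpa [Nat.mod_eq_of_lt hi, Nat.mod_eq_of_lt hj] using this
    · obtain ⟨_, h⟩ := hx ⟨i, hi⟩
      have e1 : (⟨i % (n + 1), Nat.mod_lt _ (by omega)⟩ : Fin (n + 1)) = ⟨i, hi⟩ :=
        Fin.ext (Nat.mod_eq_of_lt hi)
      have e2 : (⟨(i + 1) % (n + 1), Nat.mod_lt _ (by omega)⟩ : Fin (n + 1)) =
          finRotate (n + 1) ⟨i, hi⟩ := by
        apply Fin.ext
        rw [hrot]
        dsimp only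
        split_ifs with a
        · rw [a, Nat.mod_self]
        · exact Nat.mod_eq_of_lt (by omega)
      simp only [e1, e2, ext, hi, dite_true]
      exact h

lemma probAll_eq {n k : ℕ} (hn : 3 ≤ n) (c0 : Fin k) {q : ℝ} {α : Fin k → ℝ} (h0 : ∀ i, 0 < α i)
    (h1 : ∑ i, α i = 1) (hq0 : 0 ≤ q) (hq1 : q ≤ 1) :
    probAll n q α =
      Ex (fun _ : Sym2 (Fin n) => wv fun j => q * α j) (fun f => one (All c0 n f)) := by
  have a1 : ∑ j, q * α j = q := by rw [← Finset.mul_sum, h1, mul_one]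
  have hD : IsD (wv fun j => q * α j) :=
    isD_wv (fun j => mul_nonneg hq0 (h0 j).le) (by rw [a1]; exact hq1)
  have a2 : (wv fun j => q * α j) = pairLaw q α := by
    funext o
    cases o with
    | none => simp only [wv, Option.elim, a1, pairLaw]
    | some j => rfl
  simp_rw [all_iff hn]
  rw [Ex_subtype hD (fun e : Sym2 (Fin n) => ¬ e.IsDiag)
    (fun f => one (∀ c : Fin n → Fin k, HasCycle f c)), a2]
  unfold probAll Ex one
  convert rfl

theorem main (k : ℕ) (α : Fin k → ℝ) (h0 : ∀ i, 0 < α i) (h1 : ∑ i, α i = 1) (ω : ℕ → ℝ)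
    (hq : ∀ᶠ n : ℕ in atTop, 0 ≤ (⨅ i, α i)⁻¹ * ((Real.log n + ω n) / n) ∧
      (⨅ i, α i)⁻¹ * ((Real.log n + ω n) / n) ≤ 1) :
    Tendsto (fun n : ℕ => probAll n ((⨅ i, α i)⁻¹ * ((Real.log n + ω n) / n)) α) atTop (𝓝 1) ↔
      Tendsto (fun n : ℕ => ω n - Real.log (Real.log n)) atTop atTop := by
  have : Nonempty (Fin k) := by
    rcases isEmpty_or_nonempty (Fin k) with h | h
    · simp at h1
    · exact h
  obtain ⟨j0, hj0⟩ := exists_eq_ciInf_of_finite (f := α)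
  have hle : ∀ j, α j0 ≤ α j := fun j => hj0 ▸ ciInf_le (Finite.bddBelow_range α) j
  rw [← hj0] at hq ⊢
  have ha := h0 j0
  obtain ⟨r, hr⟩ : ∃ r : ℕ → Fin k → ℝ,
      r = fun (n : ℕ) j => (α j0)⁻¹ * ((Real.log n + ω n) / n) * α j := ⟨_, rfl⟩
  have e1 : ∀ᶠ n : ℕ in atTop, probAll n ((α j0)⁻¹ * ((Real.log n + ω n) / n)) α =
      Ex (fun _ : Sym2 (Fin n) => wv (r n)) (fun f => one (All j0 n f)) := by
    filter_upwards [hq, eventually_ge_atTop 3] with n a1 a2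
    rw [hr]; exact probAll_eq a2 j0 h0 h1 a1.1 a1.2
  have e2 : ∀ᶠ n : ℕ in atTop, (∀ j, 0 ≤ r n j) ∧ ∑ j, r n j ≤ 1 ∧
      r n j0 = (Real.log n + ω n) / n ∧ ∀ j, r n j0 ≤ r n j := by
    filter_upwards [hq] with n a1
    rw [hr]
    refine ⟨fun j => mul_nonneg a1.1 (h0 j).le, ?_, ?_, fun j => ?_⟩
    · rw [← Finset.mul_sum, h1, mul_one]; exact a1.2
    · dsimp only; field_simp
    · exact mul_le_mul_of_nonneg_left (hle j) a1.1
  rw [tendsto_congr' e1]
  constructor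
  · exact neg_limit j0 j0 (e2.mono fun n a => ⟨a.1, a.2.1, a.2.2.1⟩)
  · intro hω
    have a1 := (pos_limit j0 hω (r := r)
      (e2.mono fun n a => ⟨fun j => a.2.2.1 ▸ a.2.2.2 j, a.2.1⟩)).const_sub 1
    rw [sub_zero] at a1
    refine a1.congr' (e2.mono fun n a => ?_)
    have hD := isD_wv a.1 a.2.1
    simp only [one_not]
    rw [Ex_sub, Ex_const fun _ => hD]; ring

end Pool.Agent.Lib.MP_753083_pr
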