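import Pool.Agent.Lib.MP_753083_pr.Asym

set_option autoImplicit false
set_option linter.unusedSectionVars false
open Finset Filter Topology

namespace Pool.Agent.Lib.MP_753083_pr

variable {V K : Type*} [Fintype V] [DecidableEq V] [Fintype K] [DecidableEq K]

def MD2 (x : Sym2 V → Bool) : Prop :=
  ∀ v, ∃ u w, u ≠ w ∧ u ≠ v ∧ w ≠ v ∧ x s(v, u) = true ∧ x s(v, w) = true

def Uq (a : V × V) (x : Sym2 V → Bool) : Prop :=
  x s(a.1, a.2) = true ∧ ∀ w, w ≠ a.1 → w ≠ a.2 → ¬ x s(a.1, w) = true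

lemma All.md2 {c0 : K} {N : ℕ} (hN : Fintype.card V = N) (h3 : 3 ≤ N) {f : Sym2 V → Option K}
    (h : All c0 N f) (j : K) : MD2 (fun e => decide (f e = some j)) := by
  obtain ⟨x, h1, h2, h4⟩ := h (fun _ => j)
  have h5 : ∀ i < N, f s(x i, x (i + 1)) = some j := fun i hi => by
    simpa [ext, hi] using h4 i hi
  have h6 : (range N).image x = univ := by
    apply Finset.eq_univ_of_card
    rw [Finset.card_image_of_injOn, Finset.card_range, hN]
    intro i hi j hj hij
    simp only [Finset.coe_range, Set.mem_Iio] at hi hj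
    exact h1 i hi j hj hij
  intro v
  obtain ⟨i, hi, rfl⟩ := Finset.mem_image.1 (h6 ▸ Finset.mem_univ v)
  rw [Finset.mem_range] at hi
  have h7 : ∃ i' < N, i' ≠ i ∧ f s(x i, x i') = some j ∧ (i' = i + 1 ∨ (i' = 0 ∧ i + 1 = N)) := by
    by_cases a : i + 1 < N
    · exact ⟨i + 1, a, by omega, h5 i hi, Or.inl rfl⟩
    · have b : i + 1 = N := by omega
      exact ⟨0, by omega, by omega, by rw [← h2, ← b]; exact h5 i hi, Or.inr ⟨rfl, b⟩⟩
  have h8 : ∃ i' < N, i' ≠ i ∧ f s(x i, x i') = some j ∧ (i = i' + 1 ∨ (i = 0 ∧ i' + 1 = N)) := by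
    by_cases a : i = 0
    · refine ⟨N - 1, by omega, by omega, ?_, Or.inr ⟨a, by omega⟩⟩
      have := h5 (N - 1) (by omega)
      rwa [show N - 1 + 1 = N by omega, h2, Sym2.eq_swap, ← a] at this
    · refine ⟨i - 1, by omega, by omega, ?_, Or.inl (by omega)⟩
      have := h5 (i - 1) (by omega)
      rwa [show i - 1 + 1 = i by omega, Sym2.eq_swap] at this
  obtain ⟨a, a1, a2, a3, a4⟩ := h7
  obtain ⟨b, b1, b2, b3, b4⟩ := h8
  exact ⟨x a, x b, fun h => by have := h1 a a1 b b1 h; omega, fun h => a2 (h1 a a1 i hi h),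
    fun h => b2 (h1 b b1 i hi h), by simpa using a3, by simpa using b3⟩

lemma sum_wb_true (p : ℝ) : ∑ s, wb p s * one (s = true) = p := by simp [one_pos, one_neg, wb]

lemma P_Uq2 {p : ℝ} (h0 : 0 ≤ p) (h1 : p ≤ 1) {a b : V × V} (g1 : a.1 ≠ b.1) (g2 : a.2 ≠ b.1)
    (g3 : b.2 ≠ a.1) :
    Ex (fun _ : Sym2 V => wb p) (fun x => one (Uq a x ∧ Uq b x)) ≤
      (p * (1 - p) ^ (Fintype.card V - 4)) ^ 2 := by
  have hD := isD_wb h0 h1
  obtain ⟨v, u⟩ := a
  obtain ⟨v', u'⟩ := b
  dsimp only at g1 g2 g3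
  obtain ⟨T, hT⟩ : ∃ T : Finset V, T = univ \ {v, v', u, u'} := ⟨_, rfl⟩
  have hT1 : ∀ w ∈ T, w ≠ v ∧ w ≠ v' ∧ w ≠ u ∧ w ≠ u' := by
    intro w hw; simpa [hT, not_or] using hw
  have hT2 : Fintype.card V - 4 ≤ T.card := by
    have a1 := Finset.le_card_sdiff ({v, v', u, u'} : Finset V) univ
    have a2 : ({v, v', u, u'} : Finset V).card ≤ 4 := Finset.card_le_four
    rw [Finset.card_univ] at a1
    rw [hT]; omega
  have d1 : ∀ z, Disjoint ({s(v, u), s(v', u')} : Finset (Sym2 V)) (star z T) := by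
    intro z
    rw [Finset.disjoint_left]
    intro e he he'
    obtain ⟨w, hw, rfl⟩ := Finset.mem_image.1 he'
    obtain ⟨a1, a2, a3, a4⟩ := hT1 w hw
    simp [a1, a2, a3, a4] at he
  have d2 : Disjoint (star v T) (star v' T) := by
    rw [Finset.disjoint_left]
    intro e he he'
    obtain ⟨w, -, rfl⟩ := Finset.mem_image.1 he
    obtain ⟨w', hw', a⟩ := Finset.mem_image.1 he'
    rcases Sym2.eq_iff.1 a with a | a
    · exact g1 a.1.symm
    · exact (hT1 w' hw').1 a.2
  have key := Ex_three hD (d1 v) (d1 v') d2 (fun s => one (s = true)) (fun s => one (¬ s = true))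
    (fun s => one (¬ s = true))
  rw [sum_one_not hD, sum_wb_true, card_star, card_star, Finset.card_pair (by
    intro h
    rcases Sym2.eq_iff.1 h with a | a
    · exact g1 a.1
    · exact g3 a.1.symm)] at key
  calc _ ≤ Ex (fun _ : Sym2 V => wb p) (fun x =>
        (∏ e ∈ ({s(v, u), s(v', u')} : Finset (Sym2 V)), one (x e = true)) *
        (∏ e ∈ star v T, one (¬ x e = true)) * ∏ e ∈ star v' T, one (¬ x e = true)) := by
        refine Ex_mono (fun _ => hD) fun x => ?_
        rw [prod_star, prod_star, ← one_forall, ← one_forall, ← one_forall, ← one_and, ← one_and]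
        refine one_mono fun hx => ⟨⟨?_, fun w hw => hx.1.2 w (hT1 w hw).1 (hT1 w hw).2.2.1⟩,
          fun w hw => hx.2.2 w (hT1 w hw).2.1 (hT1 w hw).2.2.2⟩
        intro e he
        rcases Finset.mem_insert.1 he with rfl | he
        · exact hx.1.1
        · rw [Finset.mem_singleton.1 he]; exact hx.2.1
    _ ≤ _ := by
        rw [key]
        have a0 : 0 ≤ 1 - p := by linarith
        have a1 : (1 - p) ^ T.card ≤ (1 - p) ^ (Fintype.card V - 4) :=
          pow_le_pow_of_le_one a0 (by linarith) hT2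
        calc _ ≤ p ^ 2 * (1 - p) ^ (Fintype.card V - 4) * (1 - p) ^ (Fintype.card V - 4) := by gcongr
          _ = _ := by ring

lemma P_md2 {p θ : ℝ} (h0 : 0 ≤ p) (h1 : p ≤ 1) :
    Ex (fun _ : Sym2 V => wb p) (fun x => one (MD2 x)) ≤
      1 - 2 * θ * ((Fintype.card V * Fintype.card V - Fintype.card V : ℕ) *
        (p * (1 - p) ^ (Fintype.card V - 2))) +
      θ ^ 2 * (2 * (Fintype.card V ^ 2 * (p * (1 - p) ^ (Fintype.card V - 4))) +
        (Fintype.card V ^ 2 * (p * (1 - p) ^ (Fintype.card V - 4))) ^ 2) := by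
  have hD := isD_wb h0 h1
  have hh : ∀ _ : Sym2 V, IsD (wb p) := fun _ => hD
  obtain ⟨O, hO⟩ : ∃ O, O = (univ : Finset V).offDiag := ⟨_, rfl⟩
  have hO1 : ∀ a ∈ O, a.2 ≠ a.1 := fun a ha => by
    rw [hO, Finset.mem_offDiag] at ha; exact ha.2.2.symm
  have hO2 : O.card = Fintype.card V * Fintype.card V - Fintype.card V := by
    rw [hO, Finset.offDiag_card, Finset.card_univ]
  have hO3 : (O.card : ℝ) ≤ Fintype.card V ^ 2 := by
    rw [hO2, pow_two]; exact_mod_cast Nat.sub_le _ _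
  have e1 : ∀ a ∈ O, Ex (fun _ : Sym2 V => wb p) (fun x => one (Uq a x)) =
      p * (1 - p) ^ (Fintype.card V - 2) := fun a ha =>
    P_uniq hD (fun s => s = true) (sum_wb_true p) (hO1 a ha)
  have a0 : 0 ≤ 1 - p := by linarith
  obtain ⟨y, hy⟩ : ∃ y, y = p * (1 - p) ^ (Fintype.card V - 4) := ⟨_, rfl⟩
  have hy0 : 0 ≤ y := by rw [hy]; positivity
  have e2 : p * (1 - p) ^ (Fintype.card V - 2) ≤ y := by
    rw [hy]
    exact mul_le_mul_of_nonneg_left (pow_le_pow_of_le_one a0 (by linarith) (by omega)) h0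
  have e3 : ∀ a ∈ O, ∀ b ∈ O, Ex (fun _ : Sym2 V => wb p) (fun x => one (Uq a x) * one (Uq b x)) ≤
      (if b = a then y else 0) + (if b = a.swap then y else 0) + y ^ 2 := by
    intro a ha b hb
    simp_rw [← one_and]
    have f1 : Ex (fun _ : Sym2 V => wb p) (fun x => one (Uq a x ∧ Uq b x)) ≤ y :=
      (Ex_mono hh fun x => one_mono And.left).trans ((e1 a ha).le.trans e2)
    have f2 : 0 ≤ y ^ 2 := by positivity
    split_ifs with c1 c2 c2
    · linarith
    · linarith
    · linarith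
    · rw [zero_add, zero_add]
      by_cases g : a.1 ≠ b.1 ∧ a.2 ≠ b.1 ∧ b.2 ≠ a.1
      · rw [hy]; exact P_Uq2 h0 h1 g.1 g.2.1 g.2.2
      · refine Ex_le_const hh fun x => one_le_of f2 fun hx => absurd ?_ g
        have k1 : a.1 ≠ b.1 := by
          intro k
          by_cases k' : a.2 = b.2
          · exact c1 (Prod.ext k k').symm
          · exact hx.2.2 a.2 (k ▸ hO1 a ha) k' (k ▸ hx.1.1)
        have k2 : a.2 = b.1 → b.2 = a.1 := by
          intro k
          by_contra k'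
          exact hx.2.2 a.1 k1 (Ne.symm k') (by rw [← k, Sym2.eq_swap]; exact hx.1.1)
        have k3 : b.2 = a.1 → a.2 = b.1 := by
          intro k
          by_contra k'
          exact hx.1.2 b.1 k1.symm (Ne.symm k') (by rw [← k, Sym2.eq_swap]; exact hx.2.1)
        exact ⟨k1, fun k => c2 (Prod.ext k.symm (k2 k)), fun k => c2 (Prod.ext (k3 k).symm k)⟩
  calc _ ≤ Ex (fun _ : Sym2 V => wb p) (fun x => 1 - 2 * θ * ∑ a ∈ O, one (Uq a x) +
        θ ^ 2 * ∑ a ∈ O, ∑ b ∈ O, one (Uq a x) * one (Uq b x)) := by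
        refine Ex_mono hh fun x => ?_
        rw [← Finset.sum_mul_sum]
        refine one_le_of (by nlinarith [sq_nonneg (1 - θ * ∑ a ∈ O, one (Uq a x))]) fun hx => ?_
        rw [Finset.sum_eq_zero fun a ha => one_neg fun h => ?_]
        · norm_num
        · obtain ⟨u, w, b1, b2, b3, b4, b5⟩ := hx a.1
          by_cases k : u = a.2
          · exact h.2 w b3 (k ▸ b1.symm) b5
          · exact h.2 u b2 k b4
    _ ≤ _ := by
        rw [Ex_add, Ex_sub, Ex_const hh, Ex_const_mul, Ex_const_mul, Ex_sum, Ex_sum,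
          Finset.sum_congr rfl e1, Finset.sum_const, nsmul_eq_mul, hO2, ← hy]
        refine add_le_add le_rfl (mul_le_mul_of_nonneg_left ?_ (by positivity))
        refine (Finset.sum_le_card_nsmul _ _ (2 * y + Fintype.card V ^ 2 * y ^ 2)
          fun a ha => ?_).trans ?_
        · rw [Ex_sum]
          refine (Finset.sum_le_sum fun b hb => e3 a ha b hb).trans ?_
          rw [Finset.sum_add_distrib, Finset.sum_add_distrib, Finset.sum_ite_eq', Finset.sum_ite_eq',
            Finset.sum_const, nsmul_eq_mul]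
          have : (O.card : ℝ) * y ^ 2 ≤ Fintype.card V ^ 2 * y ^ 2 := by gcongr
          split_ifs <;> linarith
        · rw [nsmul_eq_mul]
          calc _ ≤ Fintype.card V ^ 2 * (2 * y + Fintype.card V ^ 2 * y ^ 2) := by gcongr
            _ = _ := by ring

lemma P_all_le (c0 : K) {N : ℕ} (hN : Fintype.card V = N) (h3 : 3 ≤ N) {r : K → ℝ}
    (h0 : ∀ j, 0 ≤ r j) (h1 : ∑ j, r j ≤ 1) (j0 : K) {p : ℝ} (hp : r j0 ≤ p) (hp1 : p ≤ 1) :
    Ex (fun _ : Sym2 V => wv r) (fun f => one (All c0 N f)) ≤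
      Ex (fun _ : Sym2 V => wb p) (fun x => one (MD2 x)) := by
  have hD := isD_wv h0 h1
  refine (Ex_mono (fun _ => hD) fun f => one_mono fun h => h.md2 hN h3 j0).trans ?_
  refine hybrid hD (isD_wb ((h0 j0).trans hp) hp1) (fun _ o => decide (o = some j0)) (fun _ b => b)
    (fun x => one (MD2 x)) fun e x => ?_
  have a1 : one (MD2 (Function.update x e false)) ≤ one (MD2 (Function.update x e true)) := by
    refine one_mono fun h v => ?_
    obtain ⟨u, w, b1, b2, b3, b4, b5⟩ := h v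
    have : ∀ e', Function.update x e false e' = true → Function.update x e true e' = true := by
      intro e' he'
      by_cases k : e' = e
      · rw [k, Function.update_self]
      · rwa [Function.update_of_ne k] at he' ⊢
    exact ⟨u, w, b1, b2, b3, this _ b4, this _ b5⟩
  obtain ⟨A, hA⟩ : ∃ A, A = one (MD2 (Function.update x e false)) := ⟨_, rfl⟩
  obtain ⟨B, hB⟩ : ∃ B, B = one (MD2 (Function.update x e true)) := ⟨_, rfl⟩
  have a2 : ∀ o : Option K, one (MD2 (Function.update x e (decide (o = some j0)))) =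
      A + if o = some j0 then B - A else 0 := by
    intro o
    split_ifs with k
    · simp [k, hB]
    · simp [k, hA]
  simp only [a2, mul_add, Finset.sum_add_distrib, ← Finset.sum_mul, hD.2, mul_ite, mul_zero,
    Finset.sum_ite_eq', Finset.mem_univ, if_true, Fintype.sum_bool, wb, ← hA, ← hB]
  rw [← hA, ← hB] at a1
  simp only [wv, Option.elim, Bool.false_eq_true, if_false]
  nlinarith [mul_nonneg (sub_nonneg.2 hp) (sub_nonneg.2 a1)]

lemma neg_real {n : ℕ} {l M p : ℝ} (hn : 4 ≤ n) (hl : (n : ℝ) = Real.exp l) (hl1 : 1 ≤ l)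
    (hM0 : 0 ≤ M) (hM : M ≤ l) (hp : p * n = l + Real.log l + M) (hl2 : 36 * l ^ 2 ≤ n) :
    Ex (fun _ : Sym2 (Fin n) => wb p) (fun x => one (MD2 x)) ≤
      1 - (Real.exp (-M - 1) / 2) ^ 2 / 99 ∧ p ≤ 1 := by
  have hn' : (4 : ℝ) ≤ n := by exact_mod_cast hn
  have c1 : Real.log l ≤ l := (Real.log_le_sub_one_of_pos (by linarith)).trans (by linarith)
  have c2 : 0 ≤ Real.log l := Real.log_nonneg hl1
  have c3 : l ≤ p * n := by linarith
  have c4 : p * n ≤ 3 * l := by linarith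
  have p0 : 0 ≤ p := by
    by_contra h
    nlinarith
  have p1 : p ≤ 1 / 4 := by
    by_contra h
    nlinarith
  have p2 : p * n * p ≤ 1 / 4 := by
    have : p * n * (p * n) ≤ 3 * l * (3 * l) := by gcongr
    nlinarith
  have a0 : 0 ≤ 1 - p := by linarith
  have a4 : Real.exp (-(p * n)) * (n * l) = Real.exp (-M) := by
    rw [show -(p * n) = -M + (-l + -Real.log l) by linarith, Real.exp_add,
      Real.exp_add, Real.exp_neg l, Real.exp_neg (Real.log l), Real.exp_log (by linarith), hl]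
    field_simp
  have u1 : (n : ℝ) ^ 2 * (p * (1 - p) ^ (n - 4)) ≤ 9 := by
    have b1 : (1 - p) ^ (n - 4) ≤ Real.exp (-(p * (n - 4))) :=
      pow_le_exp a0 le_rfl p0 (by rw [Nat.cast_sub hn]; norm_num)
    have b2 : Real.exp (-(p * (n - 4))) ≤ 3 * Real.exp (-(p * n)) := by
      rw [show -(p * (n - 4)) = 4 * p + -(p * n) by ring, Real.exp_add]
      gcongr
      exact (Real.exp_le_exp.2 (by linarith)).trans exp_one_le
    have b3 : Real.exp (-M) ≤ 1 := Real.exp_le_one_iff.2 (by linarith)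
    calc _ = n * (p * n) * (1 - p) ^ (n - 4) := by ring
      _ ≤ n * (3 * l) * (3 * Real.exp (-(p * n))) := by gcongr; exact b1.trans b2
      _ = 9 * (Real.exp (-(p * n)) * (n * l)) := by ring
      _ ≤ 9 := by rw [a4]; linarith
  have u2 : Real.exp (-M - 1) / 2 ≤ (n * n - n : ℕ) * (p * (1 - p) ^ (n - 2)) := by
    have b1 : Real.exp (-(p + 2 * p ^ 2)) ≤ 1 - p := by
      rw [Real.exp_neg, inv_le_comm₀ (Real.exp_pos _) (by linarith)]
      refine le_trans ?_ (Real.add_one_le_exp _)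
      rw [inv_le_iff_one_le_mul₀ (by linarith)]
      nlinarith [mul_nonneg (sq_nonneg p) (show 0 ≤ 1 - 2 * p by linarith)]
    have b2 : Real.exp (-(p * n)) * Real.exp (-1) ≤ (1 - p) ^ (n - 2) := by
      calc _ ≤ Real.exp (-(p + 2 * p ^ 2)) ^ n := by
            rw [← Real.exp_nat_mul, ← Real.exp_add]
            apply Real.exp_le_exp.2
            nlinarith
        _ ≤ (1 - p) ^ n := by gcongr
        _ ≤ _ := pow_le_pow_of_le_one a0 (by linarith) (by omega)
    have b3 : (n : ℝ) * n / 2 ≤ (n * n - n : ℕ) := by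
      rw [Nat.cast_sub (Nat.le_mul_self n)]; push_cast; nlinarith
    calc _ = Real.exp (-(p * n)) * (n * l) * Real.exp (-1) / 2 := by
          rw [a4, ← Real.exp_add]; rfl
      _ ≤ Real.exp (-(p * n)) * (n * (p * n)) * Real.exp (-1) / 2 := by gcongr
      _ = n * n / 2 * (p * (Real.exp (-(p * n)) * Real.exp (-1))) := by ring
      _ ≤ _ := by gcongr
  refine ⟨?_, by linarith⟩
  obtain ⟨a, ha⟩ : ∃ a, a = Real.exp (-M - 1) / 2 := ⟨_, rfl⟩
  have ha0 : 0 ≤ a := by rw [ha]; positivity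
  rw [← ha] at u2 ⊢
  refine (P_md2 (θ := a / 99) p0 (by linarith)).trans ?_
  rw [Fintype.card_fin]
  have v1 : 2 * ((n : ℝ) ^ 2 * (p * (1 - p) ^ (n - 4))) +
      ((n : ℝ) ^ 2 * (p * (1 - p) ^ (n - 4))) ^ 2 ≤ 2 * 9 + 9 ^ 2 := by gcongr
  have v2 := mul_le_mul_of_nonneg_left v1 (sq_nonneg (a / 99))
  have v3 := mul_le_mul_of_nonneg_left u2 (show 0 ≤ 2 * (a / 99) by positivity)
  nlinarith

end Pool.Agent.Lib.MP_753083_pr
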