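import Pool.Agent.Lib.MP_753083_pr.Fin

set_option autoImplicit false
set_option linter.unusedSectionVars false
open Finset

namespace Pool.Agent.Lib.MP_753083_pr

lemma nat_params {k n t C m1 m' : ℕ} (hk : 1 ≤ k) (hC : C = 2000 * (k + 3))
    (ht1 : 2 ^ (4800 * C) ≤ t) (hn1 : t ^ 30 ≤ n) (hn2 : n ≤ 2 ^ (3 * t ^ 10))
    (ht2 : 10 ^ 6 * C ^ 2 ≤ t)
    (hm1 : m1 = n / t ^ 4 + 1) (hm' : m' = C * n / t ^ 10 + 1) :
    (n ≤ t ^ 4 * m1 ∧ t ^ 4 * m1 ≤ 2 * n ∧ C * n ≤ t ^ 10 * m' ∧ t ^ 10 * m' ≤ 2 * C * n) ∧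
    40 * (m' * n / 80 + n * t ^ 11) ≤ m' * n ∧
    ∃ hh, Num n k (n - n / 10) (n / 10) (6 * t) t t (t ^ 8) (28 * t ^ 9) m1 m' hh (n / 20) (n / 2)
      (n / 400) (n * t ^ 11) (n ^ 2 / 10 ^ 6) := by
  have hC1 : 8000 ≤ C := by omega
  have hC2 : C ≤ C ^ 2 := by nlinarith
  have ht3 : 10 ^ 6 * C ≤ t := by omega
  have ht0 : 0 < t := by omega
  have p1 : ∀ i j : ℕ, i ≤ j → t ^ i ≤ t ^ j := fun i j h => Nat.pow_le_pow_right ht0 h
  have p2 : ∀ i, i ≤ 30 → t ^ i ≤ n := fun i h => (p1 i 30 h).trans hn1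
  have htn : t ≤ n := by simpa using p2 1 (by omega)
  have a1 : n < t ^ 4 * m1 := by rw [hm1]; exact Nat.lt_mul_div_succ n (by positivity)
  have a2 : t ^ 4 * m1 ≤ 2 * n := by
    rw [hm1, mul_add, mul_one]
    have := Nat.mul_div_le n (t ^ 4)
    have := p2 4 (by omega)
    omega
  have a3 : C * n < t ^ 10 * m' := by rw [hm']; exact Nat.lt_mul_div_succ _ (by positivity)
  have a4 : t ^ 10 * m' ≤ 2 * C * n := by
    rw [hm', mul_add, mul_one]
    have := Nat.mul_div_le (C * n) (t ^ 10)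
    have := p2 10 (by omega)
    have : n ≤ C * n := Nat.le_mul_of_pos_left _ (by omega)
    rw [mul_assoc]; omega
  have a5 : t ^ 20 ≤ m' := by
    have : t ^ 10 * t ^ 20 ≤ t ^ 10 * m' := by
      rw [← pow_add]
      have : n ≤ C * n := Nat.le_mul_of_pos_left _ (by omega)
      exact hn1.trans (by omega)
    exact Nat.le_of_mul_le_mul_left this (by positivity)
  have a6 : 80 * t ^ 11 ≤ m' := by
    refine le_trans ?_ a5
    rw [show 20 = 9 + 11 by rfl, pow_add]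
    exact Nat.mul_le_mul_right _ (le_trans (show 80 ≤ t by omega) (by simpa using p1 1 9 (by omega)))
  have a7 : 1000 * C * m' ≤ n := by
    have b1 : t * t ≤ t ^ 10 := by rw [← pow_two]; exact p1 2 10 (by omega)
    have b2 : (2 * C) * (1000 * C) ≤ t * t := Nat.mul_le_mul (by omega) (by omega)
    have b3 : (2 * C) * (1000 * C * m') ≤ (2 * C) * n := by
      calc _ = (2 * C) * (1000 * C) * m' := by ring
        _ ≤ t ^ 10 * m' := Nat.mul_le_mul_right _ (b2.trans b1)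
        _ ≤ _ := a4
    exact Nat.le_of_mul_le_mul_left b3 (by omega)
  have a8 : 1000 * (t ^ 2 * m1) ≤ n := by
    have b1 : 2000 ≤ t ^ 2 := le_trans (show 2000 ≤ t by omega) (by simpa using p1 1 2 (by omega))
    have b2 : 2 * (1000 * (t ^ 2 * m1)) ≤ 2 * n := by
      calc _ = 2000 * (t ^ 2 * m1) := by ring
        _ ≤ t ^ 2 * (t ^ 2 * m1) := Nat.mul_le_mul_right _ b1
        _ = t ^ 4 * m1 := by ring
        _ ≤ _ := a2
    omega
  have a9 : t < m1 := by
    have : t ^ 4 * t < t ^ 4 * m1 := by rw [← pow_succ]; exact (p2 5 (by omega)).trans_lt a1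
    exact Nat.lt_of_mul_lt_mul_left this
  have hex : ∃ hh, m1 ≤ t ^ hh := ⟨m1, (Nat.lt_pow_self (by omega)).le⟩
  obtain ⟨hh, h1, h2⟩ : ∃ hh, m1 ≤ t ^ hh ∧ ∀ j < hh, t ^ j < m1 :=
    ⟨Nat.find hex, Nat.find_spec hex, fun j hj => not_le.1 (Nat.find_min hex hj)⟩
  have h3 : 2 ≤ hh := by
    by_contra h
    have := p1 hh 1 (by omega)
    rw [pow_one] at this
    omega
  have h4 := h2 (hh - 1) (by omega)
  have h5 : t ^ hh ≤ t * m1 := by
    rw [show hh = hh - 1 + 1 by omega, pow_succ, mul_comm]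
    exact Nat.mul_le_mul_left _ h4.le
  have h6 : m1 ≤ t ^ 2 * m1 := Nat.le_mul_of_pos_left _ (by positivity)
  have h7 : 4800 * C * (hh - 1) ≤ 3 * t ^ 10 := by
    have : 2 ^ (4800 * C * (hh - 1)) ≤ 2 ^ (3 * t ^ 10) := by
      rw [pow_mul]
      exact (Nat.pow_le_pow_left ht1 _).trans (h4.le.trans (le_trans (by omega) hn2))
    exact (Nat.pow_le_pow_iff_right (by omega)).1 this
  have h8 : 600 * (m' * hh) ≤ n := by
    have b1 : t ≤ t ^ 10 := by simpa using p1 1 10 (by omega)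
    have b2 : 4800 * C * hh ≤ 4 * t ^ 10 := by
      rw [show hh = hh - 1 + 1 by omega, mul_add]; omega
    have b3 : (8 * C) * (600 * (m' * hh)) ≤ (8 * C) * n := by
      calc _ = (4800 * C * hh) * m' := by ring
        _ ≤ 4 * t ^ 10 * m' := Nat.mul_le_mul_right _ b2
        _ ≤ 4 * (2 * C * n) := by rw [mul_assoc]; exact Nat.mul_le_mul_left _ a4
        _ = _ := by ring
    exact Nat.le_of_mul_le_mul_left b3 (by omega)
  have h9 : 1000 * C * m' = 2000000 * (k * m') + 6000000 * m' := by rw [hC]; ring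
  have h10 : m' ≤ m' * hh := Nat.le_mul_of_pos_right _ (by omega)
  refine ⟨⟨a1.le, a2, a3.le, a4⟩, ?_, hh, ?_, by omega, by omega, by omega, h3, h1,
    hm' ▸ Nat.succ_pos _, ?_, ?_, ?_,
    by omega, ?_, by omega, by omega, ?_⟩
  · have : 80 * t ^ 11 * n ≤ m' * n := Nat.mul_le_mul_right _ a6
    have b : 80 * t ^ 11 * n = 80 * (n * t ^ 11) := by ring
    omega
  · have : t ^ 8 < t ^ 9 := Nat.pow_lt_pow_right (by omega) (by omega)
    have b : 4 * t ^ 8 * (6 * t + 1) = 24 * t ^ 9 + 4 * t ^ 8 := by ring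
    omega
  · have b : (2 * k + 1) * m' = 2 * (k * m') + m' := by ring
    omega
  · have b : 3 * m' * (2 * hh + 3) = 6 * (m' * hh) + 9 * m' := by ring
    omega
  · have b1 : 6 * t * t ^ hh ≤ 6 * (t ^ 2 * m1) := by
      calc _ ≤ 6 * t * (t * m1) := Nat.mul_le_mul_left _ h5
        _ = _ := by ring
    have b2 : 2 * (2 * k * m1) * (6 * t) ≤ 12 * (t ^ 2 * m1) := by
      calc _ = 12 * ((2 * k) * t * m1) := by ring
        _ ≤ 12 * (t * t * m1) := by gcongr; omega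
        _ = _ := by ring
    omega
  · have b : (2 * k + 1) * m' = 2 * (k * m') + m' := by ring
    omega
  · have b1 : n ^ 2 ≤ 250000 * (n / 400) ^ 2 := by
      calc n ^ 2 ≤ (500 * (n / 400)) ^ 2 := Nat.pow_le_pow_left (by omega) _
        _ = _ := by ring
    have b2 : 2000000 * (n * t ^ 11) ≤ n ^ 2 := by
      calc _ = n * (2000000 * t ^ 11) := by ring
        _ ≤ n * (t * t ^ 11) := by gcongr; omega
        _ ≤ n * n := by rw [← pow_succ']; exact Nat.mul_le_mul_left _ (p2 12 (by omega))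
        _ = _ := by ring
    have b3 : n ≤ n * t ^ 11 := Nat.le_mul_of_pos_right _ (by positivity)
    omega

end Pool.Agent.Lib.MP_753083_pr
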