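import Mathlib

set_option autoImplicit false
set_option linter.unusedSectionVars false
open Finset

namespace Pool.Agent.Lib.MP_753083_pr

/- Posa rotations and boosters. -/

variable {V : Type*} [Fintype V] [DecidableEq V]

def IsP (H : V → V → Prop) (S : Finset V) (P : ℕ → V) (L : ℕ) : Prop :=
  (∀ i ≤ L, P i ∈ S) ∧ (∀ i ≤ L, ∀ j ≤ L, P i = P j → i = j) ∧ ∀ i < L, H (P i) (P (i + 1))

def Ham (H : V → V → Prop) (S : Finset V) : Prop :=
  ∃ P, IsP H S P (S.card - 1) ∧ H (P (S.card - 1)) (P 0)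

def rot (P : ℕ → V) (L i : ℕ) : ℕ → V := fun t => if t ≤ i then P t else P (L + i + 1 - t)

def Ad (P : ℕ → V) (L : ℕ) (v x : V) : Prop :=
  ∃ t < L, (P t = v ∧ P (t + 1) = x) ∨ (P t = x ∧ P (t + 1) = v)

open Classical in
noncomputable def Nh (H : V → V → Prop) (S U : Finset V) : Finset V :=
  S.filter fun v => v ∉ U ∧ ∃ u ∈ U, H u v

variable {H H' : V → V → Prop} {S : Finset V} {P : ℕ → V} {L : ℕ}

lemma mem_Nh {U : Finset V} {v : V} : v ∈ Nh H S U ↔ v ∈ S ∧ v ∉ U ∧ ∃ u ∈ U, H u v := by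
  simp [Nh]

lemma IsP.mono (h : IsP H S P L) (hH : ∀ u v, H u v → H' u v) : IsP H' S P L :=
  ⟨h.1, h.2.1, fun i hi => hH _ _ (h.2.2 i hi)⟩

lemma IsP.card_image (h : IsP H S P L) : ((range (L + 1)).image P).card = L + 1 := by
  rw [Finset.card_image_of_injOn, Finset.card_range]
  intro i hi j hj hij
  simp only [Finset.coe_range, Set.mem_Iio] at hi hj
  exact h.2.1 i (by omega) j (by omega) hij

lemma IsP.image_sub (h : IsP H S P L) : (range (L + 1)).image P ⊆ S := by
  intro v hv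
  obtain ⟨i, hi, rfl⟩ := Finset.mem_image.1 hv
  exact h.1 i (by rw [Finset.mem_range] at hi; omega)

lemma IsP.lt_card (h : IsP H S P L) : L < S.card := by
  have := Finset.card_le_card h.image_sub
  rw [h.card_image] at this; omega

lemma IsP.rot (hs : ∀ u v, H u v → H v u) (h : IsP H S P L) {i : ℕ} (hi : i < L)
    (hH : H (P i) (P L)) : IsP H S (rot P L i) L := by
  refine ⟨fun t ht => ?_, fun t ht u hu htu => ?_, fun t ht => ?_⟩
  · unfold MP_753083_pr.rot; split_ifs
    · exact h.1 t ht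
    · exact h.1 _ (by omega)
  · unfold MP_753083_pr.rot at htu; split_ifs at htu
    · exact h.2.1 t ht u hu htu
    · have := h.2.1 t ht _ (by omega) htu; omega
    · have := h.2.1 _ (by omega) u hu htu; omega
    · have := h.2.1 _ (by omega) _ (by omega) htu; omega
  · unfold MP_753083_pr.rot; split_ifs with a b b
    · exact h.2.2 t ht
    · obtain rfl : t = i := by omega
      rwa [show L + t + 1 - (t + 1) = L by omega]
    · omega
    · have := h.2.2 (L + i - t) (by omega)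
      rw [show L + i + 1 - (t + 1) = L + i - t by omega, show L + i + 1 - t = L + i - t + 1 by omega]
      exact hs _ _ this

lemma IsP.rev (hs : ∀ u v, H u v → H v u) (h : IsP H S P L) : IsP H S (fun t => P (L - t)) L := by
  refine ⟨fun t _ => h.1 _ (by omega), fun t ht u hu htu => ?_, fun t ht => ?_⟩
  · have := h.2.1 _ (by omega) _ (by omega) htu; omega
  · have := h.2.2 (L - (t + 1)) (by omega)
    rw [show L - (t + 1) + 1 = L - t by omega] at this
    exact hs _ _ this

lemma IsP.snoc (h : IsP H S P L) {v : V} (hv : v ∈ S) (hP : ∀ i ≤ L, P i ≠ v) (hH : H (P L) v) :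
    IsP H S (fun t => if t ≤ L then P t else v) (L + 1) := by
  refine ⟨fun t ht => ?_, fun t ht u hu htu => ?_, fun t ht => ?_⟩
  · dsimp only; split_ifs with a
    · exact h.1 t a
    · exact hv
  · dsimp only at htu; split_ifs at htu with a b b
    · exact h.2.1 t a u b htu
    · exact absurd htu (hP t a)
    · exact absurd htu.symm (hP u b)
    · omega
  · dsimp only; split_ifs with a b b
    · exact h.2.2 t (by omega)
    · obtain rfl : t = L := by omega
      exact hH
    · omega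
    · omega

lemma posa (hs : ∀ u v, H u v → H v u) (h : IsP H S P L) (hmax : ∀ Q, ¬ IsP H S Q (L + 1))
    {s : ℕ} (hexp : ∀ U ⊆ S, U.Nonempty → U.card ≤ s → 2 * U.card ≤ (Nh H S U).card) :
    ∃ E ⊆ S, s < E.card ∧ ∀ y ∈ E, ∃ Q, IsP H S Q L ∧ Q 0 = P 0 ∧ Q L = y := by
  classical
  let r : (ℕ → V) → (ℕ → V) → Prop := fun Q Q' => ∃ i < L, H (Q i) (Q L) ∧ Q' = rot Q L i
  let E : Finset V := S.filter fun y => ∃ Q, Relation.ReflTransGen r P Q ∧ Q L = y
  have h1 : ∀ Q, Relation.ReflTransGen r P Q → IsP H S Q L ∧ Q 0 = P 0 := by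
    intro Q hQ
    induction hQ with
    | refl => exact ⟨h, rfl⟩
    | tail _ hr ih =>
      obtain ⟨i, hi, hH, rfl⟩ := hr
      exact ⟨ih.1.rot hs hi hH, by simp [rot, ih.2]⟩
  have hE : ∀ Q, Relation.ReflTransGen r P Q → Q L ∈ E := fun Q hQ =>
    Finset.mem_filter.2 ⟨(h1 Q hQ).1.1 L le_rfl, Q, hQ, rfl⟩
  have hnext : ∀ Q, Relation.ReflTransGen r P Q → ∀ i < L, H (Q i) (Q L) → Q (i + 1) ∈ E := by
    intro Q hQ i hi hH
    have := hE _ (hQ.tail ⟨i, hi, hH, rfl⟩)
    simp only [rot] at this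
    rwa [if_neg (by omega), show L + i + 1 - L = i + 1 by omega] at this
  have h2 : ∀ v, v ∉ E → (∀ w ∈ E, ¬ Ad P L v w) → ∀ Q, Relation.ReflTransGen r P Q →
      ∀ x, Ad Q L v x → Ad P L v x := by
    intro v hv hv' Q hQ
    induction hQ with
    | refl => exact fun _ h => h
    | @tail Q1 Q2 hQ1 hr ih =>
      obtain ⟨i, hi, hH, rfl⟩ := hr
      rintro x ⟨t, ht, hx⟩
      simp only [rot] at hx
      by_cases a : t + 1 ≤ i
      · rw [if_pos a, if_pos (by omega)] at hx
        exact ih x ⟨t, ht, hx⟩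
      · by_cases b : t = i
        · subst b
          rw [if_pos le_rfl, if_neg a, show L + t + 1 - (t + 1) = L by omega] at hx
          rcases hx with hx | hx
          · exact absurd (ih _ ⟨t, ht, Or.inl ⟨hx.1, rfl⟩⟩) (hv' _ (hnext Q1 hQ1 t ht hH))
          · exact absurd (hx.2 ▸ hE Q1 hQ1) hv
        · rw [if_neg a, if_neg (by omega), show L + i + 1 - (t + 1) = L + i - t by omega,
            show L + i + 1 - t = L + i - t + 1 by omega] at hx
          exact ih x ⟨L + i - t, by omega, hx.symm.imp And.symm And.symm⟩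
  have h3 : ∀ v ∈ Nh H S E, ∃ w ∈ E, Ad P L v w := by
    intro v hv
    rw [mem_Nh] at hv
    obtain ⟨hvS, hvE, y, hy, hH⟩ := hv
    obtain ⟨Q, hQ, rfl⟩ := (Finset.mem_filter.1 hy).2
    by_contra hcon
    push Not at hcon
    by_cases hvQ : ∃ i ≤ L, Q i = v
    · obtain ⟨i, hi, rfl⟩ := hvQ
      have hiL : i < L := by
        rcases hi.lt_or_eq with a | a
        · exact a
        · subst a; exact absurd hy hvE
      exact hcon _ (hnext Q hQ i hiL (hs _ _ hH))
        (h2 _ hvE hcon Q hQ _ ⟨i, hiL, Or.inl ⟨rfl, rfl⟩⟩)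
    · push Not at hvQ
      exact hmax _ ((h1 Q hQ).1.snoc hvS hvQ hH)
  refine ⟨E, Finset.filter_subset _ _, ?_, fun y hy => ?_⟩
  · by_contra hcon
    have hPL := hE P Relation.ReflTransGen.refl
    have h4 := hexp E (Finset.filter_subset _ _) ⟨_, hPL⟩ (not_lt.1 hcon)
    let I : Finset ℕ := (range (L + 1)).filter fun t => P t ∈ E
    have h5 : I.card ≤ E.card := by
      refine Finset.card_le_card_of_injOn P (fun t ht => (Finset.mem_filter.1 ht).2) ?_
      intro i hi j hj hij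
      have hi' := (Finset.mem_filter.1 (Finset.mem_coe.1 hi)).1
      have hj' := (Finset.mem_filter.1 (Finset.mem_coe.1 hj)).1
      rw [Finset.mem_range] at hi' hj'
      exact h.2.1 i (by omega) j (by omega) hij
    have hLI : L ∈ I := Finset.mem_filter.2 ⟨by simp, hPL⟩
    have h6 : Nh H S E ⊆ (I.image fun t => P (t - 1)) ∪ ((I.erase L).image fun t => P (t + 1)) := by
      intro v hv
      obtain ⟨w, hw, t, ht, hx⟩ := h3 v hv
      rw [Finset.mem_union]
      rcases hx with ⟨rfl, rfl⟩ | ⟨rfl, rfl⟩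
      · exact Or.inl (Finset.mem_image.2 ⟨t + 1,
          Finset.mem_filter.2 ⟨Finset.mem_range.2 (by omega), hw⟩, by simp⟩)
      · exact Or.inr (Finset.mem_image.2 ⟨t, Finset.mem_erase.2 ⟨by omega,
          Finset.mem_filter.2 ⟨Finset.mem_range.2 (by omega), hw⟩⟩, rfl⟩)
    have h7 := (Finset.card_le_card h6).trans (Finset.card_union_le _ _)
    have h8 := Finset.card_image_le (s := I) (f := fun t => P (t - 1))
    have h9 := Finset.card_image_le (s := I.erase L) (f := fun t => P (t + 1))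
    rw [Finset.card_erase_of_mem hLI] at h9
    have h10 := Finset.card_pos.2 ⟨L, hLI⟩
    omega
  · obtain ⟨Q, hQ, rfl⟩ := (Finset.mem_filter.1 hy).2
    exact ⟨Q, (h1 Q hQ).1, (h1 Q hQ).2, rfl⟩

lemma posa2 (hs : ∀ u v, H u v → H v u) (h : IsP H S P L) (hmax : ∀ Q, ¬ IsP H S Q (L + 1))
    {s : ℕ} (hexp : ∀ U ⊆ S, U.Nonempty → U.card ≤ s → 2 * U.card ≤ (Nh H S U).card) :
    ∃ Bo : Finset (V × V), s ^ 2 ≤ Bo.card ∧
      ∀ p ∈ Bo, ∃ Q, IsP H S Q L ∧ Q 0 = p.1 ∧ Q L = p.2 := by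
  classical
  obtain ⟨E, -, h1, h2⟩ := posa hs h hmax hexp
  let Bo : Finset (V × V) := univ.filter fun p => p.1 ∈ E ∧ ∃ Q, IsP H S Q L ∧ Q 0 = p.1 ∧ Q L = p.2
  refine ⟨Bo, ?_, fun p hp => (Finset.mem_filter.1 hp).2.2⟩
  have h3 : Bo.card = ∑ y ∈ E, (Bo.filter fun p => p.1 = y).card :=
    Finset.card_eq_sum_card_fiberwise fun p hp => (Finset.mem_filter.1 (Finset.mem_coe.1 hp)).2.1
  rw [h3]
  refine le_trans ?_ (Finset.card_nsmul_le_sum E _ s fun y hy => ?_)
  · rw [smul_eq_mul, pow_two]; exact Nat.mul_le_mul_right _ h1.le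
  · obtain ⟨Q, hQ, -, rfl⟩ := h2 y hy
    obtain ⟨E', -, h4, h5⟩ := posa hs (hQ.rev hs) hmax hexp
    refine h4.le.trans (Finset.card_le_card_of_injOn (fun w => (Q L, w)) (fun w hw => ?_) ?_)
    · obtain ⟨Q', a1, a2, a3⟩ := h5 w hw
      simp only [Finset.coe_filter, Set.mem_ofPred_eq, Bo, Finset.mem_filter, Finset.mem_univ,
        true_and, and_true]
      exact ⟨hy, Q', a1, by simpa using a2, a3⟩
    · intro w _ w' _ hw
      exact (Prod.mk.inj hw).2

lemma IsP.shift (h : IsP H S P L) (hc : H (P L) (P 0)) {i : ℕ} (hi : i ≤ L) :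
    IsP H S (fun t => if i + t ≤ L then P (i + t) else P (i + t - (L + 1))) L ∧
      H ((fun t => if i + t ≤ L then P (i + t) else P (i + t - (L + 1))) L) (P i) := by
  refine ⟨⟨fun t ht => ?_, fun t ht u hu htu => ?_, fun t ht => ?_⟩, ?_⟩
  · dsimp only; split_ifs with a
    · exact h.1 _ a
    · exact h.1 _ (by omega)
  · dsimp only at htu; split_ifs at htu with a b b
    · have := h.2.1 _ a _ b htu; omega
    · have := h.2.1 _ a _ (by omega) htu; omega
    · have := h.2.1 _ (by omega) _ b htu; omega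
    · have := h.2.1 _ (by omega) _ (by omega) htu; omega
  · dsimp only; split_ifs with a b b
    · exact h.2.2 _ (by omega)
    · rw [show i + t = L by omega, show i + (t + 1) - (L + 1) = 0 by omega]; exact hc
    · omega
    · have := h.2.2 (i + t - (L + 1)) (by omega)
      rwa [show i + t - (L + 1) + 1 = i + (t + 1) - (L + 1) by omega] at this
  · dsimp only; split_ifs with a
    · obtain rfl : i = 0 := by omega
      rw [zero_add]; exact hc
    · have := h.2.2 (i - 1) (by omega)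
      rwa [show i - 1 + 1 = i by omega, show i - 1 = i + L - (L + 1) by omega] at this

lemma close (hs : ∀ u v, H u v → H v u) (h : IsP H S P L) (hc : H (P L) (P 0))
    (hconn : ∀ C ⊆ S, C.Nonempty → C ≠ S → (Nh H S C).Nonempty) :
    Ham H S ∨ ∃ Q, IsP H S Q (L + 1) := by
  by_cases hC : (range (L + 1)).image P = S
  · left
    have := h.card_image
    rw [hC] at this
    refine ⟨P, ?_⟩
    rw [this, Nat.add_sub_cancel]
    exact ⟨h, hc⟩
  · right
    obtain ⟨v, hv⟩ := hconn _ h.image_sub ⟨P 0, Finset.mem_image_of_mem _ (by simp)⟩ hC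
    rw [mem_Nh] at hv
    obtain ⟨hvS, hvC, u, hu, hH⟩ := hv
    obtain ⟨i, hi, rfl⟩ := Finset.mem_image.1 hu
    rw [Finset.mem_range] at hi
    have h1 := ((h.shift hc (i := i) (by omega)).1.rev hs).snoc hvS (fun t ht h2 => hvC (by
      rw [← h2]
      try dsimp only
      split_ifs with a
      · exact Finset.mem_image_of_mem _ (Finset.mem_range.2 (by omega))
      · exact Finset.mem_image_of_mem _ (Finset.mem_range.2 (by omega))))
      (by simpa [show i ≤ L by omega] using hH)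
    exact ⟨_, h1⟩

open Classical in
noncomputable def score (H : V → V → Prop) (S : Finset V) : ℕ :=
  if Ham H S then S.card else Nat.findGreatest (fun L => ∃ P, IsP H S P L) S.card

lemma score_le : score H S ≤ S.card := by
  classical
  unfold score; split_ifs
  · exact le_rfl
  · exact Nat.findGreatest_le _

lemma le_score (h : IsP H S P L) : L ≤ score H S := by
  classical
  unfold score; split_ifs
  · exact h.lt_card.le
  · exact Nat.le_findGreatest (P := fun L => ∃ P, IsP H S P L) h.lt_card.le ⟨P, h⟩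

lemma score_spec (hS : S.Nonempty) (h : ¬ Ham H S) : ∃ P, IsP H S P (score H S) := by
  classical
  obtain ⟨v, hv⟩ := hS
  unfold score
  rw [if_neg h]
  exact Nat.findGreatest_spec (P := fun L => ∃ P, IsP H S P L) (Nat.zero_le _)
    ⟨fun _ => v, fun _ _ => hv, fun i hi j hj _ => by omega, by simp⟩

lemma score_lt (hS : S.Nonempty) (h : ¬ Ham H S) : score H S < S.card := by
  obtain ⟨P, hP⟩ := score_spec hS h
  exact hP.lt_card

lemma score_ham (h : Ham H S) : score H S = S.card := by unfold score; rw [if_pos h]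

lemma Nh_mono (hH : ∀ u v, H u v → H' u v) (U : Finset V) : Nh H S U ⊆ Nh H' S U := by
  intro v hv
  rw [mem_Nh] at hv ⊢
  obtain ⟨h1, h2, u, h3, h4⟩ := hv
  exact ⟨h1, h2, u, h3, hH _ _ h4⟩

def Hf (H : V → V → Prop) (F : Finset (Sym2 V)) (u v : V) : Prop := H u v ∨ s(u, v) ∈ F

lemma boosters (hs : ∀ u v, H u v → H v u) (hS : S.Nonempty) {s : ℕ}
    (hexp : ∀ U ⊆ S, U.Nonempty → U.card ≤ s → 2 * U.card ≤ (Nh H S U).card)
    (hconn : ∀ C ⊆ S, C.Nonempty → C ≠ S → (Nh H S C).Nonempty) (F : Finset (Sym2 V))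
    (hF : score (Hf H F) S < S.card) :
    ∃ Bo : Finset (V × V), s ^ 2 ≤ Bo.card ∧ ∀ p ∈ Bo, p.1 ∈ S ∧ p.2 ∈ S ∧
      score (Hf H F) S < score (Hf H (insert s(p.1, p.2) F)) S := by
  have hsym : ∀ F u v, Hf H F u v → Hf H F v u := fun F u v h =>
    h.imp (hs u v) fun h => by rwa [Sym2.eq_swap]
  have hnH : ¬ Ham (Hf H F) S := fun h => by rw [score_ham h] at hF; omega
  obtain ⟨P, hP⟩ := score_spec hS hnH
  obtain ⟨Bo, h1, h2⟩ := posa2 (hsym F) hP (fun Q hQ => by have := le_score hQ; omega) (s := s)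
    fun U hU hU' hc => (hexp U hU hU' hc).trans
      (Finset.card_le_card (Nh_mono (fun _ _ => Or.inl) U))
  refine ⟨Bo, h1, fun p hp => ?_⟩
  obtain ⟨Q, a1, a2, a3⟩ := h2 p hp
  refine ⟨a2 ▸ a1.1 0 (Nat.zero_le _), a3 ▸ a1.1 _ le_rfl, ?_⟩
  have a4 : IsP (Hf H (insert s(p.1, p.2) F)) S Q (score (Hf H F) S) :=
    a1.mono fun u v h => h.imp id Finset.mem_insert_of_mem
  rcases close (hsym _) a4 (Or.inr (by rw [a2, a3, Sym2.eq_swap]; simp))
    (fun C hC hC' hne => (hconn C hC hC' hne).mono (Nh_mono (fun _ _ => Or.inl) C)) with h | ⟨Q', h⟩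
  · rw [score_ham h]; exact hF
  · exact le_score h

/-- a Hamilton cycle through a vertex of degree two gives a Hamilton path -/
lemma ham_path (hs : ∀ u v, H u v → H v u) (h : Ham H S) {z a b : V} (hz : z ∈ S)
    (h3 : 3 ≤ S.card) (hab : ∀ v, v ≠ z → H z v → v = a ∨ v = b) :
    ∃ R, IsP H (S.erase z) R (S.card - 2) ∧ R 0 = b ∧ R (S.card - 2) = a := by
  obtain ⟨P, hP, hc⟩ := h
  obtain ⟨L, hL⟩ : ∃ L, S.card = L + 2 := ⟨S.card - 2, by omega⟩
  rw [hL, show L + 2 - 1 = L + 1 by omega] at hP hc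
  rw [hL, Nat.add_sub_cancel]
  have him : (range (L + 1 + 1)).image P = S :=
    Finset.eq_of_subset_of_card_le hP.image_sub (by rw [hP.card_image, hL])
  rw [← him] at hz
  obtain ⟨i, hi, rfl⟩ := Finset.mem_image.1 hz
  rw [Finset.mem_range] at hi
  obtain ⟨h1, h2⟩ := hP.shift hc (i := i) (by omega)
  obtain ⟨Q, hQ⟩ : ∃ Q, Q = fun t => if i + t ≤ L + 1 then P (i + t) else P (i + t - (L + 1 + 1)) :=
    ⟨_, rfl⟩
  rw [← hQ] at h1 h2
  have h0 : Q 0 = P i := by rw [hQ]; simp [show i ≤ L + 1 by omega]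
  rw [← h0] at hab h2 ⊢
  have hne : ∀ t ≤ L, Q (t + 1) ≠ Q 0 := fun t ht h => by
    have := h1.2.1 _ (by omega) _ (by omega) h; omega
  have h4 : IsP H (S.erase (Q 0)) (fun t => Q (t + 1)) L := by
    refine ⟨fun t ht => Finset.mem_erase.2 ⟨hne t ht, h1.1 _ (by omega)⟩,
      fun t ht u hu htu => ?_, fun t ht => h1.2.2 _ (by omega)⟩
    have := h1.2.1 _ (by omega) _ (by omega) htu; omega
  have h5 := hab _ (hne 0 (by omega)) (h1.2.2 0 (by omega))
  have h6 := hab _ (hne L le_rfl) (hs _ _ h2)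
  have h7 : Q (0 + 1) ≠ Q (L + 1) := fun h => by
    have := h1.2.1 _ (by omega) _ (by omega) h; omega
  rcases h5 with h5 | h5
  · refine ⟨_, h4.rev hs, ?_, by simpa using h5⟩
    rcases h6 with h6 | h6
    · exact absurd (h5.trans h6.symm) h7
    · simpa using h6
  · refine ⟨_, h4, h5, ?_⟩
    rcases h6 with h6 | h6
    · exact h6
    · exact absurd (h5.trans h6.symm) h7

end Pool.Agent.Lib.MP_753083_pr
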