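import Mathlib

set_option autoImplicit false
set_option linter.unusedSectionVars false
open Finset

namespace Pool.Agent.Lib.MP_753083_pr

/- Finite product probability spaces as explicit sums. -/

variable {ι : Type*} [Fintype ι] [DecidableEq ι]

noncomputable def Ex {σ : Type*} [Fintype σ] (μ : ι → σ → ℝ) (Φ : (ι → σ) → ℝ) : ℝ :=
  ∑ x : ι → σ, (∏ e, μ e (x e)) * Φ x

def IsD {σ : Type*} [Fintype σ] (ν : σ → ℝ) : Prop := (∀ s, 0 ≤ ν s) ∧ ∑ s, ν s = 1

open Classical in
noncomputable def one (P : Prop) : ℝ := if P then 1 else 0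

lemma one_nonneg (P : Prop) : 0 ≤ one P := by unfold one; split_ifs <;> norm_num
lemma one_le (P : Prop) : one P ≤ 1 := by unfold one; split_ifs <;> norm_num
lemma one_pos {P : Prop} (h : P) : one P = 1 := by unfold one; rw [if_pos h]
lemma one_neg {P : Prop} (h : ¬ P) : one P = 0 := by unfold one; rw [if_neg h]
lemma one_mono {P Q : Prop} (h : P → Q) : one P ≤ one Q := by
  by_cases hP : P
  · rw [one_pos hP, one_pos (h hP)]
  · rw [one_neg hP]; exact one_nonneg _
lemma one_le_of {P : Prop} {x : ℝ} (h0 : 0 ≤ x) (h : P → 1 ≤ x) : one P ≤ x := by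
  by_cases hP : P
  · rw [one_pos hP]; exact h hP
  · rw [one_neg hP]; exact h0
lemma one_not (P : Prop) : one (¬ P) = 1 - one P := by
  by_cases hP : P
  · rw [one_pos hP, one_neg (not_not.2 hP)]; norm_num
  · rw [one_neg hP, one_pos hP]; norm_num
lemma one_or_le (P Q : Prop) : one (P ∨ Q) ≤ one P + one Q := by
  apply one_le_of (add_nonneg (one_nonneg _) (one_nonneg _))
  rintro (h | h)
  · rw [one_pos h]; linarith [one_nonneg Q]
  · rw [one_pos h]; linarith [one_nonneg P]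
lemma one_exists_le {κ : Type*} (s : Finset κ) (P : κ → Prop) :
    one (∃ k ∈ s, P k) ≤ ∑ k ∈ s, one (P k) := by
  apply one_le_of (Finset.sum_nonneg fun _ _ => one_nonneg _)
  rintro ⟨k, hk, h⟩
  rw [← one_pos h]
  exact Finset.single_le_sum (f := fun k => one (P k)) (fun _ _ => one_nonneg _) hk
lemma one_congr {P Q : Prop} (h : P ↔ Q) : one P = one Q := by rw [propext h]
lemma one_and (P Q : Prop) : one (P ∧ Q) = one P * one Q := by
  by_cases hP : P
  · rw [one_pos hP, one_mul]; exact one_congr (by tauto)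
  · rw [one_neg hP, zero_mul, one_neg (by tauto)]

section basic
variable {σ : Type*} [Fintype σ]

lemma Ex_prod (μ : ι → σ → ℝ) (φ : ι → σ → ℝ) :
    Ex μ (fun x => ∏ e, φ e (x e)) = ∏ e, ∑ s, μ e s * φ e s := by
  unfold Ex
  simp_rw [← Finset.prod_mul_distrib]
  have := Finset.prod_univ_sum (fun _ : ι => (univ : Finset σ)) (fun e s => μ e s * φ e s)
  rw [Fintype.piFinset_univ] at this
  rw [← this]

lemma Ex_const {μ : ι → σ → ℝ} (h : ∀ e, IsD (μ e)) (c : ℝ) : Ex μ (fun _ => c) = c := by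
  have := Ex_prod μ (fun _ _ => 1)
  simp only [Finset.prod_const_one, mul_one, (h _).2] at this
  unfold Ex at this ⊢
  rw [← Finset.sum_mul]
  simp only [mul_one] at this
  rw [this, one_mul]

lemma Ex_mono {μ : ι → σ → ℝ} (h : ∀ e, IsD (μ e)) {f g : (ι → σ) → ℝ} (hfg : ∀ x, f x ≤ g x) :
    Ex μ f ≤ Ex μ g :=
  Finset.sum_le_sum fun x _ => mul_le_mul_of_nonneg_left (hfg x)
    (Finset.prod_nonneg fun e _ => (h e).1 _)

lemma Ex_nonneg {μ : ι → σ → ℝ} (h : ∀ e, IsD (μ e)) {f : (ι → σ) → ℝ} (hf : ∀ x, 0 ≤ f x) :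
    0 ≤ Ex μ f :=
  Finset.sum_nonneg fun x _ => mul_nonneg (Finset.prod_nonneg fun e _ => (h e).1 _) (hf x)

lemma Ex_le_const {μ : ι → σ → ℝ} (h : ∀ e, IsD (μ e)) {f : (ι → σ) → ℝ} {c : ℝ}
    (hf : ∀ x, f x ≤ c) : Ex μ f ≤ c := by
  rw [← Ex_const h c]; exact Ex_mono h hf

lemma Ex_add (μ : ι → σ → ℝ) (f g : (ι → σ) → ℝ) :
    Ex μ (fun x => f x + g x) = Ex μ f + Ex μ g := by
  unfold Ex; simp_rw [mul_add, Finset.sum_add_distrib]

lemma Ex_sub (μ : ι → σ → ℝ) (f g : (ι → σ) → ℝ) :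
    Ex μ (fun x => f x - g x) = Ex μ f - Ex μ g := by
  unfold Ex; simp_rw [mul_sub, Finset.sum_sub_distrib]

lemma Ex_const_mul (μ : ι → σ → ℝ) (c : ℝ) (f : (ι → σ) → ℝ) :
    Ex μ (fun x => c * f x) = c * Ex μ f := by
  unfold Ex; rw [Finset.mul_sum]; exact Finset.sum_congr rfl fun _ _ => by ring

lemma Ex_sum {κ : Type*} (μ : ι → σ → ℝ) (s : Finset κ) (f : κ → (ι → σ) → ℝ) :
    Ex μ (fun x => ∑ k ∈ s, f k x) = ∑ k ∈ s, Ex μ (f k) := by
  unfold Ex; simp_rw [Finset.mul_sum]; exact Finset.sum_comm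

lemma Ex_exists_le {κ : Type*} {μ : ι → σ → ℝ} (h : ∀ e, IsD (μ e)) (s : Finset κ)
    (P : κ → (ι → σ) → Prop) :
    Ex μ (fun x => one (∃ k ∈ s, P k x)) ≤ ∑ k ∈ s, Ex μ (fun x => one (P k x)) := by
  rw [← Ex_sum]; exact Ex_mono h fun x => one_exists_le s fun k => P k x

lemma Ex_or_le {μ : ι → σ → ℝ} (h : ∀ e, IsD (μ e)) (P Q : (ι → σ) → Prop) :
    Ex μ (fun x => one (P x ∨ Q x)) ≤ Ex μ (fun x => one (P x)) + Ex μ (fun x => one (Q x)) := by
  rw [← Ex_add]; exact Ex_mono h fun x => one_or_le _ _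

lemma Ex_prod_on {μ : ι → σ → ℝ} (h : ∀ e, IsD (μ e)) (A : Finset ι) (φ : ι → σ → ℝ) :
    Ex μ (fun x => ∏ e ∈ A, φ e (x e)) = ∏ e ∈ A, ∑ s, μ e s * φ e s := by
  have := Ex_prod μ (fun e s => if e ∈ A then φ e s else 1)
  simp only [Finset.prod_ite_mem, Finset.univ_inter] at this
  rw [this, ← Finset.prod_ite_mem_eq A]
  refine Finset.prod_congr rfl fun e _ => ?_
  split_ifs
  · rfl
  · simp [(h e).2]

/-- three disjoint blocks -/
lemma Ex_three {ν : σ → ℝ} (h : IsD ν) {A B C : Finset ι} (hAB : Disjoint A B)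
    (hAC : Disjoint A C) (hBC : Disjoint B C) (φ ψ χ : σ → ℝ) :
    Ex (fun _ : ι => ν) (fun x => (∏ e ∈ A, φ (x e)) * (∏ e ∈ B, ψ (x e)) * ∏ e ∈ C, χ (x e)) =
      (∑ s, ν s * φ s) ^ A.card * (∑ s, ν s * ψ s) ^ B.card * (∑ s, ν s * χ s) ^ C.card := by
  have hABC : Disjoint (A ∪ B) C := Finset.disjoint_union_left.2 ⟨hAC, hBC⟩
  have := Ex_prod_on (μ := fun _ : ι => ν) (fun _ => h) (A ∪ B ∪ C)
    (fun e s => if e ∈ A then φ s else if e ∈ B then ψ s else χ s)
  have hB : ∀ e ∈ B, e ∉ A := fun e he => Finset.disjoint_right.1 hAB he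
  have hC : ∀ e ∈ C, e ∉ A := fun e he => Finset.disjoint_right.1 hAC he
  have hC' : ∀ e ∈ C, e ∉ B := fun e he => Finset.disjoint_right.1 hBC he
  simp only [Finset.prod_union hABC, Finset.prod_union hAB] at this
  rw [← Finset.prod_const, ← Finset.prod_const, ← Finset.prod_const]
  convert this using 3
  · congr 1
    · congr 1
      · exact Finset.prod_congr rfl fun e he => by rw [if_pos he]
      · exact Finset.prod_congr rfl fun e he => by rw [if_neg (hB e he), if_pos he]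
    · exact Finset.prod_congr rfl fun e he => by rw [if_neg (hC e he), if_neg (hC' e he)]
  · exact Finset.prod_congr rfl fun e he => by simp only [if_pos he]
  · exact Finset.prod_congr rfl fun e he => by simp only [if_neg (hB e he), if_pos he]
  · rename_i e he
    simp only [if_neg (hC e he), if_neg (hC' e he)]

lemma Ex_two {ν : σ → ℝ} (h : IsD ν) {A B : Finset ι} (hAB : Disjoint A B) (φ ψ : σ → ℝ) :
    Ex (fun _ : ι => ν) (fun x => (∏ e ∈ A, φ (x e)) * (∏ e ∈ B, ψ (x e))) =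
      (∑ s, ν s * φ s) ^ A.card * (∑ s, ν s * ψ s) ^ B.card := by
  have := Ex_three h (C := ∅) hAB (by simp) (by simp) φ ψ φ
  simpa using this

lemma Ex_one {ν : σ → ℝ} (h : IsD ν) (A : Finset ι) (φ : σ → ℝ) :
    Ex (fun _ : ι => ν) (fun x => ∏ e ∈ A, φ (x e)) = (∑ s, ν s * φ s) ^ A.card := by
  rw [Ex_prod_on (fun _ => h) A (fun _ s => φ s), Finset.prod_const]

end basic

section pair
variable {σ τ : Type*} [Fintype σ] [Fintype τ]

lemma IsD.prod {ν : σ → ℝ} {ν' : τ → ℝ} (h : IsD ν) (h' : IsD ν') :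
    IsD (fun s : σ × τ => ν s.1 * ν' s.2) := by
  refine ⟨fun s => mul_nonneg (h.1 _) (h'.1 _), ?_⟩
  rw [Fintype.sum_prod_type, ← Finset.sum_mul_sum, h.2, h'.2, one_mul]

lemma Ex_pair (ν : σ → ℝ) (ν' : τ → ℝ) (Φ : (ι → σ × τ) → ℝ) :
    Ex (fun (_ : ι) (s : σ × τ) => ν s.1 * ν' s.2) Φ =
      Ex (fun _ : ι => ν) (fun a => Ex (fun _ : ι => ν') (fun b => Φ (fun e => (a e, b e)))) := by
  unfold Ex
  simp_rw [Finset.mul_sum]
  rw [← Fintype.sum_prod_type']
  refine Fintype.sum_equiv (Equiv.arrowProdEquivProdArrow ι (fun _ => σ) (fun _ => τ)) _ _ ?_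
  intro x
  simp only [Equiv.arrowProdEquivProdArrow, Equiv.coe_fn_mk, Finset.prod_mul_distrib, mul_assoc]

end pair

section hybrid
variable {ρ : Type*} [Fintype ρ] [DecidableEq ρ]

lemma Ex_split (μ : ι → ρ → ℝ) (e : ι) (Φ : (ι → ρ) → ℝ) :
    Ex μ Φ = ∑ z : {j // j ≠ e} → ρ, (∏ j : {j // j ≠ e}, μ j (z j)) *
      ∑ s, μ e s * Φ ((Equiv.funSplitAt e ρ).symm (s, z)) := by
  unfold Ex
  rw [← (Equiv.funSplitAt e ρ).symm.sum_comp, Fintype.sum_prod_type_right]
  refine Finset.sum_congr rfl fun z _ => ?_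
  rw [Finset.mul_sum]
  refine Finset.sum_congr rfl fun s _ => ?_
  rw [Fintype.prod_eq_mul_prod_subtype_ne _ e]
  have h1 : (Equiv.funSplitAt e ρ).symm (s, z) e = s := by simp
  have h2 : ∀ j : {j // j ≠ e}, (Equiv.funSplitAt e ρ).symm (s, z) j = z j := by
    intro j; simp [j.2]
  simp only [h1, h2]; ring

lemma hybrid_same {μ μ' : ι → ρ → ℝ} (h : ∀ e, IsD (μ e)) (h' : ∀ e, IsD (μ' e))
    (Φ : (ι → ρ) → ℝ)
    (hs : ∀ e x, ∑ s, μ e s * Φ (Function.update x e s) ≤ ∑ s, μ' e s * Φ (Function.update x e s)) :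
    Ex μ Φ ≤ Ex μ' Φ := by
  have key : ∀ A : Finset ι, Ex μ Φ ≤ Ex (fun e => if e ∈ A then μ' e else μ e) Φ := by
    intro A
    induction A using Finset.induction_on with
    | empty => simp
    | insert e A he ih =>
      refine ih.trans ?_
      rw [Ex_split _ e, Ex_split _ e]
      refine Finset.sum_le_sum fun z _ => ?_
      have h1 : ∀ j : {j // j ≠ e}, (if j.1 ∈ insert e A then μ' j else μ j) =
          (if j.1 ∈ A then μ' j else μ j) := by
        intro j; simp [j.2]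
      simp only [h1, if_neg he, Finset.mem_insert_self, if_true]
      refine mul_le_mul_of_nonneg_left ?_ (Finset.prod_nonneg fun j _ => ?_)
      · rcases isEmpty_or_nonempty ρ with hρ | ⟨⟨s0⟩⟩
        · simp
        have h2 : ∀ s, (Equiv.funSplitAt e ρ).symm (s, z) =
            Function.update ((Equiv.funSplitAt e ρ).symm (s0, z)) e s := by
          intro s; funext j
          by_cases hj : j = e
          · subst hj; simp
          · simp [hj]
        have := hs e ((Equiv.funSplitAt e ρ).symm (s0, z))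
        simpa only [← h2] using this
      · split_ifs
        · exact (h' _).1 _
        · exact (h _).1 _
  simpa using key univ

noncomputable def push {σ : Type*} [Fintype σ] (ν : σ → ℝ) (g : σ → ρ) (r : ρ) : ℝ :=
  ∑ s, if g s = r then ν s else 0

lemma sum_push {σ : Type*} [Fintype σ] (ν : σ → ℝ) (g : σ → ρ) (φ : ρ → ℝ) :
    ∑ r, push ν g r * φ r = ∑ s, ν s * φ (g s) := by
  unfold push
  simp_rw [Finset.sum_mul]
  rw [Finset.sum_comm]
  refine Finset.sum_congr rfl fun s _ => ?_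
  simp

lemma IsD.push {σ : Type*} [Fintype σ] {ν : σ → ℝ} (h : IsD ν) (g : σ → ρ) : IsD (push ν g) := by
  refine ⟨fun r => Finset.sum_nonneg fun s _ => ?_, ?_⟩
  · split_ifs
    · exact h.1 s
    · exact le_rfl
  · have := sum_push ν g (fun _ => 1)
    simpa [h.2] using this

lemma Ex_push {σ : Type*} [Fintype σ] (ν : σ → ℝ) (g : ι → σ → ρ) (Φ : (ι → ρ) → ℝ) :
    Ex (fun _ : ι => ν) (fun x => Φ (fun e => g e (x e))) = Ex (fun e => push ν (g e)) Φ := by
  have h1 : ∀ y : ι → ρ, ∏ e, push ν (g e) (y e) =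
      ∑ x : ι → σ, if (fun e => g e (x e)) = y then ∏ e, ν (x e) else 0 := by
    intro y
    unfold push
    have := Finset.prod_univ_sum (fun _ : ι => (univ : Finset σ))
      (fun e s => if g e s = y e then ν s else 0)
    rw [Fintype.piFinset_univ] at this
    rw [this]
    refine Finset.sum_congr rfl fun x _ => ?_
    rw [Finset.prod_ite_zero]
    simp only [Finset.mem_univ, true_imp_iff, funext_iff]
  unfold Ex
  simp_rw [h1, Finset.sum_mul]
  rw [Finset.sum_comm]
  refine Finset.sum_congr rfl fun x _ => ?_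
  simp

/-- coordinatewise comparison of two product spaces -/
lemma hybrid {σ τ : Type*} [Fintype σ] [Fintype τ] {ν : σ → ℝ} {ν' : τ → ℝ} (h : IsD ν)
    (h' : IsD ν') (g : ι → σ → ρ) (g' : ι → τ → ρ) (Φ : (ι → ρ) → ℝ)
    (hs : ∀ e x, ∑ s, ν s * Φ (Function.update x e (g e s)) ≤
      ∑ t, ν' t * Φ (Function.update x e (g' e t))) :
    Ex (fun _ : ι => ν) (fun x => Φ (fun e => g e (x e))) ≤
      Ex (fun _ : ι => ν') (fun x => Φ (fun e => g' e (x e))) := by
  rw [Ex_push, Ex_push]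
  refine hybrid_same (fun e => h.push _) (fun e => h'.push _) Φ fun e x => ?_
  rw [sum_push ν (g e) (fun r => Φ (Function.update x e r)),
    sum_push ν' (g' e) (fun r => Φ (Function.update x e r))]
  exact hs e x

/-- resampling outside a set -/
lemma Ex_merge {ν : ρ → ℝ} (h : IsD ν) (T : ι → Prop) [DecidablePred T] (Φ : (ι → ρ) → ℝ) :
    Ex (fun _ : ι => ν) Φ ≤ Ex (fun _ : ι => ν) (fun b => Ex (fun _ : ι => ν)
      (fun b' => Φ (fun e => if T e then b e else b' e))) := by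
  have := hybrid h (h.prod h) (fun (_ : ι) s => s) (fun e s => if T e then s.1 else s.2) Φ ?_
  · rwa [Ex_pair] at this
  · intro e x
    rw [Fintype.sum_prod_type]
    by_cases hT : T e
    · simp only [if_pos hT]
      refine le_of_eq (Finset.sum_congr rfl fun s _ => ?_)
      rw [← Finset.sum_mul, ← Finset.mul_sum, h.2, mul_one]
    · simp only [if_neg hT]
      rw [Finset.sum_comm]
      refine le_of_eq (Finset.sum_congr rfl fun s _ => ?_)
      rw [← Finset.sum_mul, ← Finset.sum_mul, h.2, one_mul]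

end hybrid

/-- restriction to a subtype of coordinates -/
lemma Ex_subtype {σ : Type*} [Fintype σ] {ν : σ → ℝ} (h : IsD ν) (P : ι → Prop) [DecidablePred P]
    (Φ : ({e // P e} → σ) → ℝ) :
    Ex (fun _ : ι => ν) (fun x => Φ (fun e => x e.1)) = Ex (fun _ : {e // P e} => ν) Φ := by
  have h0 := Ex_const (μ := fun _ : {e // ¬ P e} => ν) (fun _ => h) 1
  unfold Ex at h0 ⊢
  rw [← (Equiv.piEquivPiSubtypeProd P (fun _ => σ)).symm.sum_comp, Fintype.sum_prod_type]
  refine Finset.sum_congr rfl fun y _ => ?_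
  have h1 : ∀ z : {e // ¬ P e} → σ,
      (∏ e, ν ((Equiv.piEquivPiSubtypeProd P (fun _ => σ)).symm (y, z) e)) =
        (∏ e, ν (y e)) * ∏ e, ν (z e) := by
    intro z
    rw [← Fintype.prod_subtype_mul_prod_subtype P]
    congr 1
    · exact Finset.prod_congr rfl fun e _ => by simp [e.2]
    · exact Finset.prod_congr rfl fun e _ => by simp [e.2]
  have h2 : ∀ z : {e // ¬ P e} → σ,
      (fun e : {e // P e} => (Equiv.piEquivPiSubtypeProd P (fun _ => σ)).symm (y, z) e.1) = y := by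
    intro z; funext e; simp [e.2]
  simp only [h1, h2, mul_one] at h0 ⊢
  rw [← Finset.sum_mul, ← Finset.mul_sum, h0, mul_one]

end Pool.Agent.Lib.MP_753083_pr
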