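import Pool.Agent.Lib.MP_753083_pr.FP

set_option autoImplicit false
set_option linter.unusedSectionVars false
open Finset

namespace Pool.Agent.Lib.MP_753083_pr

variable {V K : Type*} [Fintype V] [DecidableEq V] [Fintype K] [DecidableEq K]

def Lb (K : Type*) [Fintype K] (X : Finset V) : Finset (V × K × Bool) :=
  univ.filter fun u => u.1 ∉ X

def Gm (G : V → K → Finset V) (u : V × K × Bool) : Finset V := G u.1 u.2.1

lemma mem_Lb {X : Finset V} {u : V × K × Bool} : u ∈ Lb K X ↔ u.1 ∉ X := by simp [Lb]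

lemma tree {X Z W1 : Finset V} {G : V → K → Finset V} {m D D' T M h : ℕ}
    (hbig : ∀ A ⊆ Lb K X, m ≤ A.card → M ≤ (A.biUnion (Gm G)).card)
    (hW : ∀ v j, G v j ⊆ W1) (hXZ : X ⊆ Z) (hD : D' + T ≤ D) (hD' : 2 ≤ D')
    {par0 : V → Option (V × K × Bool)} (hG : Good (Lb K X) (Gm G) m D par0)
    (hA : ∀ y u, par0 y = some u → u.1 ∈ Z ∨ par0 u.1 ≠ none)
    {r : V} {b : Bool} (hrX : r ∉ X) (hr : r ∈ Z ∨ par0 r ≠ none)
    (hr0 : ∀ y j, par0 y ≠ some (r, j, b)) (hrd : ∀ j, (G r j ∩ Z).card ≤ T)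
    (hdeg : ∀ v ∈ W1, v ∉ Z → par0 v = none → ∀ j, (G v j ∩ Z).card ≤ T)
    (hM : (dom par0).card + D * D' ^ h + 2 * m * D < M) (γ : ℕ → K) :
    ∀ t ≤ h, ∃ (par : V → Option (V × K × Bool)) (Ly : Finset V),
      Good (Lb K X) (Gm G) m D par ∧ (∀ y, par0 y ≠ none → par y = par0 y) ∧
      (∀ y u, par y = some u → u.1 ∈ Z ∨ par u.1 ≠ none) ∧
      (∀ y u, par y = some u → par0 y = some u ∨ u.2.2 = b) ∧
      (dom par).card ≤ (dom par0).card + D * D' ^ t ∧ Ly.card = D' ^ t ∧
      (∀ v ∈ Ly, v ∉ X ∧ (v ∈ Z ∨ par v ≠ none) ∧ (∀ y j, par y ≠ some (v, j, b)) ∧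
        ∀ j, (G v j ∩ Z).card ≤ T) ∧
      ∀ y ∈ Ly, ∃ w : ℕ → V, w 0 = r ∧ w t = y ∧
        (∀ i < t, w (i + 1) ∈ G (w i) (γ i) ∧ par (w (i + 1)) = some (w i, γ i, b) ∧
          par0 (w (i + 1)) = none ∧ w (i + 1) ∉ Z) ∧
        ∀ i < t, ∀ j < t, w (i + 1) = w (j + 1) → i = j := by
  intro t
  induction t with
  | zero =>
    intro _
    refine ⟨par0, {r}, hG, fun _ _ => rfl, hA, fun _ _ h => Or.inl h, by omega, by simp, ?_, ?_⟩
    · intro v hv
      rw [Finset.mem_singleton] at hv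
      subst hv
      exact ⟨hrX, hr, hr0, hrd⟩
    · intro y hy
      rw [Finset.mem_singleton] at hy
      exact ⟨fun _ => r, rfl, hy.symm, by simp, by simp⟩
  | succ t ih =>
    intro ht
    obtain ⟨par, Ly, h1, h2, h3, h4, h5, h6, h7, h8⟩ := ih (by omega)
    have hinj : Function.Injective (fun v : V => (v, γ t, b)) := fun v w h => (Prod.mk.inj h).1
    have hpow : D * D' ^ t + D * D' ^ t ≤ D * D' ^ (t + 1) := by
      rw [pow_succ, ← mul_assoc]; nlinarith [Nat.zero_le (D * D' ^ t)]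
    have hpow2 : D * D' ^ (t + 1) ≤ D * D' ^ h :=
      Nat.mul_le_mul_left _ (Nat.pow_le_pow_right (by omega) ht)
    have hcard : (Ly.image fun v : V => (v, γ t, b)).card = D' ^ t := by
      rw [Finset.card_image_of_injective _ hinj, h6]
    obtain ⟨p, p1, p2, p3, p4, p5⟩ := saturate (M := M) h1 hbig
      (Lab := Ly.image fun v : V => (v, γ t, b))
      (by
        intro u hu
        obtain ⟨v, hv, rfl⟩ := Finset.mem_image.1 hu
        exact mem_Lb.2 (h7 v hv).1)
      (by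
        intro u hu
        obtain ⟨v, hv, rfl⟩ := Finset.mem_image.1 hu
        exact fun y => (h7 v hv).2.2.1 y _)
      (by rw [hcard]; omega)
    rw [hcard] at p4
    let C : Finset V := Ly.biUnion fun v =>
      ((G v (γ t)).filter fun y => p y = some (v, γ t, b)) \ Z
    have hC : D' ^ (t + 1) ≤ C.card := by
      rw [Finset.card_biUnion]
      · rw [pow_succ, ← h6, ← smul_eq_mul]
        refine Finset.card_nsmul_le_sum _ _ _ fun v hv => ?_
        have q1 := p5 (v, γ t, b) (Finset.mem_image_of_mem _ hv)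
        have q2 := (h7 v hv).2.2.2 (γ t)
        have q3 := Finset.card_sdiff_add_card_inter
          ((G v (γ t)).filter fun y => p y = some (v, γ t, b)) Z
        have q4 : (((G v (γ t)).filter fun y => p y = some (v, γ t, b)) ∩ Z).card ≤
            (G v (γ t) ∩ Z).card :=
          Finset.card_le_card (Finset.inter_subset_inter_right (Finset.filter_subset _ _))
        simp only [Gm] at q1
        omega
      · intro v _ w _ hvw
        rw [Function.onFun, Finset.disjoint_left]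
        intro y hy hy'
        simp only [Finset.mem_sdiff, Finset.mem_filter] at hy hy'
        rw [hy.1.2] at hy'
        exact hvw (hinj (Option.some.inj hy'.1.2))
    obtain ⟨Ly', hL1, hL2⟩ := Finset.exists_subset_card_eq hC
    have hmem : ∀ y ∈ Ly', ∃ v ∈ Ly, y ∈ G v (γ t) ∧ p y = some (v, γ t, b) ∧ y ∉ Z ∧
        par y = none := by
      intro y hy
      obtain ⟨v, hv, hy'⟩ := Finset.mem_biUnion.1 (hL1 hy)
      simp only [Finset.mem_sdiff, Finset.mem_filter] at hy'
      refine ⟨v, hv, hy'.1.1, hy'.1.2, hy'.2, ?_⟩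
      by_contra hne
      exact (h7 v hv).2.2.1 y (γ t) (by rw [← p2 y hne]; exact hy'.1.2)
    have hext : ∀ y, par y ≠ none → p y ≠ none := fun y hy => by rw [p2 y hy]; exact hy
    have hpar : ∀ y u, p y = some u → u.1 ∈ Z ∨ par u.1 ≠ none := by
      intro y u hu
      rcases p3 y u hu with h | h
      · exact h3 y u h
      · obtain ⟨v, hv, rfl⟩ := Finset.mem_image.1 h.1
        exact (h7 v hv).2.1
    have h20 : ∀ y, par y = none → par0 y = none := by
      intro y hy
      by_contra hne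
      exact hne (by rw [← h2 y hne]; exact hy)
    refine ⟨p, Ly', p1, fun y hy => ?_, fun y u hu => ?_, fun y u hu => ?_, by omega, hL2,
      fun y hy => ?_, fun y hy => ?_⟩
    · rw [p2 y (by rw [h2 y hy]; exact hy), h2 y hy]
    · exact (hpar y u hu).imp id (hext _)
    · rcases p3 y u hu with h | h
      · exact h4 y u h
      · obtain ⟨v, hv, rfl⟩ := Finset.mem_image.1 h.1
        exact Or.inr rfl
    · obtain ⟨v, hv, q1, q2, q3, q4⟩ := hmem y hy
      refine ⟨fun h => q3 (hXZ h), Or.inr (by rw [q2]; simp), fun z j hz => ?_,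
        hdeg y (hW _ _ q1) q3 (h20 y q4)⟩
      rcases hpar z _ hz with h | h
      · exact q3 h
      · exact h q4
    · obtain ⟨v, hv, q1, q2, q3, q4⟩ := hmem y hy
      obtain ⟨w, w1, w2, w3, w4⟩ := h8 v hv
      refine ⟨fun i => if i ≤ t then w i else y, by simp [w1], by simp, fun i hi => ?_,
        fun i hi j hj hij => ?_⟩
      · have hi' : i ≤ t := by omega
        simp only [if_pos hi']
        by_cases hit : i + 1 ≤ t
        · simp only [if_pos hit]
          obtain ⟨e1, e2, e3, e4⟩ := w3 i (by omega)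
          refine ⟨e1, ?_, e3, e4⟩
          rw [p2 _ (by rw [e2]; simp), e2]
        · simp only [if_neg hit]
          obtain rfl : i = t := by omega
          rw [w2]
          exact ⟨q1, q2, h20 y q4, q3⟩
      · by_cases hit : i + 1 ≤ t
        · by_cases hjt : j + 1 ≤ t
          · simp only [if_pos hit, if_pos hjt] at hij
            exact w4 i (by omega) j (by omega) hij
          · simp only [if_pos hit, if_neg hjt] at hij
            have := (w3 i (by omega)).2.1
            rw [hij, q4] at this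
            simp at this
        · by_cases hjt : j + 1 ≤ t
          · simp only [if_neg hit, if_pos hjt] at hij
            have := (w3 j (by omega)).2.1
            rw [← hij, q4] at this
            simp at this
          · omega

/-- state of the path construction -/
structure St (X W1 : Finset V) (G : V → K → Finset V) (m D : ℕ) (ok : V → V → K → Prop)
    (c : ℕ → K) (Z : Finset V) (q : ℕ → V) (len : ℕ) (par : V → Option (V × K × Bool)) : Prop where
  inj : ∀ i ≤ len, ∀ j ≤ len, q i = q j → i = j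
  ok : ∀ i < len, ok (q i) (q (i + 1)) (c i)
  good : Good (Lb K X) (Gm G) m D par
  cov : ∀ i ≤ len, q i ∈ Z ∨ par (q i) ≠ none
  domq : ∀ y, par y ≠ none → ∃ i ≤ len, q i = y
  ptr : ∀ y u, par y = some u → (∃ i ≤ len, q i = u.1) ∧ (u.2.2 = true → u.1 ≠ q len)
  inW : ∀ i ≤ len, q i ∈ Z ∨ q i ∈ W1
  endX : q len ∉ X

section
variable {X W1 : Finset V} {G : V → K → Finset V} {m D : ℕ} {ok : V → V → K → Prop}
  {c : ℕ → K} {Z : Finset V} {q : ℕ → V} {len : ℕ} {par : V → Option (V × K × Bool)}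

lemma St.mono (h : St X W1 G m D ok c Z q len par) {Z' : Finset V} (hZ : Z ⊆ Z') :
    St X W1 G m D ok c Z' q len par :=
  ⟨h.inj, h.ok, h.good, fun i hi => (h.cov i hi).imp (fun h => hZ h) id, h.domq, h.ptr,
    fun i hi => (h.inW i hi).imp (fun h => hZ h) id, h.endX⟩

lemma St.dom_le (h : St X W1 G m D ok c Z q len par) : (dom par).card ≤ len + 1 := by
  have : dom par ⊆ (range (len + 1)).image q := by
    intro y hy
    obtain ⟨i, hi, rfl⟩ := h.domq y (mem_dom.1 hy)
    exact Finset.mem_image_of_mem _ (Finset.mem_range.2 (by omega))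
  refine (Finset.card_le_card this).trans (Finset.card_image_le.trans (by simp))

lemma St.parA (h : St X W1 G m D ok c Z q len par) :
    ∀ y u, par y = some u → u.1 ∈ Z ∨ par u.1 ≠ none := by
  intro y u hu
  obtain ⟨i, hi, h1⟩ := (h.ptr y u hu).1
  rw [← h1]; exact h.cov i hi

lemma St.block (h : St X W1 G m D ok c Z q len par) {v w : V} (hv : v ∈ Z) (hw : w ∈ Z)
    (hwX : w ∉ X) (hvw : v ≠ w) (hvq : ∀ i ≤ len, q i ≠ v) (hwq : ∀ i ≤ len, q i ≠ w)
    (h1 : ok (q len) v (c len)) (h2 : ok v w (c (len + 1))) :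
    St X W1 G m D ok c Z (fun i => if i ≤ len then q i else if i = len + 1 then v else w)
      (len + 2) par := by
  have e1 : ¬ (len + 2 ≤ len) := by omega
  have e2 : ¬ (len + 2 = len + 1) := by omega
  refine ⟨fun i hi j hj hij => ?_, fun i hi => ?_, h.good, fun i hi => ?_, fun y hy => ?_,
    fun y u hu => ?_, fun i hi => ?_, by simpa using hwX⟩
  · try dsimp only at hij
    split_ifs at hij with a1 a2 a3 a4 a5 a6 a7 a8
    · exact h.inj i a1 j a2 hij
    · exact absurd hij (hvq i a1)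
    · exact absurd hij (hwq i a1)
    · exact absurd hij.symm (hvq j a5)
    · omega
    · exact absurd hij hvw
    · exact absurd hij.symm (hwq j a7)
    · exact absurd hij.symm hvw
    · omega
  · by_cases a1 : i + 1 ≤ len
    · simp only [if_pos a1, if_pos (show i ≤ len by omega)]; exact h.ok i (by omega)
    · by_cases a2 : i = len
      · subst a2; simpa using h1
      · obtain rfl : i = len + 1 := by omega
        simpa using h2
  · try dsimp only
    split_ifs with a1 a2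
    · exact h.cov i a1
    · exact Or.inl hv
    · exact Or.inl hw
  · obtain ⟨i, hi, rfl⟩ := h.domq y hy
    exact ⟨i, by omega, by simp [hi]⟩
  · obtain ⟨i, hi, h3⟩ := (h.ptr y u hu).1
    refine ⟨⟨i, by omega, by simp [hi, h3]⟩, fun _ => ?_⟩
    simp only [if_neg e1, if_neg e2]
    rw [← h3]; exact hwq i hi
  · try dsimp only
    split_ifs with a1 a2
    · exact h.inW i a1
    · exact Or.inl hv
    · exact Or.inl hw

lemma St.conn (h : St X W1 G m D ok c Z q len par) {D' T M hh m1 : ℕ}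
    (hbig : ∀ A ⊆ Lb K X, m ≤ A.card → M ≤ (A.biUnion (Gm G)).card)
    (hW : ∀ v j, G v j ⊆ W1) (hXZ : X ⊆ Z) (hD : D' + T ≤ D) (hD' : 2 ≤ D')
    (hok : ∀ v j, ∀ y ∈ G v j, ok v y j ∧ ok y v j)
    (hjoin : ∀ j (A B : Finset V), Disjoint A B → m1 ≤ A.card → m1 ≤ B.card →
      ∃ x ∈ A, ∃ y ∈ B, ok x y j)
    (hh1 : 1 ≤ hh) (hm1 : m1 ≤ D' ^ hh)
    (hM : len + 1 + 2 * (D * D' ^ hh) + 2 * m * D < M)
    {r : V} (hrZ : r ∈ Z) (hrX : r ∉ X) (hrq : ∀ i ≤ len, q i ≠ r)
    (hud : ∀ j, (G (q len) j ∩ Z).card ≤ T) (hrd : ∀ j, (G r j ∩ Z).card ≤ T)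
    (hdeg : ∀ v ∈ W1, v ∉ Z → par v = none → ∀ j, (G v j ∩ Z).card ≤ T) :
    ∃ q' par', St X W1 G m D ok c Z q' (len + 2 * hh + 1) par' ∧ q' (len + 2 * hh + 1) = r ∧
      (∀ i ≤ len, q' i = q i) ∧ ∀ i, len < i → i ≤ len + 2 * hh → q' i ∉ Z := by
  have hdom := h.dom_le
  obtain ⟨p1, L1, a1, a2, a3, a4, a5, a6, -, a8⟩ := tree (b := true) (h := hh) hbig hW hXZ hD hD'
    h.good h.parA h.endX (h.cov len le_rfl)
    (fun y j hy => (h.ptr y _ hy).2 rfl rfl) hud hdeg (by omega) (fun i => c (len + i)) hh le_rfl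
  have a20 : ∀ y, p1 y = none → par y = none := by
    intro y hy
    by_contra hne
    exact hne (by rw [← a2 y hne]; exact hy)
  obtain ⟨p2, L2, b1, b2, -, -, -, b6, -, b8⟩ := tree (b := false) (h := hh) hbig hW hXZ hD hD'
    a1 a3 hrX (Or.inl hrZ)
    (fun y j hy => by
      rcases a4 y _ hy with h1 | h1
      · obtain ⟨i, hi, h2⟩ := (h.ptr y _ h1).1
        exact hrq i hi h2
      · simp at h1)
    hrd (fun v hv hvZ hp => hdeg v hv hvZ (a20 v hp)) (by omega)
    (fun i => c (len + 2 * hh - i)) hh le_rfl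
  have hdisj : Disjoint L1 L2 := by
    rw [Finset.disjoint_left]
    intro y hy1 hy2
    obtain ⟨w, -, w2, w3, -⟩ := a8 y hy1
    obtain ⟨w', -, w2', w3', -⟩ := b8 y hy2
    have e1 := (w3 (hh - 1) (by omega)).2.1
    have e2 := (w3' (hh - 1) (by omega)).2.2.1
    rw [show hh - 1 + 1 = hh by omega] at e1 e2
    rw [w2] at e1
    rw [w2', e1] at e2
    simp at e2
  obtain ⟨x, hx, y, hy, hxy⟩ := hjoin (c (len + hh)) L1 L2 hdisj (by omega) (by omega)
  obtain ⟨w, w1, w2, w3, w4⟩ := a8 x hx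
  obtain ⟨w', w1', w2', w3', w4'⟩ := b8 y hy
  have f1 : ∀ i, 1 ≤ i → i ≤ hh → p2 (w i) = some (w (i - 1), c (len + (i - 1)), true) ∧
      par (w i) = none ∧ w i ∉ Z ∧ p1 (w i) ≠ none ∧ w i ∈ W1 := by
    intro i h1 h2
    obtain ⟨e1, e2, e3, e4⟩ := w3 (i - 1) (by omega)
    rw [show i - 1 + 1 = i by omega] at e1 e2 e3 e4
    have e5 : p1 (w i) ≠ none := by rw [e2]; simp
    exact ⟨by rw [b2 _ e5, e2], e3, e4, e5, hW _ _ e1⟩
  have f2 : ∀ i, 1 ≤ i → i ≤ hh → p2 (w' i) = some (w' (i - 1), c (len + 2 * hh - (i - 1)), false) ∧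
      par (w' i) = none ∧ w' i ∉ Z ∧ p1 (w' i) = none ∧ w' i ∈ W1 := by
    intro i h1 h2
    obtain ⟨e1, e2, e3, e4⟩ := w3' (i - 1) (by omega)
    rw [show i - 1 + 1 = i by omega] at e1 e2 e3 e4
    exact ⟨e2, a20 _ e3, e4, e3, hW _ _ e1⟩
  have f3 : ∀ i ≤ len, ∀ z, par z = none → z ∉ Z → q i ≠ z := by
    intro i hi z h1 h2 h3
    rcases h.cov i hi with h4 | h4
    · exact h2 (h3 ▸ h4)
    · exact h4 (h3 ▸ h1)
  have g1 : ∀ i, 1 ≤ i → i ≤ hh → ∀ j, 1 ≤ j → j ≤ hh → w i = w j → i = j := by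
    intro i h1 h2 j h3 h4 h5
    have := w4 (i - 1) (by omega) (j - 1) (by omega)
      (by rwa [show i - 1 + 1 = i by omega, show j - 1 + 1 = j by omega])
    omega
  have g2 : ∀ i ≤ hh, ∀ j ≤ hh, w' i = w' j → i = j := by
    intro i h2 j h4 h5
    by_cases hi : i = 0
    · by_cases hj : j = 0
      · omega
      · subst hi
        exact absurd (by rw [← h5, w1']; exact hrZ) (f2 j (by omega) h4).2.2.1
    · by_cases hj : j = 0
      · subst hj
        exact absurd (by rw [h5, w1']; exact hrZ) (f2 i (by omega) h2).2.2.1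
      · have := w4' (i - 1) (by omega) (j - 1) (by omega)
          (by rwa [show i - 1 + 1 = i by omega, show j - 1 + 1 = j by omega])
        omega
  have g3 : ∀ i, 1 ≤ i → i ≤ hh → ∀ j ≤ hh, w i ≠ w' j := by
    intro i h1 h2 j h4 h5
    by_cases hj : j = 0
    · subst hj
      exact (f1 i h1 h2).2.2.1 (by rw [h5, w1']; exact hrZ)
    · exact (f1 i h1 h2).2.2.2.1 (by rw [h5]; exact (f2 j (by omega) h4).2.2.2.1)
  have g4 : ∀ i ≤ len, ∀ j ≤ hh, q i ≠ w' j := by
    intro i h1 j h4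
    by_cases hj : j = 0
    · subst hj; rw [w1']; exact hrq i h1
    · exact f3 i h1 _ (f2 j (by omega) h4).2.1 (f2 j (by omega) h4).2.2.1
  have g5 : ∀ i ≤ len, ∀ j, 1 ≤ j → j ≤ hh → q i ≠ w j := fun i h1 j h3 h4 =>
    f3 i h1 _ (f1 j h3 h4).2.1 (f1 j h3 h4).2.2.1
  let q' : ℕ → V := fun i => if i ≤ len then q i else if i ≤ len + hh then w (i - len)
    else w' (len + 2 * hh + 1 - i)
  have k1 : ∀ i ≤ len, q' i = q i := fun i hi => by simp [q', hi]
  have k2 : ∀ i ≤ hh, q' (len + i) = w i := by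
    intro i hi
    by_cases h0 : i = 0
    · subst h0; rw [add_zero, k1 len le_rfl, w1]
    · simp only [q']
      rw [if_neg (by omega), if_pos (by omega)]; congr 1; omega
  have k3 : ∀ i ≤ hh, q' (len + 2 * hh + 1 - i) = w' i := by
    intro i hi
    simp only [q']
    rw [if_neg (by omega), if_neg (by omega)]; congr 1; omega
  have kc : ∀ i ≤ len + 2 * hh + 1, i ≤ len ∨ (∃ j, 1 ≤ j ∧ j ≤ hh ∧ i = len + j) ∨
      ∃ j ≤ hh, i = len + 2 * hh + 1 - j := by
    intro i hi
    by_cases a : i ≤ len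
    · exact Or.inl a
    · by_cases a' : i ≤ len + hh
      · exact Or.inr (Or.inl ⟨i - len, by omega, by omega, by omega⟩)
      · exact Or.inr (Or.inr ⟨len + 2 * hh + 1 - i, by omega, by omega⟩)
  have kr : q' (len + 2 * hh + 1) = r := by rw [← w1', ← k3 0 (by omega)]; rfl
  classical
  let par' : V → Option (V × K × Bool) := fun z =>
    if ∃ i, 1 ≤ i ∧ i ≤ hh ∧ (w i = z ∨ w' i = z) then p2 z else par z
  have r1 : ∀ i, 1 ≤ i → i ≤ hh → par' (w i) = p2 (w i) := fun i h1 h2 => by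
    simp only [par']; rw [if_pos ⟨i, h1, h2, Or.inl rfl⟩]
  have r2 : ∀ i, 1 ≤ i → i ≤ hh → par' (w' i) = p2 (w' i) := fun i h1 h2 => by
    simp only [par']; rw [if_pos ⟨i, h1, h2, Or.inr rfl⟩]
  have r3 : ∀ z, par z ≠ none → p2 z = par z := fun z hz => by
    rw [b2 z (by rw [a2 z hz]; exact hz), a2 z hz]
  have r4 : ∀ z, par z ≠ none → par' z = par z := fun z hz => by
    simp only [par']; split_ifs
    · exact r3 z hz
    · rfl
  have r5 : ∀ z, (∃ i, 1 ≤ i ∧ i ≤ hh ∧ (w i = z ∨ w' i = z)) ∨ par' z = par z := by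
    intro z
    by_cases hz : ∃ i, 1 ≤ i ∧ i ≤ hh ∧ (w i = z ∨ w' i = z)
    · exact Or.inl hz
    · right; simp only [par']; rw [if_neg hz]
  refine ⟨q', par', ⟨?_, ?_, ?_, ?_, ?_, ?_, ?_, ?_⟩, kr, k1, ?_⟩
  · intro i hi j hj hij
    rcases kc i hi with a | ⟨i', a, a', rfl⟩ | ⟨i', a, rfl⟩ <;>
      rcases kc j hj with b | ⟨j', b, b', rfl⟩ | ⟨j', b, rfl⟩
    · rw [k1 i a, k1 j b] at hij; exact h.inj i a j b hij
    · rw [k1 i a, k2 j' b'] at hij; exact absurd hij (g5 i a j' b b')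
    · rw [k1 i a, k3 j' b] at hij; exact absurd hij (g4 i a j' b)
    · rw [k1 j b, k2 i' a'] at hij; exact absurd hij.symm (g5 j b i' a a')
    · rw [k2 i' a', k2 j' b'] at hij; rw [g1 i' a a' j' b b' hij]
    · rw [k2 i' a', k3 j' b] at hij; exact absurd hij (g3 i' a a' j' b)
    · rw [k1 j b, k3 i' a] at hij; exact absurd hij.symm (g4 j b i' a)
    · rw [k2 j' b', k3 i' a] at hij; exact absurd hij.symm (g3 j' b b' i' a)
    · rw [k3 i' a, k3 j' b] at hij; rw [g2 i' a j' b hij]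
  · intro i hi
    by_cases a : i < len
    · rw [k1 i a.le, k1 (i + 1) a]; exact h.ok i a
    · by_cases a' : i < len + hh
      · obtain ⟨j, rfl⟩ : ∃ j, i = len + j := ⟨i - len, by omega⟩
        rw [add_assoc, k2 j (by omega), k2 (j + 1) (by omega)]
        exact (hok _ _ _ (w3 j (by omega)).1).1
      · by_cases a'' : i = len + hh
        · subst a''
          rw [k2 hh le_rfl, show len + hh + 1 = len + 2 * hh + 1 - hh by omega, k3 hh le_rfl,
            w2, w2']
          exact hxy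
        · obtain ⟨j, hj, rfl⟩ : ∃ j < hh, i = len + 2 * hh - j := ⟨len + 2 * hh - i, by omega, by omega⟩
          have := (hok _ _ _ (w3' j hj).1).2
          rw [← k3 j hj.le, ← k3 (j + 1) hj] at this
          rwa [show len + 2 * hh + 1 - (j + 1) = len + 2 * hh - j by omega,
            show len + 2 * hh + 1 - j = len + 2 * hh - j + 1 by omega] at this
  · refine b1.rollback fun z => ?_
    simp only [par']
    split_ifs
    · exact Or.inr rfl
    · by_cases hz : par z = none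
      · exact Or.inl hz
      · exact Or.inr (r3 z hz).symm
  · intro i hi
    rcases kc i hi with a | ⟨i', a, a', rfl⟩ | ⟨i', a, rfl⟩
    · rw [k1 i a]
      refine (h.cov i a).imp id fun hz => ?_
      rw [r4 _ hz]; exact hz
    · rw [k2 i' a', r1 i' a a', (f1 i' a a').1]; simp
    · rw [k3 i' a]
      by_cases h0 : i' = 0
      · subst h0; rw [w1']; exact Or.inl hrZ
      · rw [r2 i' (by omega) a, (f2 i' (by omega) a).1]; simp
  · intro z hz
    rcases r5 z with ⟨i, h1, h2, rfl | rfl⟩ | h1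
    · exact ⟨len + i, by omega, k2 i h2⟩
    · exact ⟨len + 2 * hh + 1 - i, by omega, k3 i h2⟩
    · rw [h1] at hz
      obtain ⟨i, hi, rfl⟩ := h.domq z hz
      exact ⟨i, by omega, k1 i hi⟩
  · intro z u hu
    rw [kr]
    rcases r5 z with ⟨i, h1, h2, rfl | rfl⟩ | h1
    · rw [r1 i h1 h2, (f1 i h1 h2).1] at hu
      obtain rfl := Option.some.inj hu
      refine ⟨⟨len + (i - 1), by omega, k2 _ (by omega)⟩, fun _ => ?_⟩
      by_cases h0 : i - 1 = 0
      · rw [h0, w1]; exact hrq len le_rfl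
      · intro h3
        exact (f1 (i - 1) (by omega) (by omega)).2.2.1 (by rw [show w (i - 1) = r from h3]; exact hrZ)
    · rw [r2 i h1 h2, (f2 i h1 h2).1] at hu
      obtain rfl := Option.some.inj hu
      exact ⟨⟨len + 2 * hh + 1 - (i - 1), by omega, k3 _ (by omega)⟩, by simp⟩
    · rw [h1] at hu
      obtain ⟨i, hi, h2⟩ := (h.ptr z u hu).1
      exact ⟨⟨i, by omega, by rw [k1 i hi, h2]⟩, fun _ => by rw [← h2]; exact hrq i hi⟩
  · intro i hi
    rcases kc i hi with a | ⟨i', a, a', rfl⟩ | ⟨i', a, rfl⟩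
    · rw [k1 i a]; exact h.inW i a
    · rw [k2 i' a']; exact Or.inr (f1 i' a a').2.2.2.2
    · rw [k3 i' a]
      by_cases h0 : i' = 0
      · subst h0; rw [w1']; exact Or.inl hrZ
      · exact Or.inr (f2 i' (by omega) a).2.2.2.2
  · rw [kr]; exact hrX
  · intro i h1 h2
    rcases kc i (by omega) with a | ⟨i', a, a', rfl⟩ | ⟨i', a, rfl⟩
    · omega
    · rw [k2 i' a']; exact (f1 i' a a').2.2.1
    · rw [k3 i' a]; exact (f2 i' (by omega) a).2.2.1

lemma St.last (h : St X W1 G m D ok c Z q len par) {D' T M : ℕ}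
    (hbig : ∀ A ⊆ Lb K X, m ≤ A.card → M ≤ (A.biUnion (Gm G)).card)
    (hW : ∀ v j, G v j ⊆ W1) (hXZ : X ⊆ Z) (hD : D' + T ≤ D) (hD' : 2 ≤ D')
    (hok : ∀ v j, ∀ y ∈ G v j, ok v y j ∧ ok y v j)
    (hM : len + 1 + D * D' ^ 2 + 2 * m * D < M)
    (hud : ∀ j, (G (q len) j ∩ Z).card ≤ T)
    (hdeg : ∀ v ∈ W1, v ∉ Z → par v = none → ∀ j, (G v j ∩ Z).card ≤ T) :
    ∃ q' : ℕ → V, (∀ i ≤ len + 2, ∀ j ≤ len + 2, q' i = q' j → i = j) ∧
      (∀ i < len + 2, ok (q' i) (q' (i + 1)) (c i)) ∧ (∀ i ≤ len, q' i = q i) ∧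
      (∀ i ≤ len + 2, q' i ∈ Z ∨ q' i ∈ W1) ∧ q' (len + 2) ∉ Z := by
  have hdom := h.dom_le
  obtain ⟨p1, L1, -, -, -, -, -, a6, -, a8⟩ := tree (b := true) (h := 2) hbig hW hXZ hD hD'
    h.good h.parA h.endX (h.cov len le_rfl)
    (fun y j hy => (h.ptr y _ hy).2 rfl rfl) hud hdeg (by omega) (fun i => c (len + i)) 2 le_rfl
  obtain ⟨x, hx⟩ : L1.Nonempty := by
    rw [← Finset.card_pos, a6]; positivity
  obtain ⟨w, w1, -, w3, w4⟩ := a8 x hx
  obtain ⟨e1, -, e3, e4⟩ := w3 0 (by omega)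
  obtain ⟨e1', -, e3', e4'⟩ := w3 1 (by omega)
  have f3 : ∀ i ≤ len, ∀ z, par z = none → z ∉ Z → q i ≠ z := by
    intro i hi z h1 h2 h3
    rcases h.cov i hi with h4 | h4
    · exact h2 (h3 ▸ h4)
    · exact h4 (h3 ▸ h1)
  have hne : w (0 + 1) ≠ w (1 + 1) := fun h => by simpa using w4 0 (by omega) 1 (by omega) h
  refine ⟨fun i => if i ≤ len then q i else if i = len + 1 then w (0 + 1) else w (1 + 1),
    fun i hi j hj hij => ?_, fun i hi => ?_, fun i hi => by simp [hi], fun i hi => ?_,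
    by simpa using e4'⟩
  · try dsimp only at hij
    split_ifs at hij with a1 a2 a3 a4 a5 a6 a7 a8
    · exact h.inj i a1 j a2 hij
    · exact absurd hij (f3 i a1 _ e3 e4)
    · exact absurd hij (f3 i a1 _ e3' e4')
    · exact absurd hij.symm (f3 j a5 _ e3 e4)
    · omega
    · exact absurd hij hne
    · exact absurd hij.symm (f3 j a7 _ e3' e4')
    · exact absurd hij.symm hne
    · omega
  · by_cases a1 : i + 1 ≤ len
    · simp only [if_pos a1, if_pos (show i ≤ len by omega)]; exact h.ok i (by omega)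
    · by_cases a2 : i = len
      · subst a2
        have := (hok _ _ _ e1).1
        rw [w1] at this
        simpa using this
      · obtain rfl : i = len + 1 := by omega
        simpa using (hok _ _ _ e1').1
  · try dsimp only
    split_ifs with a1 a2
    · exact h.inW i a1
    · exact Or.inr (hW _ _ e1)
    · exact Or.inr (hW _ _ e1')

end

end Pool.Agent.Lib.MP_753083_pr
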